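import Mathlib.NumberTheory.ArithmeticFunction.Misc
import Mathlib.Analysis.SpecialFunctions.Pow.Real
import Mathlib.Analysis.SpecialFunctions.Pow.Deriv
import Mathlib.Analysis.Convex.SpecificFunctions.Basic

/-!
The divisor bound, and elementary sums of powers.
-/

namespace Pool.Agent.K3N

lemma succ_le_two_rpow (ε : ℝ) (hε : 0 < ε) :
    ∃ C : ℝ, 1 ≤ C ∧ ∀ v : ℕ, (v : ℝ) + 1 ≤ C * (2 : ℝ) ^ (ε * v) := by
  have hl : 0 < Real.log 2 := Real.log_pos (by norm_num)
  set m := min 1 (ε * Real.log 2) with hm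
  have hm0 : 0 < m := lt_min one_pos (by positivity)
  refine ⟨1 / m, ?_, ?_⟩
  · rw [le_div_iff₀ hm0]
    rw [one_mul]
    exact min_le_left _ _
  · intro v
    have h1 : (2 : ℝ) ^ (ε * v) = Real.exp (ε * Real.log 2 * v) := by
      rw [Real.rpow_def_of_pos (by norm_num)]
      ring_nf
    rw [h1, one_div, ← div_eq_inv_mul, le_div_iff₀ hm0]
    have h2 := Real.add_one_le_exp (ε * Real.log 2 * v)
    have h3 : m ≤ 1 := min_le_left _ _
    have h4 : m ≤ ε * Real.log 2 := min_le_right _ _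
    have h5 : (0 : ℝ) ≤ v := Nat.cast_nonneg v
    nlinarith

/-- The divisor bound. -/
theorem card_divisors_le (ε : ℝ) (hε : 0 < ε) :
    ∃ C : ℝ, 1 ≤ C ∧ ∀ n : ℕ, n ≠ 0 → (n.divisors.card : ℝ) ≤ C * (n : ℝ) ^ ε := by
  obtain ⟨C1, hC1, h1⟩ := succ_le_two_rpow ε hε
  obtain ⟨P0, hP0⟩ := exists_nat_gt ((2 : ℝ) ^ (1 / ε))
  refine ⟨C1 ^ P0, one_le_pow₀ hC1, ?_⟩
  intro n hn
  rw [Nat.card_divisors hn]
  push_cast
  have hfac : ∀ p ∈ n.primeFactors, ((n.factorization p : ℝ) + 1) ≤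
      (if p < P0 then C1 else 1) * ((p : ℝ) ^ (n.factorization p)) ^ ε := by
    intro p hp
    have hpp := Nat.prime_of_mem_primeFactors hp
    have hp2 : (2 : ℝ) ≤ p := by exact_mod_cast hpp.two_le
    have hrw : ((p : ℝ) ^ (n.factorization p)) ^ ε = (p : ℝ) ^ (ε * n.factorization p) := by
      rw [← Real.rpow_natCast, ← Real.rpow_mul (by positivity), mul_comm]
    rw [hrw]
    split_ifs with hlt
    · refine (h1 _).trans ?_
      have := Real.rpow_le_rpow (z := ε * n.factorization p) (by norm_num) hp2 (by positivity)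
      nlinarith
    · push Not at hlt
      rw [one_mul, Real.rpow_mul (by positivity)]
      have h2 : (2 : ℝ) ≤ (p : ℝ) ^ ε := by
        have h3 : (2 : ℝ) ^ (1 / ε) ≤ p := hP0.le.trans (by exact_mod_cast hlt)
        have h4 := Real.rpow_le_rpow (by positivity) h3 hε.le
        rwa [← Real.rpow_mul (by norm_num), one_div, inv_mul_cancel₀ hε.ne', Real.rpow_one] at h4
      have h5 : (2 : ℝ) ^ (n.factorization p) ≤ ((p : ℝ) ^ ε) ^ (n.factorization p) :=
        pow_le_pow_left₀ (by norm_num) h2 _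
      rw [Real.rpow_natCast]
      refine le_trans ?_ h5
      have h6 : n.factorization p + 1 ≤ 2 ^ n.factorization p := Nat.lt_two_pow_self
      exact_mod_cast h6
  have h2 : ∏ p ∈ n.primeFactors, ((n.factorization p : ℝ) + 1) ≤
      (∏ p ∈ n.primeFactors, (if p < P0 then C1 else 1)) *
        ∏ p ∈ n.primeFactors, ((p : ℝ) ^ (n.factorization p)) ^ ε := by
    rw [← Finset.prod_mul_distrib]
    exact Finset.prod_le_prod (fun p _ => by positivity) hfac
  have h3 : ∏ p ∈ n.primeFactors, ((p : ℝ) ^ (n.factorization p)) ^ ε = (n : ℝ) ^ ε := by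
    rw [Real.finsetProd_rpow _ _ (fun p _ => by positivity)]
    congr 1
    have := Nat.prod_factorization_pow_eq_self hn
    conv_rhs => rw [← this]
    rw [Finsupp.prod]
    push_cast
    rfl
  have h4 : (∏ p ∈ n.primeFactors, (if p < P0 then C1 else 1)) ≤ C1 ^ P0 := by
    rw [Finset.prod_ite, Finset.prod_const, Finset.prod_const_one, mul_one]
    apply pow_le_pow_right₀ hC1
    calc _ ≤ (Finset.range P0).card := by
          apply Finset.card_le_card
          intro p hp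
          rw [Finset.mem_filter] at hp
          exact Finset.mem_range.mpr hp.2
      _ = P0 := Finset.card_range _
  rw [h3] at h2
  exact h2.trans (mul_le_mul_of_nonneg_right h4 (by positivity))

/-- `∑_{m ≤ N} m^(p-1) ≤ N^p / p`. -/
theorem sum_rpow_le (p : ℝ) (hp : 0 < p) (hp1 : p ≤ 1) (N : ℕ) :
    ∑ m ∈ Finset.Icc 1 N, (m : ℝ) ^ (p - 1) ≤ (N : ℝ) ^ p / p := by
  induction N with
  | zero => simp; positivity
  | succ n ih =>
    rw [Finset.sum_Icc_succ_top (by omega)]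
    have hn : (0 : ℝ) < ((n + 1 : ℕ) : ℝ) := by positivity
    have h1 : (1 + (-(1 / ((n + 1 : ℕ) : ℝ)))) ^ p ≤ 1 + p * (-(1 / ((n + 1 : ℕ) : ℝ))) := by
      apply rpow_one_add_le_one_add_mul_self
      · rw [neg_le_neg_iff, div_le_one hn]
        push_cast
        linarith [Nat.cast_nonneg (α := ℝ) n]
      · exact hp.le
      · exact hp1
    have h2 : (n : ℝ) ^ p = ((n + 1 : ℕ) : ℝ) ^ p * (1 + (-(1 / ((n + 1 : ℕ) : ℝ)))) ^ p := by
      rw [← Real.mul_rpow hn.le]
      · congr 1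
        push_cast
        field_simp
        ring
      · rw [← sub_eq_add_neg, sub_nonneg, div_le_one hn]
        push_cast
        linarith [Nat.cast_nonneg (α := ℝ) n]
    have h3 : ((n + 1 : ℕ) : ℝ) ^ (p - 1) = ((n + 1 : ℕ) : ℝ) ^ p / ((n + 1 : ℕ) : ℝ) := by
      rw [Real.rpow_sub_one hn.ne']
    have h4 : (0 : ℝ) < ((n + 1 : ℕ) : ℝ) ^ p := by positivity
    have h5 : (n : ℝ) ^ p / p ≤ ((n + 1 : ℕ) : ℝ) ^ p / p -
        ((n + 1 : ℕ) : ℝ) ^ p / ((n + 1 : ℕ) : ℝ) := by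
      rw [h2]
      have := mul_le_mul_of_nonneg_left h1 h4.le
      calc _ ≤ (((n + 1 : ℕ) : ℝ) ^ p * (1 + p * (-(1 / ((n + 1 : ℕ) : ℝ))))) / p := by
            gcongr
        _ = _ := by field_simp; ring
    rw [h3]
    linarith

end Pool.Agent.K3N
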