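import Pool.Agent.K3N.Forms

/-!
Counting the points of one data class.
-/

namespace Pool.Agent.K3N

open Polynomial

lemma div_gcd_dvd {P k D : ℕ} (hP : P ≠ 0) (h : P ∣ k * D) : P / Nat.gcd P D ∣ k := by
  have hg : 0 < Nat.gcd P D := Nat.gcd_pos_of_pos_left _ (Nat.pos_of_ne_zero hP)
  have h1 : Nat.Coprime (P / Nat.gcd P D) (D / Nat.gcd P D) := Nat.coprime_div_gcd_div_gcd hg
  apply h1.dvd_of_dvd_mul_right
  obtain ⟨P', hP'⟩ := Nat.gcd_dvd_left P D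
  obtain ⟨D', hD'⟩ := Nat.gcd_dvd_right P D
  have e1 : P / Nat.gcd P D = P' := Nat.div_eq_of_eq_mul_right hg hP'
  have e2 : D / Nat.gcd P D = D' := Nat.div_eq_of_eq_mul_right hg hD'
  rw [e1, e2]
  have h2 : Nat.gcd P D * P' ∣ Nat.gcd P D * (k * D') := by
    rw [← hP']
    refine h.trans (dvd_of_eq ?_)
    conv_lhs => rw [hD']
    ring
  exact Nat.dvd_of_mul_dvd_mul_left hg h2

lemma side (F : Forms) (i₀ : Fin 4) {n : ℤ} {G : Fin 3 → ℕ} (hG : ∀ k, G k ≠ 0)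
    {S : Finset (ℤ × ℤ)} {X : ℝ} (hcop : ∀ p ∈ S, IsCoprime p.1 p.2)
    (hLn : ∀ p ∈ S, F.L i₀ p.1 p.2 = n)
    (hdvd : ∀ p ∈ S, ∀ k, (G k : ℤ) ∣ F.L (i₀.succAbove k) p.1 p.2)
    (hX : ∀ p ∈ S, |(p.1 : ℝ)| ≤ X ∧ |(p.2 : ℝ)| ≤ X) {p₀ : ℤ × ℤ} (h0 : p₀ ∈ S) :
    ∃ (M : ℕ) (a b : ℤ) (f : ℤ × ℤ → ℤ), 0 < M ∧ a * F.p i₀ + b * F.q i₀ = 1 ∧
      M ≤ ∏ k, G k ∧ ∏ k, G k ≤ M * F.Δ ^ 4 ∧
      (∀ p ∈ S, p.1 = p₀.1 + M * f p * F.q i₀ ∧ p.2 = p₀.2 - M * f p * F.p i₀) ∧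
      (∀ p ∈ S, ∀ p' ∈ S, (M : ℝ) * |(f p' : ℝ) - f p| ≤ 2 * X) := by
  classical
  obtain ⟨a, b, hab⟩ := F.cop i₀
  set PG := ∏ k, G k with hPG
  have hPG0 : PG ≠ 0 := Finset.prod_ne_zero_iff.mpr (fun k _ => hG k)
  set M := PG / Nat.gcd PG (F.Δ ^ 4) with hM
  have hg : 0 < Nat.gcd PG (F.Δ ^ 4) := Nat.gcd_pos_of_pos_left _ (Nat.pos_of_ne_zero hPG0)
  have hMg : M * Nat.gcd PG (F.Δ ^ 4) = PG := Nat.div_mul_cancel (Nat.gcd_dvd_left _ _)
  have hM0 : 0 < M := by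
    rcases Nat.eq_zero_or_pos M with h | h
    · rw [h, zero_mul] at hMg
      exact absurd hMg.symm hPG0
    · exact h
  have hgΔ : Nat.gcd PG (F.Δ ^ 4) ≤ F.Δ ^ 4 :=
    Nat.le_of_dvd (pow_pos F.pos 4) (Nat.gcd_dvd_right _ _)
  have hdiv : ∀ p ∈ S, (M : ℤ) ∣ b * (p.1 - p₀.1) - a * (p.2 - p₀.2) := by
    intro p hp
    set k := b * (p.1 - p₀.1) - a * (p.2 - p₀.2) with hk
    have hL0 : F.L i₀ (p.1 - p₀.1) (p.2 - p₀.2) = 0 := by
      rw [F.L_sub, hLn p hp, hLn p₀ h0, sub_self]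
    obtain ⟨h1, h2⟩ := F.line_diff i₀ hab hL0
    have hGk : ∀ j, G j ∣ k.natAbs * F.Δ := by
      intro j
      have h3 : F.L (i₀.succAbove j) (p.1 - p₀.1) (p.2 - p₀.2) =
          k * (F.p (i₀.succAbove j) * F.q i₀ - F.p i₀ * F.q (i₀.succAbove j)) := by
        rw [← hk] at h1 h2
        unfold Forms.L
        linear_combination F.p (i₀.succAbove j) * h1 + F.q (i₀.succAbove j) * h2
      have h4 : (G j : ℤ) ∣ F.L (i₀.succAbove j) (p.1 - p₀.1) (p.2 - p₀.2) := by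
        rw [F.L_sub]
        exact dvd_sub (hdvd p hp j) (hdvd p₀ h0 j)
      rw [h3] at h4
      have h5 : (G j : ℤ) ∣ k * F.Δ :=
        h4.trans (mul_dvd_mul_left k (F.dvd _ _ (Fin.succAbove_ne i₀ j)))
      rw [Int.natCast_dvd, Int.natAbs_mul, Int.natAbs_natCast] at h5
      exact h5
    have hgg : ∀ i j, i ≠ j → Nat.gcd (G i) (G j) ∣ F.Δ := by
      intro i j hij
      rw [← Int.natCast_dvd_natCast]
      apply F.dvd_Δ (i := i₀.succAbove i) (j := i₀.succAbove j)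
        (fun h => hij (Fin.succAbove_right_injective h)) (hcop p₀ h0)
      · exact (Int.natCast_dvd_natCast.mpr (Nat.gcd_dvd_left _ _)).trans (hdvd p₀ h0 i)
      · exact (Int.natCast_dvd_natCast.mpr (Nat.gcd_dvd_right _ _)).trans (hdvd p₀ h0 j)
    have h6 := three_dvd (hGk 0) (hGk 1) (hGk 2) (hgg 0 1 (by decide)) (hgg 0 2 (by decide))
      (hgg 1 2 (by decide))
    have h7 : PG ∣ k.natAbs * F.Δ ^ 4 := by
      rw [hPG, Fin.prod_univ_three]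
      exact h6.trans (dvd_of_eq (by ring))
    rw [Int.natCast_dvd]
    exact div_gcd_dvd hPG0 h7
  let f : ℤ × ℤ → ℤ := fun p => (b * (p.1 - p₀.1) - a * (p.2 - p₀.2)) / M
  have hf : ∀ p ∈ S, b * (p.1 - p₀.1) - a * (p.2 - p₀.2) = M * f p := by
    intro p hp
    exact (Int.mul_ediv_cancel' (hdiv p hp)).symm
  have hpar : ∀ p ∈ S, p.1 = p₀.1 + M * f p * F.q i₀ ∧ p.2 = p₀.2 - M * f p * F.p i₀ := by
    intro p hp
    have hL0 : F.L i₀ (p.1 - p₀.1) (p.2 - p₀.2) = 0 := by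
      rw [F.L_sub, hLn p hp, hLn p₀ h0, sub_self]
    obtain ⟨h1, h2⟩ := F.line_diff i₀ hab hL0
    rw [hf p hp] at h1 h2
    constructor <;> linarith
  refine ⟨M, a, b, f, hM0, hab, ?_, ?_, hpar, ?_⟩
  · rw [← hMg]
    exact Nat.le_mul_of_pos_right M hg
  · rw [← hMg]
    exact Nat.mul_le_mul_left M hgΔ
  · intro p hp p' hp'
    obtain ⟨g1, g2⟩ := hpar p hp
    obtain ⟨g3, g4⟩ := hpar p' hp'
    obtain ⟨x1, x2⟩ := hX p hp
    obtain ⟨x3, x4⟩ := hX p' hp'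
    have hq : F.p i₀ ≠ 0 ∨ F.q i₀ ≠ 0 := by
      by_contra h
      push Not at h
      rw [h.1, h.2] at hab
      simp at hab
    have e1 : (p'.1 : ℝ) - p.1 = M * (f p' - f p) * F.q i₀ := by
      rw [g1, g3]; push_cast; ring
    have e2 : (p'.2 : ℝ) - p.2 = -(M * (f p' - f p) * F.p i₀) := by
      rw [g2, g4]; push_cast; ring
    have hM' : (0 : ℝ) < M := by exact_mod_cast hM0
    rcases hq with hq | hq
    · have h1 : (1 : ℝ) ≤ |(F.p i₀ : ℝ)| := by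
        rw [← Int.cast_abs]; exact_mod_cast Int.one_le_abs hq
      have h2 : |(p'.2 : ℝ) - p.2| ≤ 2 * X := by
        refine (abs_sub _ _).trans ?_
        linarith
      rw [e2, abs_neg, abs_mul, abs_mul, abs_of_pos hM'] at h2
      nlinarith [abs_nonneg ((f p' : ℝ) - f p), mul_nonneg hM'.le
        (abs_nonneg ((f p' : ℝ) - f p))]
    · have h1 : (1 : ℝ) ≤ |(F.q i₀ : ℝ)| := by
        rw [← Int.cast_abs]; exact_mod_cast Int.one_le_abs hq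
      have h2 : |(p'.1 : ℝ) - p.1| ≤ 2 * X := by
        refine (abs_sub _ _).trans ?_
        linarith
      rw [e1, abs_mul, abs_mul, abs_of_pos hM'] at h2
      nlinarith [abs_nonneg ((f p' : ℝ) - f p), mul_nonneg hM'.le
        (abs_nonneg ((f p' : ℝ) - f p))]

lemma vec_identity {p q a b n M r s : ℚ} (hn : n ≠ 0) (hM : M ≠ 0) (hab : a * p + b * q = 1)
    (hL : p * r + q * s = n) : ∃ T1x T1y T2x T2y : ℚ,
      (∀ X Y : ℚ, X = (T1x * X + T1y * Y) * r + (T2x * X + T2y * Y) * (M * q) ∧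
        Y = (T1x * X + T1y * Y) * s - (T2x * X + T2y * Y) * (M * p)) ∧
      (∀ X Y : ℚ, T1x * X + T1y * Y = (p * X + q * Y) / n) ∧
      ∀ t : ℚ, T2x * (r + M * t * q) + T2y * (s - M * t * p) = t := by
  refine ⟨p / n, q / n, (b - p / n * (b * r - a * s)) / M, (-a - q / n * (b * r - a * s)) / M,
    ?_, ?_, ?_⟩
  · intro X Y
    constructor
    · field_simp
      linear_combination ((p * X + q * Y) * r - n * X) * hab - (p * X + q * Y) * a * hL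
    · field_simp
      linear_combination ((p * X + q * Y) * s - n * Y) * hab - (p * X + q * Y) * b * hL
  · intro X Y
    ring
  · intro t
    field_simp
    linear_combination (n * M * t) * hab - (b * r - a * s) * hL

/-- Points in one data class: at most `C (K1 K2)^(1/3) + ...` many. -/
theorem class_count (F F' : Forms) (i₀ j₀ : Fin 4) (r N : ℕ) (hN : 1 ≤ N)
    {n n' A B : ℤ} (hn : n ≠ 0) (hn' : n' ≠ 0) (hA : A ≠ 0) (hB : B ≠ 0)
    {G G' : Fin 3 → ℕ} (hG : ∀ k, G k ≠ 0) (hG' : ∀ k, G' k ≠ 0) {X Y : ℝ}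
    (S : Finset ((ℤ × ℤ) × (ℤ × ℤ)))
    (hcop : ∀ p ∈ S, IsCoprime p.1.1 p.1.2 ∧ IsCoprime p.2.1 p.2.2)
    (hLn : ∀ p ∈ S, F.L i₀ p.1.1 p.1.2 = n ∧ F'.L j₀ p.2.1 p.2.2 = n')
    (hdvd : ∀ p ∈ S, ∀ k, (G k : ℤ) ∣ F.L (i₀.succAbove k) p.1.1 p.1.2 ∧
      (G' k : ℤ) ∣ F'.L (j₀.succAbove k) p.2.1 p.2.2)
    (hrel : ∀ p ∈ S, A ^ 2 * ∏ i, F.L i p.1.1 p.1.2 = B ^ 2 * ∏ j, F'.L j p.2.1 p.2.2)
    (hnz : ∀ p ∈ S, ∀ j, F'.L j p.2.1 p.2.2 ≠ 0)
    (hX : ∀ p ∈ S, |(p.1.1 : ℝ)| ≤ X ∧ |(p.1.2 : ℝ)| ≤ X)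
    (hY : ∀ p ∈ S, |(p.2.1 : ℝ)| ≤ Y ∧ |(p.2.2 : ℝ)| ≤ Y)
    (hK : 8 * (F.Δ : ℝ) ^ 4 * (F'.Δ : ℝ) ^ 4 * X * Y ≤
      (N : ℝ) ^ 3 * (∏ k, (G k : ℝ)) * (∏ k, (G' k : ℝ)))
    (hNr : 3 * (B : ℝ) ^ 2 * F'.Δ * (F'.κ * Y) ^ 6 ≤ (N : ℝ) ^ r)
    (hgr : ∀ p ∈ S, ¬ OnGr F F' p.1.1 p.1.2 p.2.1 p.2.2) :
    S.card ≤ 9 * ((r + 1) * (2 ^ (r + 1) * N)) + 9 := by
  classical
  rcases S.eq_empty_or_nonempty with rfl | ⟨p₀, hp₀⟩
  · simp
  obtain ⟨M, a, b, f, hM0, hab, hMle, hMge, hpar, hdiff⟩ := side F i₀ hG (S := S.image Prod.fst)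
    (n := n) (X := X) (p₀ := p₀.1)
    (by
      intro p hp
      obtain ⟨x, hx, rfl⟩ := Finset.mem_image.mp hp
      exact (hcop x hx).1)
    (by
      intro p hp
      obtain ⟨x, hx, rfl⟩ := Finset.mem_image.mp hp
      exact (hLn x hx).1)
    (by
      intro p hp k
      obtain ⟨x, hx, rfl⟩ := Finset.mem_image.mp hp
      exact (hdvd x hx k).1)
    (by
      intro p hp
      obtain ⟨x, hx, rfl⟩ := Finset.mem_image.mp hp
      exact hX x hx)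
    (Finset.mem_image_of_mem _ hp₀)
  obtain ⟨M', a', b', f', hM0', hab', hMle', hMge', hpar', hdiff'⟩ := side F' j₀ hG'
    (S := S.image Prod.snd) (n := n') (X := Y) (p₀ := p₀.2)
    (by
      intro p hp
      obtain ⟨x, hx, rfl⟩ := Finset.mem_image.mp hp
      exact (hcop x hx).2)
    (by
      intro p hp
      obtain ⟨x, hx, rfl⟩ := Finset.mem_image.mp hp
      exact (hLn x hx).2)
    (by
      intro p hp k
      obtain ⟨x, hx, rfl⟩ := Finset.mem_image.mp hp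
      exact (hdvd x hx k).2)
    (by
      intro p hp
      obtain ⟨x, hx, rfl⟩ := Finset.mem_image.mp hp
      exact hY x hx)
    (Finset.mem_image_of_mem _ hp₀)
  have hpar1 : ∀ p ∈ S, p.1.1 = p₀.1.1 + M * f p.1 * F.q i₀ ∧
      p.1.2 = p₀.1.2 - M * f p.1 * F.p i₀ := fun p hp =>
    hpar p.1 (Finset.mem_image_of_mem _ hp)
  have hpar2 : ∀ p ∈ S, p.2.1 = p₀.2.1 + M' * f' p.2 * F'.q j₀ ∧
      p.2.2 = p₀.2.2 - M' * f' p.2 * F'.p j₀ := fun p hp =>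
    hpar' p.2 (Finset.mem_image_of_mem _ hp)
  -- the coefficients
  let D : Fin 3 → ℤ := fun k =>
    F.p (i₀.succAbove k) * F.q i₀ - F.p i₀ * F.q (i₀.succAbove k)
  let D' : Fin 3 → ℤ := fun k =>
    F'.p (j₀.succAbove k) * F'.q j₀ - F'.p j₀ * F'.q (j₀.succAbove k)
  have hD : ∀ k, D k ≠ 0 := fun k => F.nz _ _ (Fin.succAbove_ne i₀ k)
  have hD' : ∀ k, D' k ≠ 0 := fun k => F'.nz _ _ (Fin.succAbove_ne j₀ k)
  let α : Fin 3 → ℤ := fun k => F.L (i₀.succAbove k) p₀.1.1 p₀.1.2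
  let α' : Fin 3 → ℤ := fun k => F'.L (j₀.succAbove k) p₀.2.1 p₀.2.2
  let β : Fin 3 → ℤ := fun k => M * D k
  let β' : Fin 3 → ℤ := fun k => M' * D' k
  have hMz : (M : ℤ) ≠ 0 := by exact_mod_cast hM0.ne'
  have hMz' : (M' : ℤ) ≠ 0 := by exact_mod_cast hM0'.ne'
  have hβ : ∀ k, β k ≠ 0 := fun k => mul_ne_zero hMz (hD k)
  have hβ' : ∀ k, β' k ≠ 0 := fun k => mul_ne_zero hMz' (hD' k)
  have hval : ∀ p ∈ S, ∀ k, β k * f p.1 + α k = F.L (i₀.succAbove k) p.1.1 p.1.2 := by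
    intro p hp k
    obtain ⟨h1, h2⟩ := hpar1 p hp
    simp only [β, D, α, Forms.L]
    rw [h1, h2]
    ring
  have hval' : ∀ p ∈ S, ∀ k, β' k * f' p.2 + α' k = F'.L (j₀.succAbove k) p.2.1 p.2.2 := by
    intro p hp k
    obtain ⟨h1, h2⟩ := hpar2 p hp
    simp only [β', D', α', Forms.L]
    rw [h1, h2]
    ring
  let P : ℤ[X] := cub3 (A ^ 2 * n) α β
  let Q : ℤ[X] := cub3 (B ^ 2 * n') α' β'
  let h : (ℤ × ℤ) × (ℤ × ℤ) → ℤ × ℤ := fun p => (f p.1, f' p.2)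
  have hinj : Set.InjOn h S := by
    intro p hp p' hp' heq
    simp only [h, Prod.mk.injEq] at heq
    obtain ⟨h1, h2⟩ := hpar1 p hp
    obtain ⟨h3, h4⟩ := hpar1 p' hp'
    obtain ⟨h5, h6⟩ := hpar2 p hp
    obtain ⟨h7, h8⟩ := hpar2 p' hp'
    rw [heq.1] at h1 h2
    rw [heq.2] at h5 h6
    exact Prod.ext (Prod.ext (h1.trans h3.symm) (h2.trans h4.symm))
      (Prod.ext (h5.trans h7.symm) (h6.trans h8.symm))
  rw [← Finset.card_image_of_injOn hinj]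
  have hκ : (1 : ℝ) ≤ F'.κ := by exact_mod_cast F'.κ_pos
  have hX0 : 0 ≤ X := (abs_nonneg _).trans (hX p₀ hp₀).1
  have hY0 : 0 ≤ Y := (abs_nonneg _).trans (hY p₀ hp₀).1
  have hPGpos : (0 : ℝ) < ∏ k, (G k : ℝ) :=
    Finset.prod_pos (fun k _ => by exact_mod_cast Nat.pos_of_ne_zero (hG k))
  have hPGpos' : (0 : ℝ) < ∏ k, (G' k : ℝ) :=
    Finset.prod_pos (fun k _ => by exact_mod_cast Nat.pos_of_ne_zero (hG' k))
  have hMgeR : ∏ k, (G k : ℝ) ≤ M * (F.Δ : ℝ) ^ 4 := by exact_mod_cast hMge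
  have hMgeR' : ∏ k, (G' k : ℝ) ≤ M' * (F'.Δ : ℝ) ^ 4 := by exact_mod_cast hMge'
  have hMR : (0 : ℝ) < M := by exact_mod_cast hM0
  have hMR' : (0 : ℝ) < M' := by exact_mod_cast hM0'
  have hΔR : (0 : ℝ) < F.Δ := by exact_mod_cast F.pos
  have hΔR' : (0 : ℝ) < F'.Δ := by exact_mod_cast F'.pos
  apply curve_count r (P := P) (Q := Q) (cub3_natDegree (mul_ne_zero (pow_ne_zero 2 hA) hn) hβ)
    (cub3_natDegree (mul_ne_zero (pow_ne_zero 2 hB) hn') hβ') N hN _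
    (2 * X * (F.Δ : ℝ) ^ 4 / ∏ k, (G k : ℝ)) (2 * Y * (F'.Δ : ℝ) ^ 4 / ∏ k, (G' k : ℝ))
  · intro x hx
    obtain ⟨p, hp, rfl⟩ := Finset.mem_image.mp hx
    simp only [h, P, Q, cub3_eval, hval p hp, hval' p hp]
    have h1 := hrel p hp
    rw [Fin.prod_univ_succAbove _ i₀, Fin.prod_univ_succAbove _ j₀, (hLn p hp).1,
      (hLn p hp).2] at h1
    linear_combination h1
  · intro x hx x' hx'
    obtain ⟨p, hp, rfl⟩ := Finset.mem_image.mp hx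
    obtain ⟨p', hp', rfl⟩ := Finset.mem_image.mp hx'
    have h1 := hdiff p.1 (Finset.mem_image_of_mem _ hp) p'.1 (Finset.mem_image_of_mem _ hp')
    rw [le_div_iff₀ hPGpos]
    simp only [h]
    calc |(f p'.1 : ℝ) - f p.1| * ∏ k, (G k : ℝ) ≤
          |(f p'.1 : ℝ) - f p.1| * (M * (F.Δ : ℝ) ^ 4) := by gcongr
      _ = (M * |(f p'.1 : ℝ) - f p.1|) * (F.Δ : ℝ) ^ 4 := by ring
      _ ≤ (2 * X) * (F.Δ : ℝ) ^ 4 := by gcongr
  · intro x hx x' hx'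
    obtain ⟨p, hp, rfl⟩ := Finset.mem_image.mp hx
    obtain ⟨p', hp', rfl⟩ := Finset.mem_image.mp hx'
    have h1 := hdiff' p.2 (Finset.mem_image_of_mem _ hp) p'.2 (Finset.mem_image_of_mem _ hp')
    rw [le_div_iff₀ hPGpos']
    simp only [h]
    calc |(f' p'.2 : ℝ) - f' p.2| * ∏ k, (G' k : ℝ) ≤
          |(f' p'.2 : ℝ) - f' p.2| * (M' * (F'.Δ : ℝ) ^ 4) := by gcongr
      _ = (M' * |(f' p'.2 : ℝ) - f' p.2|) * (F'.Δ : ℝ) ^ 4 := by ring
      _ ≤ (2 * Y) * (F'.Δ : ℝ) ^ 4 := by gcongr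
  · have e : 2 * (2 * X * (F.Δ : ℝ) ^ 4 / ∏ k, (G k : ℝ)) *
        (2 * Y * (F'.Δ : ℝ) ^ 4 / ∏ k, (G' k : ℝ)) =
        (8 * (F.Δ : ℝ) ^ 4 * (F'.Δ : ℝ) ^ 4 * X * Y) /
          ((∏ k, (G k : ℝ)) * ∏ k, (G' k : ℝ)) := by
      field_simp
      ring
    rw [e, div_le_iff₀ (by positivity)]
    calc _ ≤ _ := hK
      _ = _ := by ring
  · -- the derivative
    intro x hx
    obtain ⟨p, hp, rfl⟩ := Finset.mem_image.mp hx
    have hLb : ∀ j, |((F'.L j p.2.1 p.2.2 : ℤ) : ℝ)| ≤ F'.κ * Y :=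
      fun j => F'.L_le (hY p hp).1 (hY p hp).2 j
    have hLb0 : ∀ j, |((F'.L j p₀.2.1 p₀.2.2 : ℤ) : ℝ)| ≤ F'.κ * Y :=
      fun j => F'.L_le (hY p₀ hp₀).1 (hY p₀ hp₀).2 j
    have hGb : ∀ k, (G' k : ℝ) ≤ F'.κ * Y := by
      intro k
      have h1 := Int.le_of_dvd (abs_pos.mpr (hnz p₀ hp₀ (j₀.succAbove k)))
        ((dvd_abs _ _).mpr (hdvd p₀ hp₀ k).2)
      have h2 : (G' k : ℝ) ≤ |((F'.L (j₀.succAbove k) p₀.2.1 p₀.2.2 : ℤ) : ℝ)| := by
        exact_mod_cast h1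
      exact h2.trans (hLb0 _)
    have hκY : 0 ≤ F'.κ * Y := (abs_nonneg _).trans (hLb 0)
    have hM'b : (M' : ℝ) ≤ (F'.κ * Y) ^ 3 := by
      have h1 : (M' : ℝ) ≤ ∏ k, (G' k : ℝ) := by exact_mod_cast hMle'
      refine h1.trans ?_
      calc ∏ k, (G' k : ℝ) ≤ ∏ k : Fin 3, (F'.κ * Y) :=
            Finset.prod_le_prod (fun k _ => by positivity) (fun k _ => hGb k)
        _ = _ := by simp
    have hD'b : ∀ k, |(D' k : ℝ)| ≤ F'.Δ := by
      intro k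
      have h1 := Int.le_of_dvd (by exact_mod_cast F'.pos)
        ((abs_dvd _ _).mpr (F'.dvd _ _ (Fin.succAbove_ne j₀ k)))
      exact_mod_cast h1
    have hβ'b : ∀ k, |(β' k : ℝ)| ≤ (F'.κ * Y) ^ 3 * F'.Δ := by
      intro k
      simp only [β']
      push_cast
      rw [abs_mul, abs_of_pos hMR']
      exact mul_le_mul hM'b (hD'b k) (abs_nonneg _) (by positivity)
    have hn'b : |(n' : ℝ)| ≤ F'.κ * Y := by
      rw [← (hLn p hp).2]; exact hLb j₀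
    have hreal : |(((derivative Q).eval (f' p.2) : ℤ) : ℝ)| ≤ (N : ℝ) ^ r := by
      refine le_trans ?_ hNr
      simp only [Q, cub3_deriv, hval' p hp]
      push_cast
      have hterm : ∀ k k1 k2 : Fin 3, |(β' k : ℝ) * (((F'.L (j₀.succAbove k1) p.2.1 p.2.2 : ℤ) : ℝ) *
          ((F'.L (j₀.succAbove k2) p.2.1 p.2.2 : ℤ) : ℝ))| ≤
          ((F'.κ * Y) ^ 3 * F'.Δ) * ((F'.κ * Y) * (F'.κ * Y)) := by
        intro k k1 k2
        rw [abs_mul, abs_mul]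
        exact mul_le_mul (hβ'b k) (mul_le_mul (hLb _) (hLb _) (abs_nonneg _) hκY) (by positivity)
          (by positivity)
      rw [abs_mul, abs_mul, abs_pow, sq_abs]
      have h3 := (abs_add_le _ _).trans (add_le_add ((abs_add_le _ _).trans
        (add_le_add (hterm 0 1 2) (hterm 1 0 2))) (hterm 2 0 1))
      calc (B : ℝ) ^ 2 * |(n' : ℝ)| * _ ≤ (B : ℝ) ^ 2 * (F'.κ * Y) *
            (((F'.κ * Y) ^ 3 * F'.Δ) * ((F'.κ * Y) * (F'.κ * Y)) +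
            ((F'.κ * Y) ^ 3 * F'.Δ) * ((F'.κ * Y) * (F'.κ * Y)) +
            ((F'.κ * Y) ^ 3 * F'.Δ) * ((F'.κ * Y) * (F'.κ * Y))) := by
            gcongr
        _ = _ := by ring
    exact_mod_cast hreal
  · -- lines
    intro x hx l e hpoly hpt
    obtain ⟨p, hp, rfl⟩ := Finset.mem_image.mp hx
    simp only [h] at hpt
    apply hgr p hp
    have hnQ : (n : ℚ) ≠ 0 := by exact_mod_cast hn
    have hnQ' : (n' : ℚ) ≠ 0 := by exact_mod_cast hn'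
    have hAQ : (A : ℚ) ≠ 0 := by exact_mod_cast hA
    have hBQ : (B : ℚ) ≠ 0 := by exact_mod_cast hB
    have hMQ : (M : ℚ) ≠ 0 := by exact_mod_cast hM0.ne'
    have hMQ' : (M' : ℚ) ≠ 0 := by exact_mod_cast hM0'.ne'
    have habQ : (a : ℚ) * F.p i₀ + b * F.q i₀ = 1 := by exact_mod_cast hab
    have hL0 : (F.p i₀ : ℚ) * p₀.1.1 + F.q i₀ * p₀.1.2 = n := by
      have := (hLn p₀ hp₀).1
      unfold Forms.L at this
      exact_mod_cast this
    have hL0' : (F'.p j₀ : ℚ) * p₀.2.1 + F'.q j₀ * p₀.2.2 = n' := by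
      have := (hLn p₀ hp₀).2
      unfold Forms.L at this
      exact_mod_cast this
    have hLp : (F.p i₀ : ℚ) * p.1.1 + F.q i₀ * p.1.2 = n := by
      have := (hLn p hp).1
      unfold Forms.L at this
      exact_mod_cast this
    obtain ⟨T1x, T1y, T2x, T2y, hvec, hT1, hT2⟩ := vec_identity hnQ hMQ habQ hL0
    have hLk : ∀ k, ((β k : ℤ) : ℚ) = M * (F.p (i₀.succAbove k) * F.q i₀ -
        F.p i₀ * F.q (i₀.succAbove k)) := by
      intro k; simp only [β, D]; push_cast; ring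
    have hLk' : ∀ k, ((β' k : ℤ) : ℚ) = M' * (F'.p (j₀.succAbove k) * F'.q j₀ -
        F'.p j₀ * F'.q (j₀.succAbove k)) := by
      intro k; simp only [β', D']; push_cast; ring
    have hαk : ∀ k, ((α k : ℤ) : ℚ) = F.p (i₀.succAbove k) * p₀.1.1 +
        F.q (i₀.succAbove k) * p₀.1.2 := by
      intro k; simp only [α, Forms.L]; push_cast; ring
    have hαk' : ∀ k, ((α' k : ℤ) : ℚ) = F'.p (j₀.succAbove k) * p₀.2.1 +
        F'.q (j₀.succAbove k) * p₀.2.2 := by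
      intro k; simp only [α', Forms.L]; push_cast; ring
    refine ⟨T1x * p₀.2.1 + (l * T2x + e * T1x) * (M' * F'.q j₀),
      T1y * p₀.2.1 + (l * T2y + e * T1y) * (M' * F'.q j₀),
      T1x * p₀.2.2 - (l * T2x + e * T1x) * (M' * F'.p j₀),
      T1y * p₀.2.2 - (l * T2y + e * T1y) * (M' * F'.p j₀), A / B, div_ne_zero hAQ hBQ, ?_, ?_⟩
    · intro X Y
      set S1 : ℚ := T1x * X + T1y * Y with hS1
      set S2 : ℚ := T2x * X + T2y * Y with hS2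
      have hU : (T1x * p₀.2.1 + (l * T2x + e * T1x) * (M' * F'.q j₀)) * X +
          (T1y * p₀.2.1 + (l * T2y + e * T1y) * (M' * F'.q j₀)) * Y =
          S1 * p₀.2.1 + (l * S2 + e * S1) * (M' * F'.q j₀) := by rw [hS1, hS2]; ring
      have hV : (T1x * p₀.2.2 - (l * T2x + e * T1x) * (M' * F'.p j₀)) * X +
          (T1y * p₀.2.2 - (l * T2y + e * T1y) * (M' * F'.p j₀)) * Y =
          S1 * p₀.2.2 - (l * S2 + e * S1) * (M' * F'.p j₀) := by rw [hS1, hS2]; ring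
      rw [hU, hV]
      obtain ⟨hXe, hYe⟩ := hvec X Y
      rw [← hS1, ← hS2] at hXe hYe
      have hG1 : F.G X Y = n * S1 * ∏ k, ((β k : ℚ) * S2 + α k * S1) := by
        unfold Forms.G
        rw [Fin.prod_univ_succAbove _ i₀]
        congr 1
        · rw [hXe, hYe]
          linear_combination S1 * hL0
        · apply Finset.prod_congr rfl
          intro k _
          rw [hLk, hαk]
          conv_lhs => rw [hXe, hYe]
          ring
      have hG2 : F'.G (S1 * p₀.2.1 + (l * S2 + e * S1) * (M' * F'.q j₀))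
          (S1 * p₀.2.2 - (l * S2 + e * S1) * (M' * F'.p j₀)) =
          n' * S1 * ∏ k, ((β' k : ℚ) * (l * S2 + e * S1) + α' k * S1) := by
        unfold Forms.G
        rw [Fin.prod_univ_succAbove _ j₀]
        congr 1
        · linear_combination S1 * hL0'
        · apply Finset.prod_congr rfl
          intro k _
          rw [hLk', hαk']
          ring
      have hid := hom_identity hpoly S1 S2
      push_cast at hid
      rw [hG1, hG2, div_pow]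
      generalize (∏ k, ((β k : ℚ) * S2 + α k * S1)) = w1 at hid ⊢
      generalize (∏ k, ((β' k : ℚ) * (l * S2 + e * S1) + α' k * S1)) = w2 at hid ⊢
      field_simp
      linear_combination (-S1) * hid
    · obtain ⟨h1, h2⟩ := hpar1 p hp
      obtain ⟨h3, h4⟩ := hpar2 p hp
      have h1Q : (p.1.1 : ℚ) = p₀.1.1 + M * f p.1 * F.q i₀ := by exact_mod_cast h1
      have h2Q : (p.1.2 : ℚ) = p₀.1.2 - M * f p.1 * F.p i₀ := by exact_mod_cast h2
      have h3Q : (p.2.1 : ℚ) = p₀.2.1 + M' * f' p.2 * F'.q j₀ := by exact_mod_cast h3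
      have h4Q : (p.2.2 : ℚ) = p₀.2.2 - M' * f' p.2 * F'.p j₀ := by exact_mod_cast h4
      have e1 : T1x * p.1.1 + T1y * p.1.2 = 1 := by
        rw [hT1, hLp, div_self hnQ]
      have e2 : T2x * p.1.1 + T2y * p.1.2 = f p.1 := by
        rw [h1Q, h2Q]
        exact hT2 _
      have hU : (T1x * p₀.2.1 + (l * T2x + e * T1x) * (M' * F'.q j₀)) * p.1.1 +
          (T1y * p₀.2.1 + (l * T2y + e * T1y) * (M' * F'.q j₀)) * p.1.2 = p.2.1 := by
        rw [h3Q, hpt]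
        linear_combination (p₀.2.1 + e * (M' * F'.q j₀)) * e1 + l * (M' * F'.q j₀) * e2
      have hV : (T1x * p₀.2.2 - (l * T2x + e * T1x) * (M' * F'.p j₀)) * p.1.1 +
          (T1y * p₀.2.2 - (l * T2y + e * T1y) * (M' * F'.p j₀)) * p.1.2 = p.2.2 := by
        rw [h4Q, hpt]
        linear_combination (p₀.2.2 - e * (M' * F'.p j₀)) * e1 - l * (M' * F'.p j₀) * e2
      rw [hU, hV]
      ring

end Pool.Agent.K3N
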