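import Mathlib.Algebra.Polynomial.Identities
import Mathlib.Algebra.Polynomial.Roots
import Mathlib.Data.ZMod.Basic
import Mathlib.Data.Real.Basic
import Mathlib.NumberTheory.Bertrand
import Mathlib.Algebra.Field.ZMod
import Mathlib.Tactic

/-!
Counting integer points in a box on a plane curve `P(t) = Q(u)` with `P, Q` cubics, outside the
lines contained in the curve, by three-point determinants.
-/

namespace Pool.Agent.K3N

open Polynomial

lemma cross_dvd {P Q : ℤ[X]} {q : ℕ} (hq : q.Prime) {t1 t2 t3 u1 u2 u3 : ℤ}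
    (h1 : P.eval t1 = Q.eval u1) (h2 : P.eval t2 = Q.eval u2) (h3 : P.eval t3 = Q.eval u3)
    (ht2 : (q : ℤ) ∣ t2 - t1) (ht3 : (q : ℤ) ∣ t3 - t1) (hu2 : (q : ℤ) ∣ u2 - u1)
    (hu3 : (q : ℤ) ∣ u3 - u1) (hns : ¬ (q : ℤ) ∣ Q.derivative.eval u1) :
    (q : ℤ) ^ 3 ∣ (t2 - t1) * (u3 - u1) - (t3 - t1) * (u2 - u1) := by
  have hq0 : (q : ℤ) ≠ 0 := by exact_mod_cast hq.ne_zero
  obtain ⟨k2, hk2⟩ := ht2
  obtain ⟨k3, hk3⟩ := ht3
  obtain ⟨l2, hl2⟩ := hu2
  obtain ⟨l3, hl3⟩ := hu3
  have key : ∀ (t u k l : ℤ), t - t1 = q * k → u - u1 = q * l → P.eval t = Q.eval u →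
      (q : ℤ) ∣ P.derivative.eval t1 * k - Q.derivative.eval u1 * l := by
    intro t u k l ht hu h
    obtain ⟨c, hc⟩ := P.binomExpansion t1 (q * k)
    obtain ⟨d, hd⟩ := Q.binomExpansion u1 (q * l)
    rw [show t1 + q * k = t by linarith] at hc
    rw [show u1 + q * l = u by linarith] at hd
    refine ⟨d * l ^ 2 - c * k ^ 2, ?_⟩
    apply mul_left_cancel₀ hq0
    have : P.derivative.eval t1 * (q * k) + c * (q * k) ^ 2 =
        Q.derivative.eval u1 * (q * l) + d * (q * l) ^ 2 := by linarith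
    linear_combination this
  obtain ⟨e2, he2⟩ := key t2 u2 k2 l2 hk2 hl2 h2
  obtain ⟨e3, he3⟩ := key t3 u3 k3 l3 hk3 hl3 h3
  have h4 : (q : ℤ) ∣ Q.derivative.eval u1 * (k2 * l3 - k3 * l2) := by
    refine ⟨k3 * e2 - k2 * e3, ?_⟩
    linear_combination k3 * he2 - k2 * he3
  have hqp : Prime (q : ℤ) := Nat.prime_iff_prime_int.mp hq
  obtain ⟨m, hm⟩ := (hqp.dvd_or_dvd h4).resolve_left hns
  refine ⟨m, ?_⟩
  rw [hk2, hk3, hl2, hl3]
  linear_combination (q : ℤ) ^ 2 * hm

lemma card_le_of_roots {F : Type*} [CommRing F] [IsDomain F] [DecidableEq F] {R : F[X]}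
    (hR : R ≠ 0) (hd : R.natDegree ≤ 3) (T : Finset F) (hT : ∀ t ∈ T, R.eval t = 0) :
    T.card ≤ 3 := by
  have h1 : T ⊆ R.roots.toFinset := by
    intro t ht
    rw [Multiset.mem_toFinset, mem_roots hR]
    exact hT t ht
  calc T.card ≤ R.roots.toFinset.card := Finset.card_le_card h1
    _ ≤ R.roots.card := Multiset.toFinset_card_le _
    _ ≤ R.natDegree := R.card_roots'
    _ ≤ 3 := hd

lemma class_card_le {P Q : ℤ[X]} (hP : P.natDegree ≤ 3) (hQ : Q.natDegree ≤ 3) {q : ℕ}
    (hq : q.Prime) (S : Finset (ℤ × ℤ)) (hS : ∀ p ∈ S, P.eval p.1 = Q.eval p.2)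
    (hns : ∀ p ∈ S, ¬ (q : ℤ) ∣ Q.derivative.eval p.2)
    (hcl : ∀ p ∈ S, ∀ p' ∈ S, (q : ℤ) ∣ p'.1 - p.1 ∧ (q : ℤ) ∣ p'.2 - p.2)
    (hdet : ∀ p ∈ S, ∀ p' ∈ S, ∀ p'' ∈ S,
      |(p'.1 - p.1) * (p''.2 - p.2) - (p''.1 - p.1) * (p'.2 - p.2)| < (q : ℤ) ^ 3)
    (hline : ∀ p ∈ S, ∀ c e : ℚ, P.map (Int.castRingHom ℚ) =
      (Q.map (Int.castRingHom ℚ)).comp (C c * X + C e) → (p.2 : ℚ) ≠ c * p.1 + e) :
    S.card ≤ 3 := by
  classical
  by_contra hcard
  push Not at hcard
  have hzero : ∀ p ∈ S, ∀ p' ∈ S, ∀ p'' ∈ S,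
      (p'.1 - p.1) * (p''.2 - p.2) - (p''.1 - p.1) * (p'.2 - p.2) = 0 := by
    intro p hp p' hp' p'' hp''
    apply Int.eq_zero_of_abs_lt_dvd (m := (q : ℤ) ^ 3) _ (hdet p hp p' hp' p'' hp'')
    exact cross_dvd hq (hS p hp) (hS p' hp') (hS p'' hp'') (hcl p hp p' hp').1
      (hcl p hp p'' hp'').1 (hcl p hp p' hp').2 (hcl p hp p'' hp'').2 (hns p hp)
  obtain ⟨p1, hp1, p2, hp2, hne⟩ := Finset.one_lt_card.mp (show 1 < S.card by omega)
  by_cases ht : p1.1 = p2.1
  · -- vertical line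
    have hu : p2.2 - p1.2 ≠ 0 := by
      intro h
      exact hne (Prod.ext ht (by linarith))
    have hall : ∀ p ∈ S, p.1 = p1.1 := by
      intro p hp
      have := hzero p1 hp1 p2 hp2 p hp
      rw [← ht, sub_self, zero_mul, zero_sub, neg_eq_zero] at this
      have := (mul_eq_zero.mp this).resolve_right hu
      linarith
    have hR : Q - C (P.eval p1.1) ≠ 0 := by
      intro h
      apply hns p1 hp1
      have h2 : derivative (Q - C (P.eval p1.1)) = 0 := by rw [h, derivative_zero]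
      rw [derivative_sub, derivative_C, sub_zero] at h2
      rw [h2]
      simp
    have hcard2 : (S.image Prod.snd).card = S.card := by
      apply Finset.card_image_of_injOn
      intro a ha b hb hab
      exact Prod.ext ((hall a ha).trans (hall b hb).symm) hab
    have := card_le_of_roots hR ((natDegree_sub_le _ _).trans (by simp [hQ])) (S.image Prod.snd)
      (by
        intro u hu
        obtain ⟨p, hp, rfl⟩ := Finset.mem_image.mp hu
        rw [eval_sub, eval_C, ← hS p hp, hall p hp, sub_self])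
    omega
  · have htq : ((p2.1 : ℚ) - p1.1) ≠ 0 := by
      intro h
      apply ht
      have : (p1.1 : ℚ) = p2.1 := by linarith
      exact_mod_cast this
    set c : ℚ := ((p2.2 : ℚ) - p1.2) / ((p2.1 : ℚ) - p1.1) with hc
    set e : ℚ := p1.2 - c * p1.1 with he
    have hall : ∀ p ∈ S, (p.2 : ℚ) = c * p.1 + e := by
      intro p hp
      have h0 := hzero p1 hp1 p2 hp2 p hp
      have h1 : ((p2.1 : ℚ) - p1.1) * (p.2 - p1.2) - (p.1 - p1.1) * (p2.2 - p1.2) = 0 := by
        exact_mod_cast h0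
      rw [he, hc]
      field_simp
      linear_combination h1
    set R : ℚ[X] := P.map (Int.castRingHom ℚ) -
      (Q.map (Int.castRingHom ℚ)).comp (C c * X + C e) with hR
    have hR0 : R ≠ 0 := by
      intro h
      exact hline p1 hp1 c e (sub_eq_zero.mp h) (hall p1 hp1)
    have hdeg : R.natDegree ≤ 3 := by
      refine (natDegree_sub_le _ _).trans (max_le ?_ ?_)
      · exact natDegree_map_le.trans hP
      · refine natDegree_comp_le.trans ?_
        have h1 : (Q.map (Int.castRingHom ℚ)).natDegree ≤ 3 := natDegree_map_le.trans hQ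
        have h2 : (C c * X + C e).natDegree ≤ 1 := natDegree_linear_le
        nlinarith
    have hcard2 : (S.image (fun p : ℤ × ℤ => (p.1 : ℚ))).card = S.card := by
      apply Finset.card_image_of_injOn
      intro a ha b hb hab
      have h1 : (a.1 : ℚ) = b.1 := hab
      have h2 : (a.2 : ℚ) = b.2 := by rw [hall a ha, hall b hb, h1]
      exact Prod.ext (by exact_mod_cast h1) (by exact_mod_cast h2)
    have := card_le_of_roots hR0 hdeg (S.image (fun p : ℤ × ℤ => (p.1 : ℚ)))
      (by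
        intro t ht'
        obtain ⟨p, hp, rfl⟩ := Finset.mem_image.mp ht'
        have h1 := hS p hp
        rw [hR, eval_sub, eval_comp]
        simp only [eval_add, eval_mul, eval_C, eval_X]
        rw [← hall p hp, eval_intCast_map, eval_intCast_map, Int.cast_id, Int.cast_id, h1]
        simp)
    omega

lemma prime_count {P Q : ℤ[X]} (hP : P.natDegree ≤ 3) (hQ : Q.natDegree ≤ 3) {q : ℕ}
    (hq : q.Prime) (S : Finset (ℤ × ℤ)) (hS : ∀ p ∈ S, P.eval p.1 = Q.eval p.2)
    (hns : ∀ p ∈ S, ¬ (q : ℤ) ∣ Q.derivative.eval p.2)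
    (hdet : ∀ p ∈ S, ∀ p' ∈ S, ∀ p'' ∈ S,
      |(p'.1 - p.1) * (p''.2 - p.2) - (p''.1 - p.1) * (p'.2 - p.2)| < (q : ℤ) ^ 3)
    (hline : ∀ p ∈ S, ∀ c e : ℚ, P.map (Int.castRingHom ℚ) =
      (Q.map (Int.castRingHom ℚ)).comp (C c * X + C e) → (p.2 : ℚ) ≠ c * p.1 + e) :
    S.card ≤ 9 * q := by
  classical
  have : Fact q.Prime := ⟨hq⟩
  let f : ℤ × ℤ → ZMod q × ZMod q := fun p => ((p.1 : ZMod q), (p.2 : ZMod q))
  have h1 : S.card ≤ 3 * (S.image f).card := by
    apply Finset.card_le_mul_card_image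
    intro b hb
    apply class_card_le hP hQ hq
    · intro p hp
      exact hS p (Finset.mem_filter.mp hp).1
    · intro p hp
      exact hns p (Finset.mem_filter.mp hp).1
    · intro p hp p' hp'
      have h1 := (Finset.mem_filter.mp hp).2
      have h2 := (Finset.mem_filter.mp hp').2
      rw [← h1] at h2
      simp only [f, Prod.mk.injEq] at h2
      constructor
      · rw [← ZMod.intCast_eq_intCast_iff_dvd_sub]
        exact h2.1.symm
      · rw [← ZMod.intCast_eq_intCast_iff_dvd_sub]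
        exact h2.2.symm
    · intro p hp p' hp' p'' hp''
      exact hdet p (Finset.mem_filter.mp hp).1 p' (Finset.mem_filter.mp hp').1 p''
        (Finset.mem_filter.mp hp'').1
    · intro p hp
      exact hline p (Finset.mem_filter.mp hp).1
  have h2 : (S.image f).card ≤ 3 * ((S.image f).image Prod.fst).card := by
    apply Finset.card_le_mul_card_image
    intro t ht
    have hinj : (((S.image f).filter (fun x => x.1 = t)).image Prod.snd).card =
        ((S.image f).filter (fun x => x.1 = t)).card := by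
      apply Finset.card_image_of_injOn
      intro a ha b hb hab
      rw [Finset.coe_filter] at ha hb
      exact Prod.ext (ha.2.trans hb.2.symm) hab
    rw [← hinj]
    by_cases hemp : ((S.image f).filter (fun x => x.1 = t)) = ∅
    · rw [hemp]; simp
    obtain ⟨x0, hx0⟩ := Finset.nonempty_iff_ne_empty.mpr hemp
    have hval : ∀ x ∈ (S.image f).filter (fun x => x.1 = t),
        (Q.map (Int.castRingHom (ZMod q))).eval x.2 =
          (P.map (Int.castRingHom (ZMod q))).eval t ∧
        (derivative (Q.map (Int.castRingHom (ZMod q)))).eval x.2 ≠ 0 := by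
      intro x hx
      obtain ⟨hx1, hx2⟩ := Finset.mem_filter.mp hx
      obtain ⟨p, hp, hpx⟩ := Finset.mem_image.mp hx1
      simp only [f] at hpx
      rw [← hpx] at hx2 ⊢
      simp only at hx2 ⊢
      rw [← hx2]
      refine ⟨?_, ?_⟩
      · rw [eval_intCast_map, eval_intCast_map, Int.cast_id, Int.cast_id, hS p hp]
      · rw [derivative_map, eval_intCast_map, Int.cast_id]
        intro h
        apply hns p hp
        rw [← ZMod.intCast_zmod_eq_zero_iff_dvd]
        simpa using h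
    have hR : Q.map (Int.castRingHom (ZMod q)) -
        C ((P.map (Int.castRingHom (ZMod q))).eval t) ≠ 0 := by
      intro h
      apply (hval x0 hx0).2
      have h2 : derivative (Q.map (Int.castRingHom (ZMod q)) -
        C ((P.map (Int.castRingHom (ZMod q))).eval t)) = 0 := by rw [h, derivative_zero]
      rw [derivative_sub, derivative_C, sub_zero] at h2
      rw [h2]
      simp
    apply card_le_of_roots hR
    · refine (natDegree_sub_le _ _).trans ?_
      rw [natDegree_C]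
      simp only [Nat.max_zero]
      exact natDegree_map_le.trans hQ
    · intro u hu
      obtain ⟨x, hx, rfl⟩ := Finset.mem_image.mp hu
      rw [eval_sub, eval_C, (hval x hx).1, sub_self]
  have h3 : ((S.image f).image Prod.fst).card ≤ q := by
    calc _ ≤ (Finset.univ : Finset (ZMod q)).card := Finset.card_le_card (Finset.subset_univ _)
      _ = q := by rw [Finset.card_univ, ZMod.card]
  omega

lemma exists_primes (N : ℕ) (hN : 1 ≤ N) (r : ℕ) :
    ∃ T : Finset ℕ, T.card = r ∧ ∀ q ∈ T, q.Prime ∧ N < q ∧ q ≤ 2 ^ r * N := by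
  induction r with
  | zero => exact ⟨∅, by simp, by simp⟩
  | succ r ih =>
    obtain ⟨T, hT, h⟩ := ih
    obtain ⟨p, hp, hlt, hle⟩ := Nat.exists_prime_lt_and_le_two_mul (2 ^ r * N)
      (by positivity)
    refine ⟨insert p T, ?_, ?_⟩
    · rw [Finset.card_insert_of_notMem, hT]
      intro hpT
      have := (h p hpT).2.2
      omega
    · intro q hq
      have hpow : 2 ^ (r + 1) * N = 2 * (2 ^ r * N) := by ring
      rw [Finset.mem_insert] at hq
      rcases hq with rfl | hq
      · refine ⟨hp, lt_of_le_of_lt ?_ hlt, by rw [hpow]; exact hle⟩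
        exact Nat.le_mul_of_pos_left N (by positivity)
      · obtain ⟨h1, h2, h3⟩ := h q hq
        exact ⟨h1, h2, h3.trans (by rw [hpow]; omega)⟩

theorem curve_count_ns (r : ℕ) {P Q : ℤ[X]} (hP : P.natDegree ≤ 3) (hQ : Q.natDegree ≤ 3)
    (N : ℕ) (hN : 1 ≤ N) (S : Finset (ℤ × ℤ)) (K1 K2 : ℝ)
    (hS : ∀ p ∈ S, P.eval p.1 = Q.eval p.2)
    (hK1 : ∀ p ∈ S, ∀ p' ∈ S, |(p'.1 : ℝ) - p.1| ≤ K1)
    (hK2 : ∀ p ∈ S, ∀ p' ∈ S, |(p'.2 : ℝ) - p.2| ≤ K2)
    (hK : 2 * K1 * K2 ≤ (N : ℝ) ^ 3)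
    (hd : ∀ p ∈ S, Q.derivative.eval p.2 ≠ 0 ∧ |Q.derivative.eval p.2| ≤ (N : ℤ) ^ r)
    (hline : ∀ p ∈ S, ∀ c e : ℚ, P.map (Int.castRingHom ℚ) =
      (Q.map (Int.castRingHom ℚ)).comp (C c * X + C e) → (p.2 : ℚ) ≠ c * p.1 + e) :
    S.card ≤ 9 * ((r + 1) * (2 ^ (r + 1) * N)) := by
  classical
  obtain ⟨T, hT, h⟩ := exists_primes N hN (r + 1)
  have hcov : S ⊆ T.biUnion (fun q => S.filter (fun p => ¬ (q : ℤ) ∣ Q.derivative.eval p.2)) := by
    intro p hp
    rw [Finset.mem_biUnion]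
    by_contra hno
    push Not at hno
    have hall : ∀ q ∈ T, (q : ℤ) ∣ Q.derivative.eval p.2 := by
      intro q hq
      by_contra hnd
      exact hno q hq (Finset.mem_filter.mpr ⟨hp, hnd⟩)
    obtain ⟨h0, hle⟩ := hd p hp
    have hdvd : ((∏ q ∈ T, q : ℕ) : ℤ) ∣ Q.derivative.eval p.2 := by
      rw [Int.natCast_dvd]
      apply Finset.prod_primes_dvd
      · intro q hq
        exact (h q hq).1.prime
      · intro q hq
        rw [← Int.natCast_dvd]
        exact hall q hq
    have h1 : ((∏ q ∈ T, q : ℕ) : ℤ) ≤ |Q.derivative.eval p.2| :=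
      Int.le_of_dvd (abs_pos.mpr h0) ((dvd_abs _ _).mpr hdvd)
    have h2 : (N + 1) ^ (r + 1) ≤ ∏ q ∈ T, q := by
      rw [← hT, ← Finset.prod_const]
      apply Finset.prod_le_prod'
      intro q hq
      exact (h q hq).2.1
    have h3 : N ^ r < (N + 1) ^ (r + 1) := by
      calc N ^ r ≤ (N + 1) ^ r := Nat.pow_le_pow_left (by omega) r
        _ < (N + 1) ^ (r + 1) := Nat.pow_lt_pow_right (by omega) (by omega)
    have h4 : ((N : ℤ)) ^ r < ((∏ q ∈ T, q : ℕ) : ℤ) := by exact_mod_cast lt_of_lt_of_le h3 h2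
    linarith
  have hone : ∀ q ∈ T, (S.filter (fun p => ¬ (q : ℤ) ∣ Q.derivative.eval p.2)).card ≤
      9 * (2 ^ (r + 1) * N) := by
    intro q hq
    obtain ⟨hqp, hlt, hle⟩ := h q hq
    refine (prime_count hP hQ hqp _ ?_ ?_ ?_ ?_).trans (Nat.mul_le_mul_left 9 hle)
    · intro p hp
      exact hS p (Finset.mem_filter.mp hp).1
    · intro p hp
      exact (Finset.mem_filter.mp hp).2
    · intro p hp p' hp' p'' hp''
      have g1 := hK1 p (Finset.mem_filter.mp hp).1 p' (Finset.mem_filter.mp hp').1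
      have g2 := hK2 p (Finset.mem_filter.mp hp).1 p'' (Finset.mem_filter.mp hp'').1
      have g3 := hK1 p (Finset.mem_filter.mp hp).1 p'' (Finset.mem_filter.mp hp'').1
      have g4 := hK2 p (Finset.mem_filter.mp hp).1 p' (Finset.mem_filter.mp hp').1
      have hreal : |((p'.1 : ℝ) - p.1) * (p''.2 - p.2) - (p''.1 - p.1) * (p'.2 - p.2)| ≤
          2 * K1 * K2 := by
        refine (abs_sub _ _).trans ?_
        rw [abs_mul, abs_mul]
        have e1 := mul_le_mul g1 g2 (abs_nonneg _) ((abs_nonneg _).trans g1)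
        have e2 := mul_le_mul g3 g4 (abs_nonneg _) ((abs_nonneg _).trans g3)
        linarith
      have h5 : (N : ℝ) ^ 3 < (q : ℝ) ^ 3 := by
        apply pow_lt_pow_left₀ _ (by positivity) (by norm_num)
        exact_mod_cast hlt
      have h6 : |((p'.1 : ℝ) - p.1) * (p''.2 - p.2) - (p''.1 - p.1) * (p'.2 - p.2)| <
          (q : ℝ) ^ 3 := by linarith
      exact_mod_cast h6
    · intro p hp
      exact hline p (Finset.mem_filter.mp hp).1
  calc S.card ≤ _ := Finset.card_le_card hcov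
    _ ≤ ∑ q ∈ T, (S.filter (fun p => ¬ (q : ℤ) ∣ Q.derivative.eval p.2)).card :=
        Finset.card_biUnion_le
    _ ≤ ∑ q ∈ T, 9 * (2 ^ (r + 1) * N) := Finset.sum_le_sum hone
    _ = _ := by rw [Finset.sum_const, hT, smul_eq_mul]; ring

/-- Integer points on `P(t) = Q(u)`. -/
theorem curve_count (r : ℕ) {P Q : ℤ[X]} (hP : P.natDegree = 3) (hQ : Q.natDegree = 3)
    (N : ℕ) (hN : 1 ≤ N) (S : Finset (ℤ × ℤ)) (K1 K2 : ℝ)
    (hS : ∀ p ∈ S, P.eval p.1 = Q.eval p.2)
    (hK1 : ∀ p ∈ S, ∀ p' ∈ S, |(p'.1 : ℝ) - p.1| ≤ K1)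
    (hK2 : ∀ p ∈ S, ∀ p' ∈ S, |(p'.2 : ℝ) - p.2| ≤ K2)
    (hK : 2 * K1 * K2 ≤ (N : ℝ) ^ 3)
    (hd : ∀ p ∈ S, |Q.derivative.eval p.2| ≤ (N : ℤ) ^ r)
    (hline : ∀ p ∈ S, ∀ c e : ℚ, P.map (Int.castRingHom ℚ) =
      (Q.map (Int.castRingHom ℚ)).comp (C c * X + C e) → (p.2 : ℚ) ≠ c * p.1 + e) :
    S.card ≤ 9 * ((r + 1) * (2 ^ (r + 1) * N)) + 9 := by
  classical
  have h1 : (S.filter (fun p => Q.derivative.eval p.2 ≠ 0)).card ≤
      9 * ((r + 1) * (2 ^ (r + 1) * N)) := by
    apply curve_count_ns r hP.le hQ.le N hN _ K1 K2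
    · intro p hp
      exact hS p (Finset.mem_filter.mp hp).1
    · intro p hp p' hp'
      exact hK1 p (Finset.mem_filter.mp hp).1 p' (Finset.mem_filter.mp hp').1
    · intro p hp p' hp'
      exact hK2 p (Finset.mem_filter.mp hp).1 p' (Finset.mem_filter.mp hp').1
    · exact hK
    · intro p hp
      exact ⟨(Finset.mem_filter.mp hp).2, hd p (Finset.mem_filter.mp hp).1⟩
    · intro p hp
      exact hline p (Finset.mem_filter.mp hp).1
  have h2 : (S.filter (fun p => ¬ Q.derivative.eval p.2 ≠ 0)).card ≤ 9 := by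
    set S0 := S.filter (fun p => ¬ Q.derivative.eval p.2 ≠ 0) with hS0
    have h3 : S0.card ≤ 3 * (S0.image Prod.snd).card := by
      apply Finset.card_le_mul_card_image
      intro u _
      have hinj : ((S0.filter (fun x => x.2 = u)).image Prod.fst).card =
          (S0.filter (fun x => x.2 = u)).card := by
        apply Finset.card_image_of_injOn
        intro a ha b hb hab
        rw [Finset.coe_filter] at ha hb
        exact Prod.ext hab (ha.2.trans hb.2.symm)
      rw [← hinj]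
      have hR : P - C (Q.eval u) ≠ 0 := by
        intro h
        rw [sub_eq_zero] at h
        rw [h, natDegree_C] at hP
        omega
      apply card_le_of_roots hR
      · refine (natDegree_sub_le _ _).trans ?_
        rw [natDegree_C]
        simp [hP]
      · intro t ht
        obtain ⟨x, hx, rfl⟩ := Finset.mem_image.mp ht
        obtain ⟨hx1, hx2⟩ := Finset.mem_filter.mp hx
        rw [eval_sub, eval_C, hS x (Finset.mem_filter.mp hx1).1, hx2, sub_self]
    have h4 : (S0.image Prod.snd).card ≤ 3 := by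
      have hR : derivative Q ≠ 0 := by
        intro h
        have := derivative_eq_zero.mp h
        omega
      apply card_le_of_roots hR
      · exact (natDegree_derivative_le _).trans (by omega)
      · intro u hu
        obtain ⟨x, hx, rfl⟩ := Finset.mem_image.mp hu
        have := (Finset.mem_filter.mp hx).2
        push Not at this
        exact this
    omega
  have h3 := Finset.card_filter_add_card_filter_not (s := S)
    (fun p => Q.derivative.eval p.2 ≠ 0)
  omega

end Pool.Agent.K3N
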