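import Pool.Agent.K3N.Forms
import Pool.Agent.K3N.Div
import Mathlib.Analysis.PSeries

/-!
Counting integer vectors at which one of the forms has a large square factor.
-/

namespace Pool.Agent.K3N

open Finset

/-- Covering a finite set by classes. -/
lemma card_le_sum_of_exists {α β : Type*} (s : Finset α) (t : Finset β) (R : β → α → Prop)
    [∀ y, DecidablePred (R y)] (h : ∀ x ∈ s, ∃ y ∈ t, R y x) (g : β → ℝ)
    (hg : ∀ y ∈ t, ((s.filter (R y)).card : ℝ) ≤ g y) : (s.card : ℝ) ≤ ∑ y ∈ t, g y := by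
  classical
  have h1 : s ⊆ t.biUnion (fun y => s.filter (R y)) := by
    intro x hx
    obtain ⟨y, hy, hR⟩ := h x hx
    exact mem_biUnion.mpr ⟨y, hy, mem_filter.mpr ⟨hx, hR⟩⟩
  calc (s.card : ℝ) ≤ ((t.biUnion (fun y => s.filter (R y))).card : ℝ) := by
        exact_mod_cast card_le_card h1
    _ ≤ ∑ y ∈ t, ((s.filter (R y)).card : ℝ) := by exact_mod_cast card_biUnion_le
    _ ≤ _ := sum_le_sum hg

lemma sqful_nat (N b : ℕ) (hb : 1 ≤ b) (T : Finset ℕ)
    (hT : ∀ n ∈ T, n ≠ 0 ∧ n ≤ N ∧ b ≤ sq n) : (T.card : ℝ) ≤ 2 * N / b := by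
  classical
  have h1 := card_le_sum_of_exists T (Finset.Ioo (b - 1) (N + 1)) (fun c n => sq n = c)
    (by
      intro n hn
      obtain ⟨h0, hN, hbs⟩ := hT n hn
      refine ⟨sq n, ?_, rfl⟩
      rw [mem_Ioo]
      refine ⟨by omega, ?_⟩
      have h2 : sq n ∣ n := ⟨sq n * sf n, by
        conv_lhs => rw [← sq_sf n]
        ring⟩
      have := Nat.le_of_dvd (Nat.pos_of_ne_zero h0) h2
      omega)
    (fun c => (N : ℝ) * ((c : ℝ) ^ 2)⁻¹)
    (by
      intro c hc
      rw [mem_Ioo] at hc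
      have hc0 : 0 < c := by omega
      have hcR : (0 : ℝ) < c := by exact_mod_cast hc0
      have hinj : (T.filter (fun n => sq n = c)).card ≤ (Finset.Icc 1 (N / c ^ 2)).card := by
        apply Finset.card_le_card_of_injOn sf
        · intro n hn
          rw [Finset.mem_coe, mem_filter] at hn
          obtain ⟨hn1, hn2⟩ := hn
          obtain ⟨h0, hN, hbs⟩ := hT n hn1
          rw [Finset.mem_coe, mem_Icc]
          refine ⟨sf_pos n, ?_⟩
          rw [Nat.le_div_iff_mul_le (by positivity), ← hn2, mul_comm, sq_sf]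
          exact hN
        · intro n hn n' hn' heq
          rw [Finset.mem_coe, mem_filter] at hn hn'
          rw [← sq_sf n, ← sq_sf n', hn.2, hn'.2, heq]
      rw [Nat.card_Icc, Nat.add_sub_cancel] at hinj
      calc ((T.filter (fun n => sq n = c)).card : ℝ) ≤ ((N / c ^ 2 : ℕ) : ℝ) := by
            exact_mod_cast hinj
        _ ≤ (N : ℝ) / ((c ^ 2 : ℕ) : ℝ) := Nat.cast_div_le
        _ = _ := by push_cast; rw [div_eq_mul_inv])
  rw [← Finset.mul_sum] at h1
  have h2 := sum_Ioo_inv_sq_le (α := ℝ) (b - 1) (N + 1)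
  have h3 : ((b - 1 : ℕ) : ℝ) + 1 = b := by
    rw [Nat.cast_sub hb]; push_cast; ring
  rw [h3] at h2
  calc (T.card : ℝ) ≤ _ := h1
    _ ≤ N * (2 / b) := by gcongr
    _ = _ := by ring

theorem sqful_count (F : Forms) : ∃ C : ℝ, 0 ≤ C ∧ ∀ X : ℝ, 1 ≤ X → ∀ b : ℕ, 1 ≤ b →
    ∀ S : Finset (ℤ × ℤ), (∀ p ∈ S, |(p.1 : ℝ)| ≤ X ∧ |(p.2 : ℝ)| ≤ X ∧
      ∃ i, F.L i p.1 p.2 ≠ 0 ∧ b ≤ sq (F.L i p.1 p.2).natAbs) → (S.card : ℝ) ≤ C * X ^ 2 / b := by
  classical
  choose a c hac using F.cop
  set m : ℝ := ∑ i, (|(a i : ℝ)| + |(c i : ℝ)|) with hm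
  have hm0 : 0 ≤ m := Finset.sum_nonneg (fun i _ => by positivity)
  have hmi : ∀ i, |(a i : ℝ)| + |(c i : ℝ)| ≤ m := fun i =>
    Finset.single_le_sum (f := fun i => |(a i : ℝ)| + |(c i : ℝ)|)
      (fun i _ => by positivity) (Finset.mem_univ i)
  refine ⟨4 * ((2 * m + 3) * (4 * F.κ)), by positivity, ?_⟩
  intro X hX b hb S hS
  have hbR : (0 : ℝ) < b := by exact_mod_cast hb
  have h1 := card_le_sum_of_exists S (Finset.univ : Finset (Fin 4))
    (fun i p => F.L i p.1 p.2 ≠ 0 ∧ b ≤ sq (F.L i p.1 p.2).natAbs)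
    (fun p hp => by
      obtain ⟨_, _, i, hi⟩ := hS p hp
      exact ⟨i, Finset.mem_univ i, hi⟩)
    (fun _ => ((2 * m + 3) * (4 * F.κ)) * X ^ 2 / b)
    (by
      intro i _
      set Si := S.filter (fun p => F.L i p.1 p.2 ≠ 0 ∧ b ≤ sq (F.L i p.1 p.2).natAbs) with hSi
      -- the values of the form
      set T := Si.image (fun p => (F.L i p.1 p.2).natAbs) with hT
      have hTc := sqful_nat ⌊F.κ * X⌋₊ b hb T (by
        intro n hn
        obtain ⟨p, hp, rfl⟩ := Finset.mem_image.mp hn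
        obtain ⟨hp1, hp2, hp3⟩ := Finset.mem_filter.mp hp
        obtain ⟨hx1, hx2, _⟩ := hS p hp1
        refine ⟨by simpa using hp2, ?_, hp3⟩
        apply Nat.le_floor
        have := F.L_le hx1 hx2 i
        rw [Nat.cast_natAbs]
        exact_mod_cast this)
      have hfib : Si.card ≤ (2 * ⌊m * X⌋₊ + 1) * 2 * T.card := by
        rw [hT]
        apply Finset.card_le_mul_card_image
        intro n _
        have hinj : ((Si.filter (fun p => (F.L i p.1 p.2).natAbs = n)).image
            (fun p => (c i * p.1 - a i * p.2, F.L i p.1 p.2))).card =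
            (Si.filter (fun p => (F.L i p.1 p.2).natAbs = n)).card := by
          apply Finset.card_image_of_injOn
          intro p _ p' _ heq
          simp only [Prod.mk.injEq] at heq
          obtain ⟨e1, e2⟩ := heq
          have e3 : F.L i (p.1 - p'.1) (p.2 - p'.2) = 0 := by rw [F.L_sub, e2, sub_self]
          obtain ⟨g1, g2⟩ := F.line_diff i (hac i) e3
          have e4 : c i * (p.1 - p'.1) - a i * (p.2 - p'.2) = 0 := by linarith
          rw [e4] at g1 g2
          exact Prod.ext (by linarith) (by linarith)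
        rw [← hinj]
        have hsub : ((Si.filter (fun p => (F.L i p.1 p.2).natAbs = n)).image
            (fun p => (c i * p.1 - a i * p.2, F.L i p.1 p.2))) ⊆
            (Finset.Icc (-(⌊m * X⌋₊ : ℤ)) ⌊m * X⌋₊) ×ˢ ({(n : ℤ), -(n : ℤ)} : Finset ℤ) := by
          intro y hy
          obtain ⟨p, hp, rfl⟩ := Finset.mem_image.mp hy
          obtain ⟨hp1, hp2⟩ := Finset.mem_filter.mp hp
          obtain ⟨hx1, hx2, _⟩ := hS p (Finset.mem_filter.mp hp1).1
          rw [Finset.mem_product]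
          refine ⟨?_, ?_⟩
          · have hb1 : |((c i * p.1 - a i * p.2 : ℤ) : ℝ)| ≤ m * X := by
              push_cast
              refine (abs_sub _ _).trans ?_
              rw [abs_mul, abs_mul]
              calc |(c i : ℝ)| * |(p.1 : ℝ)| + |(a i : ℝ)| * |(p.2 : ℝ)| ≤
                    |(c i : ℝ)| * X + |(a i : ℝ)| * X := by gcongr
                _ = (|(a i : ℝ)| + |(c i : ℝ)|) * X := by ring
                _ ≤ m * X := by gcongr; exact hmi i
            have hb2 : (c i * p.1 - a i * p.2).natAbs ≤ ⌊m * X⌋₊ := by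
              apply Nat.le_floor
              rw [Nat.cast_natAbs]
              exact_mod_cast hb1
            rw [Finset.mem_Icc]
            omega
          · simp only [Finset.mem_insert, Finset.mem_singleton]
            omega
        refine (Finset.card_le_card hsub).trans ?_
        rw [Finset.card_product, Int.card_Icc]
        have h2 : ({(n : ℤ), -(n : ℤ)} : Finset ℤ).card ≤ 2 := Finset.card_le_two
        have h3 : ((⌊m * X⌋₊ : ℤ) + 1 - -(⌊m * X⌋₊ : ℤ)).toNat = 2 * ⌊m * X⌋₊ + 1 := by omega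
        rw [h3]
        exact Nat.mul_le_mul_left _ h2
      have hfl1 : ((⌊m * X⌋₊ : ℕ) : ℝ) ≤ m * X := Nat.floor_le (by positivity)
      have hfl2 : ((⌊F.κ * X⌋₊ : ℕ) : ℝ) ≤ F.κ * X := Nat.floor_le (by positivity)
      calc (Si.card : ℝ) ≤ (2 * (⌊m * X⌋₊ : ℕ) + 1) * 2 * T.card := by exact_mod_cast hfib
        _ ≤ (2 * (m * X) + 1) * 2 * (2 * (F.κ * X) / b) := by
            gcongr
            exact hTc.trans (by gcongr)
        _ ≤ ((2 * m + 3) * X) * 2 * (2 * (F.κ * X) / b) := by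
            gcongr
            nlinarith
        _ = _ := by ring)
  rw [Finset.sum_const, Finset.card_univ, Fintype.card_fin] at h1
  refine h1.trans (le_of_eq ?_)
  rw [nsmul_eq_mul]
  push_cast
  ring

end Pool.Agent.K3N
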