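import Pool.Agent.K3N.Class
import Pool.Agent.K3N.Sqful

/-!
The data attached to a point.
-/

namespace Pool.Agent.K3N

open Finset

/-- Pairs of integer vectors. -/
abbrev Pt := (ℤ × ℤ) × (ℤ × ℤ)

/-- The point `p` has the given data. -/
def Rel (F F' : Forms) (i₀ j₀ : Fin 4) (sg sg' : ℤ) (b b' : ℕ) (a a' : Fin 4 → ℕ) (δ m m' : ℕ)
    (E E' : Fin 3 → ℕ) (p : Pt) : Prop :=
  F.L i₀ p.1.1 p.1.2 = sg * ((a i₀ ^ 2 * (δ * m) : ℕ) : ℤ) ∧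
  F'.L j₀ p.2.1 p.2.2 = sg' * ((a' j₀ ^ 2 * (δ * m') : ℕ) : ℤ) ∧
  (∀ k, ((E k * a (i₀.succAbove k) ^ 2 : ℕ) : ℤ) ∣ F.L (i₀.succAbove k) p.1.1 p.1.2) ∧
  (∀ k, ((E' k * a' (j₀.succAbove k) ^ 2 : ℕ) : ℤ) ∣ F'.L (j₀.succAbove k) p.2.1 p.2.2) ∧
  ((b' * ∏ j, a' j : ℕ) : ℤ) ^ 2 * ∏ i, F.L i p.1.1 p.1.2 =
    ((b * ∏ i, a i : ℕ) : ℤ) ^ 2 * ∏ j, F'.L j p.2.1 p.2.2 ∧
  m' ≤ F'.Δ * ∏ k, E k ∧ m ≤ F.Δ * ∏ k, E' k ∧ (∀ k, E k ∣ δ * m') ∧ (∀ k, E' k ∣ δ * m) ∧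
  m ≤ F.Δ * δ ^ 3 ∧
  max |(p.1.1 : ℝ)| |(p.1.2 : ℝ)| ≤ 2 * F.κ * |((F.L i₀ p.1.1 p.1.2 : ℤ) : ℝ)|

lemma sign_natAbs (n : ℤ) (h : n ≠ 0) : ∃ sg ∈ ({1, -1} : Finset ℤ), n = sg * (n.natAbs : ℤ) := by
  rcases lt_or_gt_of_ne h with h | h
  · refine ⟨-1, by simp, ?_⟩
    rw [Int.ofNat_natAbs_of_nonpos h.le]
    ring
  · refine ⟨1, by simp, ?_⟩
    rw [Int.natAbs_of_nonneg h.le]
    ring

lemma exists_data (F F' : Forms) {p : Pt} (hrs : IsCoprime p.1.1 p.1.2)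
    (huv : IsCoprime p.2.1 p.2.2) (hnz : ∀ i, F.L i p.1.1 p.1.2 ≠ 0)
    (hnz' : ∀ j, F'.L j p.2.1 p.2.2 ≠ 0) {y : ℤ}
    (hy : (∏ i, F.L i p.1.1 p.1.2) * ∏ j, F'.L j p.2.1 p.2.2 = y ^ 2) :
    ∃ (i₀ j₀ : Fin 4), ∃ sg ∈ ({1, -1} : Finset ℤ), ∃ sg' ∈ ({1, -1} : Finset ℤ),
      ∃ b ∈ (F.Δ ^ 2).divisors, ∃ b' ∈ (F'.Δ ^ 2).divisors, ∃ δ m m' : ℕ,
      δ ≠ 0 ∧ m ≠ 0 ∧ m' ≠ 0 ∧ ∃ E E' : Fin 3 → ℕ, (∀ k, E k ≠ 0) ∧ (∀ k, E' k ≠ 0) ∧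
      Rel F F' i₀ j₀ sg sg' b b' (fun i => sq (F.L i p.1.1 p.1.2).natAbs)
        (fun j => sq (F'.L j p.2.1 p.2.2).natAbs) δ m m' E E' p := by
  classical
  set l : Fin 4 → ℕ := fun i => (F.L i p.1.1 p.1.2).natAbs with hl
  set l' : Fin 4 → ℕ := fun j => (F'.L j p.2.1 p.2.2).natAbs with hl'
  have hl0 : ∀ i, l i ≠ 0 := fun i => Int.natAbs_ne_zero.mpr (hnz i)
  have hl0' : ∀ i, l' i ≠ 0 := fun i => Int.natAbs_ne_zero.mpr (hnz' i)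
  have hg : ∀ i j, i ≠ j → Nat.gcd (l i) (l j) ∣ F.Δ := fun i j hij => F.gcd_dvd hij hrs
  have hg' : ∀ i j, i ≠ j → Nat.gcd (l' i) (l' j) ∣ F'.Δ := fun i j hij => F'.gcd_dvd hij huv
  have hprod : ∏ i, l i = (∏ i, F.L i p.1.1 p.1.2).natAbs := by
    rw [hl, Fin.prod_univ_four, Fin.prod_univ_four, Int.natAbs_mul, Int.natAbs_mul, Int.natAbs_mul]
  have hprod' : ∏ i, l' i = (∏ i, F'.L i p.2.1 p.2.2).natAbs := by
    rw [hl', Fin.prod_univ_four, Fin.prod_univ_four, Int.natAbs_mul, Int.natAbs_mul, Int.natAbs_mul]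
  have hyN : (∏ i, l i) * (∏ j, l' j) = y.natAbs ^ 2 := by
    rw [hprod, hprod', ← Int.natAbs_mul, hy, Int.natAbs_pow]
  have hyN' : (∏ j, l' j) * (∏ i, l i) = y.natAbs ^ 2 := by rw [mul_comm]; exact hyN
  obtain ⟨i₀, hi₀⟩ := F.large_form p.1.1 p.1.2
  set d : Fin 4 → ℕ := fun i => sf (l i) with hd
  set d' : Fin 4 → ℕ := fun j => sf (l' j) with hd'
  have hdv : d i₀ ∣ F.Δ * ∏ j, d' j := sf_dvd_prod hl0 hl0' hg hyN i₀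
  obtain ⟨j₀, hj₀⟩ := exists_big_gcd F.pos.ne' (sf_ne_zero (l i₀)) d' hdv
  have hdv' : d' j₀ ∣ F'.Δ * ∏ i, d i := sf_dvd_prod hl0' hl0 hg' hyN' j₀
  set δ := Nat.gcd (d i₀) (d' j₀) with hδ
  have hδ0 : 0 < δ := Nat.gcd_pos_of_pos_left _ (sf_pos _)
  obtain ⟨m, hm⟩ := Nat.gcd_dvd_left (d i₀) (d' j₀)
  obtain ⟨m', hm'⟩ := Nat.gcd_dvd_right (d i₀) (d' j₀)
  rw [← hδ] at hm hm'
  obtain ⟨sg, hsg, hsg2⟩ := sign_natAbs _ (hnz i₀)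
  obtain ⟨sg', hsg', hsg2'⟩ := sign_natAbs _ (hnz' j₀)
  have hm0 : m ≠ 0 := by
    rintro rfl
    exact sf_ne_zero (l i₀) (by rw [mul_zero] at hm; exact hm)
  have hm0' : m' ≠ 0 := by
    rintro rfl
    exact sf_ne_zero (l' j₀) (by rw [mul_zero] at hm'; exact hm')
  refine ⟨i₀, j₀, sg, hsg, sg', hsg', sq (∏ i, d i), ?_, sq (∏ j, d' j), ?_, δ, m, m', hδ0.ne',
    hm0, hm0', fun k => Nat.gcd (d' j₀) (d (i₀.succAbove k)),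
    fun k => Nat.gcd (d i₀) (d' (j₀.succAbove k)), ?_, ?_, ?_⟩
  · exact Nat.mem_divisors.mpr ⟨sq_prod_dvd hg F.pos.ne', pow_ne_zero 2 F.pos.ne'⟩
  · exact Nat.mem_divisors.mpr ⟨sq_prod_dvd hg' F'.pos.ne', pow_ne_zero 2 F'.pos.ne'⟩
  · intro k
    exact (Nat.gcd_pos_of_pos_left _ (sf_pos _)).ne'
  · intro k
    exact (Nat.gcd_pos_of_pos_left _ (sf_pos _)).ne'
  · refine ⟨?_, ?_, ?_, ?_, ?_, ?_, ?_, ?_, ?_, ?_, hi₀⟩
    · rw [← hm]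
      rw [show sq (F.L i₀ p.1.1 p.1.2).natAbs ^ 2 * d i₀ = l i₀ from sq_sf _]
      exact hsg2
    · rw [← hm']
      rw [show sq (F'.L j₀ p.2.1 p.2.2).natAbs ^ 2 * d' j₀ = l' j₀ from sq_sf _]
      exact hsg2'
    · intro k
      rw [Int.natCast_dvd]
      have h1 : Nat.gcd (d' j₀) (d (i₀.succAbove k)) ∣ d (i₀.succAbove k) := Nat.gcd_dvd_right _ _
      have h2 := Nat.mul_dvd_mul_right h1 (sq (l (i₀.succAbove k)) ^ 2)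
      refine h2.trans (dvd_of_eq ?_)
      rw [mul_comm]
      exact sq_sf _
    · intro k
      rw [Int.natCast_dvd]
      have h1 : Nat.gcd (d i₀) (d' (j₀.succAbove k)) ∣ d' (j₀.succAbove k) :=
        Nat.gcd_dvd_right _ _
      have h2 := Nat.mul_dvd_mul_right h1 (sq (l' (j₀.succAbove k)) ^ 2)
      refine h2.trans (dvd_of_eq ?_)
      rw [mul_comm]
      exact sq_sf _
    · -- the relation, with signs
      have h1 := sf_relation hl0 hl0' hyN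
      have hs : ∏ i, F.L i p.1.1 p.1.2 ≠ 0 := Finset.prod_ne_zero_iff.mpr (fun i _ => hnz i)
      have hs' : ∏ i, F'.L i p.2.1 p.2.2 ≠ 0 := Finset.prod_ne_zero_iff.mpr (fun i _ => hnz' i)
      rw [hprod, hprod'] at h1
      have h2 := congrArg (fun n : ℕ => (n : ℤ)) h1
      push_cast at h2
      have hpos : 0 < (∏ i, F.L i p.1.1 p.1.2) * ∏ j, F'.L j p.2.1 p.2.2 := by
        rw [hy]
        have : y ≠ 0 := by
          rintro rfl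
          rw [zero_pow two_ne_zero] at hy
          exact (mul_ne_zero hs hs') hy
        positivity
      push_cast
      rcases pos_and_pos_or_neg_and_neg_of_mul_pos hpos with ⟨g1, g2⟩ | ⟨g1, g2⟩
      · rw [abs_of_pos g1, abs_of_pos g2] at h2
        exact h2
      · rw [abs_of_neg g1, abs_of_neg g2] at h2
        linear_combination (-1) * h2
    · -- m' ≤ Δ' ∏ E
      have h1 := Nat.le_of_dvd (Nat.mul_pos F'.pos (Finset.prod_pos (fun i _ =>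
        Nat.gcd_pos_of_pos_left _ (sf_pos _)))) (dvd_gcd_prod d hdv')
      rw [Fin.prod_univ_succAbove _ i₀, Nat.gcd_comm (d' j₀) (d i₀), ← hδ] at h1
      have h2 : δ * m' ≤ δ * (F'.Δ * ∏ k, Nat.gcd (d' j₀) (d (i₀.succAbove k))) := by
        rw [← hm']
        refine h1.trans (le_of_eq ?_)
        ring
      exact Nat.le_of_mul_le_mul_left h2 hδ0
    · have h1 := Nat.le_of_dvd (Nat.mul_pos F.pos (Finset.prod_pos (fun i _ =>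
        Nat.gcd_pos_of_pos_left _ (sf_pos _)))) (dvd_gcd_prod d' hdv)
      rw [Fin.prod_univ_succAbove _ j₀, ← hδ] at h1
      have h2 : δ * m ≤ δ * (F.Δ * ∏ k, Nat.gcd (d i₀) (d' (j₀.succAbove k))) := by
        rw [← hm]
        refine h1.trans (le_of_eq ?_)
        ring
      exact Nat.le_of_mul_le_mul_left h2 hδ0
    · intro k
      rw [← hm']
      exact Nat.gcd_dvd_left _ _
    · intro k
      rw [← hm]
      exact Nat.gcd_dvd_left _ _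
    · have h1 : δ * m ≤ δ * (F.Δ * δ ^ 3) := by
        rw [← hm]
        refine hj₀.trans (le_of_eq ?_)
        ring
      exact Nat.le_of_mul_le_mul_left h1 hδ0

end Pool.Agent.K3N
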