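import Pool.Agent.K3N.Sum3
import Pool.Agent.K3H.Small

/-!
Translation between rational points and integer vectors.
-/

namespace Pool.Agent.K3N

open Finset Height

/-- The four forms attached to the branch points `∞, θ 0, θ 1, θ 2`. -/
def formsOf (θ : Fin 3 → ℤ) (hθ : Function.Injective θ) : Forms where
  p := ![0, 1, 1, 1]
  q := ![1, -θ 0, -θ 1, -θ 2]
  Δ := ((θ 0 - θ 1) * (θ 0 - θ 2) * (θ 1 - θ 2)).natAbs
  κ := 1 + (θ 0).natAbs + (θ 1).natAbs + (θ 2).natAbs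
  cop := by
    intro i
    fin_cases i
    · exact isCoprime_one_right
    · exact isCoprime_one_left
    · exact isCoprime_one_left
    · exact isCoprime_one_left
  nz := by
    have h01 : θ 0 ≠ θ 1 := fun h => absurd (hθ h) (by decide)
    have h02 : θ 0 ≠ θ 2 := fun h => absurd (hθ h) (by decide)
    have h12 : θ 1 ≠ θ 2 := fun h => absurd (hθ h) (by decide)
    intro i j hij
    fin_cases i <;> fin_cases j <;> simp at hij ⊢ <;> omega
  dvd := by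
    intro i j hij
    rw [Int.dvd_natAbs]
    have e01 : (θ 0 - θ 1) ∣ (θ 0 - θ 1) * (θ 0 - θ 2) * (θ 1 - θ 2) :=
      (dvd_mul_right _ _).mul_right _
    have e02 : (θ 0 - θ 2) ∣ (θ 0 - θ 1) * (θ 0 - θ 2) * (θ 1 - θ 2) :=
      (dvd_mul_left _ _).mul_right _
    have e12 : (θ 1 - θ 2) ∣ (θ 0 - θ 1) * (θ 0 - θ 2) * (θ 1 - θ 2) := dvd_mul_left _ _
    have e10 : (θ 1 - θ 0) ∣ (θ 0 - θ 1) * (θ 0 - θ 2) * (θ 1 - θ 2) := by
      rw [← neg_sub]; exact (neg_dvd).mpr e01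
    have e20 : (θ 2 - θ 0) ∣ (θ 0 - θ 1) * (θ 0 - θ 2) * (θ 1 - θ 2) := by
      rw [← neg_sub]; exact (neg_dvd).mpr e02
    have e21 : (θ 2 - θ 1) ∣ (θ 0 - θ 1) * (θ 0 - θ 2) * (θ 1 - θ 2) := by
      rw [← neg_sub]; exact (neg_dvd).mpr e12
    fin_cases i <;> fin_cases j <;> simp at hij ⊢ <;> first
      | (exact (by simp))
      | (exact (by simpa [sub_eq_add_neg, add_comm] using e01))
      | (exact (by simpa [sub_eq_add_neg, add_comm] using e02))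
      | (exact (by simpa [sub_eq_add_neg, add_comm] using e12))
      | (exact (by simpa [sub_eq_add_neg, add_comm] using e10))
      | (exact (by simpa [sub_eq_add_neg, add_comm] using e20))
      | (exact (by simpa [sub_eq_add_neg, add_comm] using e21))
  pos := by
    have h01 : θ 0 ≠ θ 1 := fun h => absurd (hθ h) (by decide)
    have h02 : θ 0 ≠ θ 2 := fun h => absurd (hθ h) (by decide)
    have h12 : θ 1 ≠ θ 2 := fun h => absurd (hθ h) (by decide)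
    exact Int.natAbs_pos.mpr (mul_ne_zero (mul_ne_zero (sub_ne_zero.mpr h01)
      (sub_ne_zero.mpr h02)) (sub_ne_zero.mpr h12))
  bd := by
    intro i
    have h0 := abs_nonneg (θ 0)
    have h1 := abs_nonneg (θ 1)
    have h2 := abs_nonneg (θ 2)
    fin_cases i <;> simp <;> linarith

variable {θ θ' : Fin 3 → ℤ} {hθ : Function.Injective θ} {hθ' : Function.Injective θ'}

lemma formsOf_L0 (r s : ℤ) : (formsOf θ hθ).L 0 r s = s := by
  simp [formsOf, Forms.L]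

lemma formsOf_Ls (k : Fin 3) (r s : ℤ) : (formsOf θ hθ).L k.succ r s = r - θ k * s := by
  fin_cases k <;> simp [formsOf, Forms.L] <;> ring

/-- The cubic with roots `θ`. -/
def fcub (θ : Fin 3 → ℚ) (x : ℚ) : ℚ := (x - θ 0) * (x - θ 1) * (x - θ 2)

/-- The quartic form with zeros `∞, θ`. -/
def quart (θ : Fin 3 → ℚ) (X Y : ℚ) : ℚ := Y * ((X - θ 0 * Y) * (X - θ 1 * Y) * (X - θ 2 * Y))

/-- `(x, z)` lies on the graph of a Moebius transformation carrying `∞, θ` to `∞, θ'`. -/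
def OnGraph (θ θ' : Fin 3 → ℚ) (x z : ℚ) : Prop :=
  ∃ α β γ δ c : ℚ, c ≠ 0 ∧
    (∀ X Y : ℚ, quart θ' (α * X + β * Y) (γ * X + δ * Y) = c ^ 2 * quart θ X Y) ∧
    z * (γ * x + δ) = α * x + β

lemma formsOf_G (X Y : ℚ) : (formsOf θ hθ).G X Y = quart (fun k => (θ k : ℚ)) X Y := by
  unfold Forms.G quart
  rw [Fin.prod_univ_four]
  simp [formsOf]
  ring

/-- Integer vectors of a pair of rational numbers. -/
def pt (x z : ℚ) : Pt := ((x.num, (x.den : ℤ)), (z.num, (z.den : ℤ)))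

lemma onGraph_of_onGr {x z : ℚ}
    (h : OnGr (formsOf θ hθ) (formsOf θ' hθ') x.num x.den z.num z.den) :
    OnGraph (fun k => (θ k : ℚ)) (fun k => (θ' k : ℚ)) x z := by
  obtain ⟨α, β, γ, δ, c, hc, hG, hp⟩ := h
  refine ⟨α, β, γ, δ, c, hc, ?_, ?_⟩
  · intro X Y
    rw [← formsOf_G (hθ := hθ), ← formsOf_G (hθ := hθ')]
    exact hG X Y
  · have h1 : (x.den : ℚ) ≠ 0 := by exact_mod_cast x.den_nz
    have h2 : (z.den : ℚ) ≠ 0 := by exact_mod_cast z.den_nz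
    have e1 : x = x.num / x.den := (Rat.num_div_den x).symm
    have e2 : z = z.num / z.den := (Rat.num_div_den z).symm
    push_cast at hp
    rw [e1, e2]
    field_simp
    linear_combination hp

lemma prod_L (x : ℚ) : (((∏ i, (formsOf θ hθ).L i x.num x.den : ℤ)) : ℚ) =
    (x.den : ℚ) ^ 4 * fcub (fun k => (θ k : ℚ)) x := by
  rw [Fin.prod_univ_succ]
  simp only [formsOf_L0, formsOf_Ls, Fin.prod_univ_three]
  have h1 : (x.den : ℚ) ≠ 0 := by exact_mod_cast x.den_nz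
  have e1 : (x.num : ℚ) = x * x.den := (Rat.mul_den_eq_num x).symm
  push_cast
  rw [e1]
  unfold fcub
  ring

lemma L_ne_zero {x : ℚ} (hx : fcub (fun k => (θ k : ℚ)) x ≠ 0) (i : Fin 4) :
    (formsOf θ hθ).L i x.num x.den ≠ 0 := by
  have h1 : (x.den : ℚ) ≠ 0 := by exact_mod_cast x.den_nz
  have h2 : ((∏ i, (formsOf θ hθ).L i x.num x.den : ℤ) : ℚ) ≠ 0 := by
    rw [prod_L]
    exact mul_ne_zero (pow_ne_zero 4 h1) hx
  have h3 : (∏ i, (formsOf θ hθ).L i x.num x.den : ℤ) ≠ 0 := by exact_mod_cast h2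
  exact Finset.prod_ne_zero_iff.mp h3 i (Finset.mem_univ i)

lemma exists_square {x z w : ℚ}
    (hw : w ^ 2 = fcub (fun k => (θ k : ℚ)) x * fcub (fun k => (θ' k : ℚ)) z) :
    ∃ y : ℤ, (∏ i, (formsOf θ hθ).L i x.num x.den) * ∏ j, (formsOf θ' hθ').L j z.num z.den =
      y ^ 2 := by
  have h1 : IsSquare ((((∏ i, (formsOf θ hθ).L i x.num x.den) *
      ∏ j, (formsOf θ' hθ').L j z.num z.den : ℤ)) : ℚ) := by
    refine ⟨(x.den : ℚ) ^ 2 * (z.den : ℚ) ^ 2 * w, ?_⟩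
    rw [Int.cast_mul, prod_L, prod_L]
    linear_combination (-(x.den : ℚ) ^ 4 * (z.den : ℚ) ^ 4) * hw
  rw [Rat.isSquare_intCast_iff] at h1
  obtain ⟨y, hy⟩ := h1
  exact ⟨y, by rw [hy]; ring⟩

lemma ht_eq (x : ℚ) : mulHeight₁ x = max |(x.num : ℝ)| |((x.den : ℤ) : ℝ)| := by
  rw [Rat.mulHeight₁_eq_max]
  push_cast
  rw [Nat.cast_natAbs, Nat.abs_cast]
  push_cast
  rfl

lemma card_le_of_ht {T : ℝ} (hT : 1 ≤ T) (Xs : Finset ℚ) (h : ∀ x ∈ Xs, mulHeight₁ x ≤ T) :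
    (Xs.card : ℝ) ≤ 9 * T ^ 2 := by
  classical
  have hinj : (Xs.image (fun x : ℚ => (x.num, (x.den : ℤ)))).card = Xs.card := by
    apply Finset.card_image_of_injOn
    intro x _ y _ hxy
    simp only [Prod.mk.injEq] at hxy
    exact Rat.ext hxy.1 (by exact_mod_cast hxy.2)
  have hsub : Xs.image (fun x : ℚ => (x.num, (x.den : ℤ))) ⊆
      (Finset.Icc (-(⌊T⌋₊ : ℤ)) ⌊T⌋₊) ×ˢ (Finset.Icc (-(⌊T⌋₊ : ℤ)) ⌊T⌋₊) := by
    intro y hy
    obtain ⟨x, hx, rfl⟩ := Finset.mem_image.mp hy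
    have h1 := h x hx
    rw [ht_eq] at h1
    have h2 := (le_max_left _ _).trans h1
    have h3 := (le_max_right _ _).trans h1
    have h4 : x.num.natAbs ≤ ⌊T⌋₊ := by
      apply Nat.le_floor
      rw [Nat.cast_natAbs]
      exact_mod_cast h2
    have h5 : ((x.den : ℤ)).natAbs ≤ ⌊T⌋₊ := by
      apply Nat.le_floor
      rw [Nat.cast_natAbs]
      exact_mod_cast h3
    rw [Finset.mem_product, Finset.mem_Icc, Finset.mem_Icc]
    constructor <;> constructor <;> simp only <;> omega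
  have hc := Finset.card_le_card hsub
  rw [hinj, Finset.card_product, Int.card_Icc] at hc
  have h3 : ((⌊T⌋₊ : ℤ) + 1 - -(⌊T⌋₊ : ℤ)).toNat = 2 * ⌊T⌋₊ + 1 := by omega
  rw [h3] at hc
  have hf : ((⌊T⌋₊ : ℕ) : ℝ) ≤ T := Nat.floor_le (by linarith)
  calc (Xs.card : ℝ) ≤ ((2 * ⌊T⌋₊ + 1 : ℕ) : ℝ) * ((2 * ⌊T⌋₊ + 1 : ℕ) : ℝ) := by
        exact_mod_cast hc
    _ ≤ (3 * T) * (3 * T) := by
        have : ((2 * ⌊T⌋₊ + 1 : ℕ) : ℝ) ≤ 3 * T := by push_cast; linarith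
        gcongr
    _ = _ := by ring

end Pool.Agent.K3N
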