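import Pool.Agent.K3N.Fin1

/-!
The count for integral branch points with sum zero.
-/

namespace Pool.Agent.K3N

open Finset Height

/-- The point `(x, z, w)` lies on `w^2 = f(x) g(z)`, `w ≠ 0`, and has height at most `B`. -/
def Good (θ θ' : Fin 3 → ℤ) (B : ℝ) (p : ℚ × ℚ × ℚ) : Prop :=
  p.2.2 ^ 2 = fcub (fun k => (θ k : ℚ)) p.1 * fcub (fun k => (θ' k : ℚ)) p.2.1 ∧ p.2.2 ≠ 0 ∧
    mulHeight₁ p.1 * mulHeight₁ p.2.1 ≤ B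

lemma fc_eq {θ : Fin 3 → ℤ} (h0 : θ 0 + θ 1 + θ 2 = 0) (x : ℚ) :
    K3H.fc ((θ 0 * θ 1 + θ 0 * θ 2 + θ 1 * θ 2 : ℤ) : ℚ) ((-(θ 0 * θ 1 * θ 2) : ℤ) : ℚ) x =
      fcub (fun k => (θ k : ℚ)) x := by
  have h : (θ 2 : ℚ) = -(θ 0) - θ 1 := by
    have : θ 2 = -(θ 0) - θ 1 := by linarith
    rw [this]; push_cast; ring
  unfold K3H.fc fcub
  push_cast
  rw [h]
  ring

lemma disc_ne {θ : Fin 3 → ℤ} (hθ : Function.Injective θ) (h0 : θ 0 + θ 1 + θ 2 = 0) :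
    4 * ((θ 0 * θ 1 + θ 0 * θ 2 + θ 1 * θ 2 : ℤ) : ℚ) ^ 3 +
      27 * ((-(θ 0 * θ 1 * θ 2) : ℤ) : ℚ) ^ 2 ≠ 0 := by
  have h01 : θ 0 ≠ θ 1 := fun h => absurd (hθ h) (by decide)
  have h02 : θ 0 ≠ θ 2 := fun h => absurd (hθ h) (by decide)
  have h12 : θ 1 ≠ θ 2 := fun h => absurd (hθ h) (by decide)
  have e : 4 * (θ 0 * θ 1 + θ 0 * θ 2 + θ 1 * θ 2) ^ 3 + 27 * (-(θ 0 * θ 1 * θ 2)) ^ 2 =
      -((θ 0 - θ 1) * (θ 0 - θ 2) * (θ 1 - θ 2)) ^ 2 := by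
    have : θ 2 = -(θ 0) - θ 1 := by linarith
    rw [this]
    ring
  have h2 : 4 * (θ 0 * θ 1 + θ 0 * θ 2 + θ 1 * θ 2) ^ 3 + 27 * (-(θ 0 * θ 1 * θ 2)) ^ 2 ≠ 0 := by
    rw [e]
    exact neg_ne_zero.mpr (pow_ne_zero 2 (mul_ne_zero (mul_ne_zero (sub_ne_zero.mpr h01)
      (sub_ne_zero.mpr h02)) (sub_ne_zero.mpr h12)))
  exact_mod_cast h2

lemma heights_le {θ θ' : Fin 3 → ℤ} {B : ℝ} {p : ℚ × ℚ × ℚ} (h : Good θ θ' B p) :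
    mulHeight₁ p.1 ≤ B ∧ mulHeight₁ p.2.1 ≤ B := by
  have h1 := one_le_mulHeight₁ p.1
  have h2 := one_le_mulHeight₁ p.2.1
  have h3 := h.2.2
  constructor <;> nlinarith

lemma fib_count {θ θ' : Fin 3 → ℤ} (hθ : Function.Injective θ) (hθ' : Function.Injective θ')
    (h0 : θ 0 + θ 1 + θ 2 = 0) (h0' : θ' 0 + θ' 1 + θ' 2 = 0) (η : ℝ) (hη : 0 < η) :
    ∃ C : ℝ, 0 ≤ C ∧ ∀ B : ℝ, 1 ≤ B → ∀ s : Finset (ℚ × ℚ × ℚ), (∀ p ∈ s, Good θ θ' B p) →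
      ((∃ x0, ∀ p ∈ s, p.1 = x0) ∨ (∃ z0, ∀ p ∈ s, p.2.1 = z0)) →
      (s.card : ℝ) ≤ C * B ^ η := by
  classical
  obtain ⟨C, hC0, hC⟩ := K3H.class_count (disc_ne hθ h0) (disc_ne hθ' h0') η hη
  refine ⟨C, hC0, ?_⟩
  intro B hB s hs hfib
  rcases s.eq_empty_or_nonempty with rfl | ⟨p₀, hp₀⟩
  · rw [Finset.card_empty]
    push_cast
    positivity
  have hBexp : Real.exp (η * Real.log B) = B ^ η := by
    rw [Real.rpow_def_of_pos (by linarith), mul_comm]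
  have hlog : ∀ p ∈ s, logHeight₁ p.1 ≤ Real.log B ∧ logHeight₁ p.2.1 ≤ Real.log B := by
    intro p hp
    obtain ⟨g1, g2⟩ := heights_le (hs p hp)
    rw [logHeight₁_eq_log_mulHeight₁, logHeight₁_eq_log_mulHeight₁]
    have h1 := one_le_mulHeight₁ p.1
    have h2 := one_le_mulHeight₁ p.2.1
    exact ⟨Real.log_le_log (by linarith) g1, Real.log_le_log (by linarith) g2⟩
  have hne : ∀ p ∈ s, fcub (fun k => (θ k : ℚ)) p.1 ≠ 0 ∧ fcub (fun k => (θ' k : ℚ)) p.2.1 ≠ 0 := by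
    intro p hp
    obtain ⟨h1, h2, _⟩ := hs p hp
    have h3 : fcub (fun k => (θ k : ℚ)) p.1 * fcub (fun k => (θ' k : ℚ)) p.2.1 ≠ 0 := by
      rw [← h1]; exact pow_ne_zero 2 h2
    exact ⟨left_ne_zero_of_mul h3, right_ne_zero_of_mul h3⟩
  rw [← hBexp]
  rcases hfib with ⟨x0, hx0⟩ | ⟨z0, hz0⟩
  · have hf0 : fcub (fun k => (θ k : ℚ)) x0 ≠ 0 := by
      rw [← hx0 p₀ hp₀]; exact (hne p₀ hp₀).1
    apply hC (fcub (fun k => (θ k : ℚ)) x0) hf0 (Real.log B) (Real.log_nonneg hB) s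
    intro p hp
    rw [fc_eq h0, fc_eq h0']
    exact ⟨(hs p hp).1, (hs p hp).2.1, ⟨1, one_ne_zero, by rw [hx0 p hp]; ring⟩,
      (hlog p hp).1, (hlog p hp).2⟩
  · have hf0 : fcub (fun k => (θ' k : ℚ)) z0 ≠ 0 := by
      rw [← hz0 p₀ hp₀]; exact (hne p₀ hp₀).2
    apply hC (fcub (fun k => (θ' k : ℚ)) z0) hf0 (Real.log B) (Real.log_nonneg hB) s
    intro p hp
    rw [fc_eq h0, fc_eq h0']
    have hx := (hne p hp).1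
    refine ⟨(hs p hp).1, (hs p hp).2.1, ⟨p.2.2 / fcub (fun k => (θ k : ℚ)) p.1,
      div_ne_zero (hs p hp).2.1 hx, ?_⟩, (hlog p hp).1, (hlog p hp).2⟩
    rw [div_pow, (hs p hp).1, hz0 p hp]
    field_simp

lemma cover_count {s : Finset (ℚ × ℚ × ℚ)} {f : ℚ × ℚ × ℚ → ℚ} {n c : ℝ} (hc : 0 ≤ c)
    (h1 : ((s.image f).card : ℝ) ≤ n)
    (h2 : ∀ y, ((s.filter (fun p => f p = y)).card : ℝ) ≤ c) : (s.card : ℝ) ≤ n * c := by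
  classical
  have h := card_le_sum_of_exists s (s.image f) (fun y p => f p = y)
    (fun x hx => ⟨f x, Finset.mem_image_of_mem f hx, rfl⟩) (fun _ => c) (fun y _ => h2 y)
  rw [Finset.sum_const, nsmul_eq_mul] at h
  exact h.trans (mul_le_mul_of_nonneg_right h1 hc)

/-- The count of integer vectors, numerical form. -/
lemma vec_count (F F' : Forms) : ∃ C : ℝ, 0 ≤ C ∧ ∀ B : ℝ, 1 ≤ B → ∀ S : Finset Pt,
    (∀ p ∈ S, Base F F' (B ^ (191 / 380 : ℝ)) (B ^ (189 / 380 : ℝ)) p ∧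
      (∀ i, F.L i p.1.1 p.1.2 ≠ 0 ∧ sq (F.L i p.1.1 p.1.2).natAbs ≤ ⌈B ^ (1 / 95 : ℝ)⌉₊) ∧
      (∀ j, sq (F'.L j p.2.1 p.2.2).natAbs ≤ ⌈B ^ (1 / 95 : ℝ)⌉₊) ∧
      ∃ y : ℤ, (∏ i, F.L i p.1.1 p.1.2) * ∏ j, F'.L j p.2.1 p.2.2 = y ^ 2) →
    (S.card : ℝ) ≤ C * B ^ (199 / 200 : ℝ) := by
  classical
  obtain ⟨r, hr⟩ : ∃ r : ℕ, r = 400 := ⟨_, rfl⟩
  obtain ⟨C, hC0, hC⟩ := main_sum F F' r (1 / 10000) (by norm_num) (by norm_num)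
  obtain ⟨Cd, hCd1, hCd⟩ := card_divisors_le (1 / 10000) (by norm_num)
  have hκ : (1 : ℝ) ≤ F.κ := by exact_mod_cast F.κ_pos
  have hκ' : (1 : ℝ) ≤ F'.κ := by exact_mod_cast F'.κ_pos
  have hΔ : (1 : ℝ) ≤ F.Δ := by exact_mod_cast F.pos
  have hΔ' : (1 : ℝ) ≤ F'.Δ := by exact_mod_cast F'.pos
  set CR : ℝ := 1 + 3 * ((F.Δ : ℝ) ^ 2) ^ 2 * 256 * F'.Δ * (F'.κ : ℝ) ^ 6 with hCR
  have hCR1 : 1 ≤ CR := by rw [hCR]; linarith [show (0:ℝ) ≤ 3 * ((F.Δ : ℝ) ^ 2) ^ 2 * 256 * F'.Δ * (F'.κ : ℝ) ^ 6 by positivity]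
  set c : ℝ := 1 / (8 * F.κ * F.Δ) with hc
  have hc0 : 0 < c := by positivity
  have hcle : c ≤ 1 := by
    rw [hc, div_le_one (by positivity)]
    nlinarith
  set C2 : ℝ := (C * (Cd * ((F.κ + F'.κ : ℝ)) ^ (1 / 10000 : ℝ)) ^ 6 *
    (c ^ (-(1 / 3) : ℝ) * 2 ^ (8 / 3 : ℝ) + CR * c ^ (-1 : ℝ) * 2 ^ 8)) with hC2
  have hCd0 : 0 ≤ Cd := by linarith
  have hCR0 : 0 ≤ CR := by linarith
  refine ⟨C2, by positivity, ?_⟩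
  intro B hB S hS
  have hBp : 0 < B := by linarith
  set X : ℝ := B ^ (191 / 380 : ℝ) with hX
  have hX1 : 1 ≤ X := Real.one_le_rpow hB (by norm_num)
  set b0 : ℕ := ⌈B ^ (1 / 95 : ℝ)⌉₊ with hb0
  have hb1 : 1 ≤ B ^ (1 / 95 : ℝ) := Real.one_le_rpow hB (by norm_num)
  have hb2 : (b0 : ℝ) ≤ 2 * B ^ (1 / 95 : ℝ) := by
    have := (Nat.ceil_lt_add_one (show 0 ≤ B ^ (1 / 95 : ℝ) by positivity)).le
    linarith
  set R0 : ℝ := CR * B ^ (1 / 100 : ℝ) with hR0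
  have hR01 : 1 ≤ R0 := by
    have := Real.one_le_rpow hB (show (0 : ℝ) ≤ 1 / 100 by norm_num)
    nlinarith
  set T : ℝ := Cd * ((F.κ + F'.κ) * X) ^ (1 / 10000 : ℝ) with hT
  set δ0 : ℝ := c * B ^ (181 / 1520 : ℝ) with hδ0
  have hδ00 : 0 < δ0 := by positivity
  -- powers of `B`
  have hpw : ∀ a b : ℝ, B ^ a * B ^ b = B ^ (a + b) := fun a b => (Real.rpow_add hBp a b).symm
  have hpn : ∀ (a : ℝ) (n : ℕ), (B ^ a) ^ n = B ^ (a * n) := by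
    intro a n
    rw [← Real.rpow_natCast, ← Real.rpow_mul hBp.le]
  have hmono : ∀ a b : ℝ, a ≤ b → B ^ a ≤ B ^ b := fun a b h =>
    Real.rpow_le_rpow_of_exponent_le hB h
  have hR : 3 * ((F.Δ : ℝ) ^ 2 * b0 ^ 4) ^ 2 * F'.Δ * (F'.κ * X) ^ 6 ≤ R0 ^ r := by
    have e1 : 3 * ((F.Δ : ℝ) ^ 2 * b0 ^ 4) ^ 2 * F'.Δ * (F'.κ * X) ^ 6 ≤
        3 * ((F.Δ : ℝ) ^ 2 * (2 * B ^ (1 / 95 : ℝ)) ^ 4) ^ 2 * F'.Δ * (F'.κ * X) ^ 6 := by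
      gcongr
    have e2 : 3 * ((F.Δ : ℝ) ^ 2 * (2 * B ^ (1 / 95 : ℝ)) ^ 4) ^ 2 * F'.Δ * (F'.κ * X) ^ 6 =
        (3 * ((F.Δ : ℝ) ^ 2) ^ 2 * 256 * F'.Δ * (F'.κ : ℝ) ^ 6) *
          ((B ^ (1 / 95 : ℝ)) ^ 8 * X ^ 6) := by ring
    have e3 : (B ^ (1 / 95 : ℝ)) ^ 8 * X ^ 6 ≤ B ^ (4 : ℝ) := by
      rw [hX, hpn, hpn, hpw]
      apply hmono
      norm_num
    have e4 : R0 ^ r = CR ^ r * B ^ (4 : ℝ) := by
      rw [hR0, mul_pow, hpn]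
      congr 2
      rw [hr]
      norm_num
    rw [e4]
    calc _ ≤ _ := e1
      _ = _ := e2
      _ ≤ CR * B ^ (4 : ℝ) := by
          apply mul_le_mul _ e3 (by positivity) (by positivity)
          rw [hCR]; linarith
      _ ≤ CR ^ r * B ^ (4 : ℝ) := by
          apply mul_le_mul_of_nonneg_right _ (by positivity)
          exact le_self_pow₀ hCR1 (by omega)
  have hδX : 2 * F.κ * F.Δ * (b0 : ℝ) ^ 2 * δ0 ^ 4 ≤ B ^ (189 / 380 : ℝ) := by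
    have e1 : 2 * F.κ * F.Δ * (b0 : ℝ) ^ 2 * δ0 ^ 4 ≤
        2 * F.κ * F.Δ * (2 * B ^ (1 / 95 : ℝ)) ^ 2 * δ0 ^ 4 := by gcongr
    have e2 : 2 * F.κ * F.Δ * (2 * B ^ (1 / 95 : ℝ)) ^ 2 * δ0 ^ 4 =
        (8 * F.κ * F.Δ * c) * c ^ 3 * ((B ^ (1 / 95 : ℝ)) ^ 2 * (B ^ (181 / 1520 : ℝ)) ^ 4) := by
      rw [hδ0]; ring
    have e3 : 8 * F.κ * F.Δ * c = 1 := by rw [hc]; field_simp
    have e4 : c ^ 3 ≤ 1 := by
      exact pow_le_one₀ hc0.le hcle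
    have e5 : (B ^ (1 / 95 : ℝ)) ^ 2 * (B ^ (181 / 1520 : ℝ)) ^ 4 = B ^ (189 / 380 : ℝ) := by
      rw [hpn, hpn, hpw]
      norm_num
    calc _ ≤ _ := e1
      _ = _ := e2
      _ = c ^ 3 * B ^ (189 / 380 : ℝ) := by rw [e3, e5]; ring
      _ ≤ 1 * B ^ (189 / 380 : ℝ) := by gcongr
      _ = _ := one_mul _
  have hTn : ∀ n : ℕ, n ≠ 0 → ((n : ℝ) ≤ F.κ * X ∨ (n : ℝ) ≤ F'.κ * X) →
      (n.divisors.card : ℝ) ≤ T := by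
    intro n hn h
    refine (hCd n hn).trans ?_
    rw [hT]
    apply mul_le_mul_of_nonneg_left _ hCd0
    apply Real.rpow_le_rpow (by positivity) _ (by norm_num)
    have g1 : 0 ≤ F.κ * X := by positivity
    have g2 : 0 ≤ F'.κ * X := by positivity
    rcases h with h | h
    · linarith
    · linarith
  have hmain := hC X (B ^ (189 / 380 : ℝ)) R0 T δ0 b0 hX1 hR01 hδ00 hR hδX hTn S hS
  -- final estimate
  have hT6 : T ^ 6 = (Cd * ((F.κ + F'.κ : ℝ)) ^ (1 / 10000 : ℝ)) ^ 6 *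
      (X ^ (1 / 10000 : ℝ)) ^ 6 := by
    rw [hT, Real.mul_rpow (by positivity) (by positivity)]
    ring
  have hXe : X ^ (1 / 10000 : ℝ) ≤ B ^ (1 / 10000 : ℝ) := by
    apply Real.rpow_le_rpow (by positivity) _ (by norm_num)
    calc X ≤ B ^ (1 : ℝ) := hmono _ _ (by norm_num)
      _ = B := Real.rpow_one B
  have hX2 : X ^ 2 = B ^ (191 / 190 : ℝ) := by
    rw [hX, hpn]; norm_num
  have hd1 : δ0 ^ (-(1 / 3) : ℝ) = c ^ (-(1 / 3) : ℝ) * B ^ (-(181 / 4560) : ℝ) := by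
    rw [hδ0, Real.mul_rpow hc0.le (by positivity), ← Real.rpow_mul hBp.le]
    norm_num
  have hd2 : δ0 ^ (-1 : ℝ) = c ^ (-1 : ℝ) * B ^ (-(181 / 1520) : ℝ) := by
    rw [hδ0, Real.mul_rpow hc0.le (by positivity), ← Real.rpow_mul hBp.le]
    norm_num
  have hb3 : (b0 : ℝ) ^ (8 / 3 : ℝ) ≤ 2 ^ (8 / 3 : ℝ) * B ^ (8 / 285 : ℝ) := by
    calc (b0 : ℝ) ^ (8 / 3 : ℝ) ≤ (2 * B ^ (1 / 95 : ℝ)) ^ (8 / 3 : ℝ) :=
          Real.rpow_le_rpow (by positivity) hb2 (by norm_num)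
      _ = _ := by
        rw [Real.mul_rpow (by norm_num) (by positivity), ← Real.rpow_mul hBp.le]
        norm_num
  have hb4 : (b0 : ℝ) ^ 8 ≤ 2 ^ 8 * B ^ (8 / 95 : ℝ) := by
    calc (b0 : ℝ) ^ 8 ≤ (2 * B ^ (1 / 95 : ℝ)) ^ 8 := by gcongr
      _ = _ := by rw [mul_pow, hpn]; norm_num
  have hterm : δ0 ^ (-(1 / 3) : ℝ) * (b0 : ℝ) ^ (8 / 3 : ℝ) + R0 * δ0 ^ (-1 : ℝ) * (b0 : ℝ) ^ 8 ≤
      (c ^ (-(1 / 3) : ℝ) * 2 ^ (8 / 3 : ℝ) + CR * c ^ (-1 : ℝ) * 2 ^ 8) *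
        B ^ (-(53 / 4560) : ℝ) := by
    have k1 : δ0 ^ (-(1 / 3) : ℝ) * (b0 : ℝ) ^ (8 / 3 : ℝ) ≤
        (c ^ (-(1 / 3) : ℝ) * 2 ^ (8 / 3 : ℝ)) * B ^ (-(53 / 4560) : ℝ) := by
      calc _ ≤ (c ^ (-(1 / 3) : ℝ) * B ^ (-(181 / 4560) : ℝ)) *
            (2 ^ (8 / 3 : ℝ) * B ^ (8 / 285 : ℝ)) := by rw [hd1]; gcongr
        _ = (c ^ (-(1 / 3) : ℝ) * 2 ^ (8 / 3 : ℝ)) *
            (B ^ (-(181 / 4560) : ℝ) * B ^ (8 / 285 : ℝ)) := by ring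
        _ = _ := by rw [hpw]; norm_num
    have k2 : R0 * δ0 ^ (-1 : ℝ) * (b0 : ℝ) ^ 8 ≤
        (CR * c ^ (-1 : ℝ) * 2 ^ 8) * B ^ (-(53 / 4560) : ℝ) := by
      calc _ ≤ (CR * B ^ (1 / 100 : ℝ)) * (c ^ (-1 : ℝ) * B ^ (-(181 / 1520) : ℝ)) *
            (2 ^ 8 * B ^ (8 / 95 : ℝ)) := by rw [hd2, hR0]; gcongr
        _ = (CR * c ^ (-1 : ℝ) * 2 ^ 8) *
            ((B ^ (1 / 100 : ℝ) * B ^ (-(181 / 1520) : ℝ)) * B ^ (8 / 95 : ℝ)) := by ring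
        _ ≤ _ := by
            apply mul_le_mul_of_nonneg_left _ (by positivity)
            rw [hpw, hpw]
            apply hmono
            norm_num
    linarith
  have hfin : (X ^ (1 / 10000 : ℝ)) ^ 6 * X ^ 2 * X ^ (1 / 10000 : ℝ) * B ^ (-(53 / 4560) : ℝ) ≤
      B ^ (199 / 200 : ℝ) := by
    calc _ ≤ (B ^ (1 / 10000 : ℝ)) ^ 6 * B ^ (191 / 190 : ℝ) * B ^ (1 / 10000 : ℝ) *
          B ^ (-(53 / 4560) : ℝ) := by rw [hX2]; gcongr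
      _ ≤ _ := by
        rw [hpn, hpw, hpw, hpw]
        apply hmono
        norm_num
  set u : ℝ := c ^ (-(1 / 3) : ℝ) * 2 ^ (8 / 3 : ℝ) + CR * c ^ (-1 : ℝ) * 2 ^ 8 with hu
  have hu0 : 0 ≤ u := by positivity
  calc (S.card : ℝ) ≤
        (C * T ^ 6 * X ^ 2 * X ^ (1 / 10000 : ℝ) * (u * B ^ (-(53 / 4560) : ℝ))) := by
        refine hmain.trans ?_
        apply mul_le_mul_of_nonneg_left hterm
        have : 0 ≤ T ^ 6 := by positivity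
        positivity
    _ = C2 * ((X ^ (1 / 10000 : ℝ)) ^ 6 * X ^ 2 * X ^ (1 / 10000 : ℝ) *
          B ^ (-(53 / 4560) : ℝ)) := by rw [hT6, hC2]; ring
    _ ≤ C2 * B ^ (199 / 200 : ℝ) := by
        apply mul_le_mul_of_nonneg_left hfin
        positivity

/-- The generic part of the count. -/
lemma generic_count {θ θ' : Fin 3 → ℤ} (hθ : Function.Injective θ)
    (hθ' : Function.Injective θ') : ∃ C : ℝ, 0 ≤ C ∧ ∀ B : ℝ, 1 ≤ B →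
      ∀ s : Finset (ℚ × ℚ × ℚ), (∀ p ∈ s, Good θ θ' B p ∧
        ¬ OnGraph (fun k => (θ k : ℚ)) (fun k => (θ' k : ℚ)) p.1 p.2.1 ∧
        B ^ (189 / 380 : ℝ) ≤ mulHeight₁ p.1 ∧ mulHeight₁ p.1 ≤ B ^ (191 / 380 : ℝ) ∧
        mulHeight₁ p.2.1 ≤ B ^ (191 / 380 : ℝ) ∧
        (∀ i, sq ((formsOf θ hθ).L i p.1.num p.1.den).natAbs ≤ ⌈B ^ (1 / 95 : ℝ)⌉₊) ∧
        (∀ i, sq ((formsOf θ' hθ').L i p.2.1.num p.2.1.den).natAbs ≤ ⌈B ^ (1 / 95 : ℝ)⌉₊)) →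
      (s.card : ℝ) ≤ C * B ^ (199 / 200 : ℝ) := by
  classical
  obtain ⟨C, hC0, hC⟩ := vec_count (formsOf θ hθ) (formsOf θ' hθ')
  refine ⟨2 * C, by positivity, ?_⟩
  intro B hB s hs
  have hcard := K3H.card_triples' (fun x => fcub (fun k => (θ k : ℚ)) x)
    (fun x => fcub (fun k => (θ' k : ℚ)) x) s (fun p hp => (hs p hp).1.1)
  set S : Finset Pt := (s.image (fun p : ℚ × ℚ × ℚ => (p.1, p.2.1))).image
    (fun q => pt q.1 q.2) with hS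
  have hScard : S.card = (s.image (fun p : ℚ × ℚ × ℚ => (p.1, p.2.1))).card := by
    apply Finset.card_image_of_injOn
    intro q _ q' _ h
    simp only [pt, Prod.mk.injEq] at h
    exact Prod.ext (Rat.ext h.1.1 (by exact_mod_cast h.1.2))
      (Rat.ext h.2.1 (by exact_mod_cast h.2.2))
  have hmain := hC B hB S (by
    intro q hq
    obtain ⟨y, hy, rfl⟩ := Finset.mem_image.mp hq
    obtain ⟨p, hp, rfl⟩ := Finset.mem_image.mp hy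
    obtain ⟨⟨h1, h2, h3⟩, h4, h5, h6, h7, h8, h9⟩ := hs p hp
    have hne : fcub (fun k => (θ k : ℚ)) p.1 * fcub (fun k => (θ' k : ℚ)) p.2.1 ≠ 0 := by
      rw [← h1]; exact pow_ne_zero 2 h2
    rw [ht_eq] at h5 h6 h7
    refine ⟨⟨Rat.isCoprime_num_den _, Rat.isCoprime_num_den _, fun j =>
      L_ne_zero (right_ne_zero_of_mul hne) j,
      ⟨(le_max_left _ _).trans h6, (le_max_right _ _).trans h6⟩,
      ⟨(le_max_left _ _).trans h7, (le_max_right _ _).trans h7⟩, h5,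
      fun h => h4 (onGraph_of_onGr h)⟩, fun i => ⟨L_ne_zero (left_ne_zero_of_mul hne) i, h8 i⟩,
      h9, exists_square h1⟩)
  rw [hScard] at hmain
  have hs2 : (s.card : ℝ) ≤ 2 * ((s.image (fun p : ℚ × ℚ × ℚ => (p.1, p.2.1))).card : ℝ) := by
    exact_mod_cast hcard
  linarith

end Pool.Agent.K3N
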