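import Pool.Agent.K3N.Fin2

/-!
The bound for integral branch points with sum zero.
-/

namespace Pool.Agent.K3N

open Finset Height

lemma sqful_rat {θ : Fin 3 → ℤ} (hθ : Function.Injective θ) : ∃ C : ℝ, 0 ≤ C ∧
    ∀ X : ℝ, 1 ≤ X → ∀ b : ℕ, 1 ≤ b → ∀ Xs : Finset ℚ, (∀ x ∈ Xs, mulHeight₁ x ≤ X ∧
      fcub (fun k => (θ k : ℚ)) x ≠ 0 ∧
      ∃ i, b ≤ sq ((formsOf θ hθ).L i x.num x.den).natAbs) → (Xs.card : ℝ) ≤ C * X ^ 2 / b := by
  classical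
  obtain ⟨C, hC0, hC⟩ := sqful_count (formsOf θ hθ)
  refine ⟨C, hC0, ?_⟩
  intro X hX b hb Xs hXs
  have hinj : (Xs.image (fun x : ℚ => (x.num, (x.den : ℤ)))).card = Xs.card := by
    apply Finset.card_image_of_injOn
    intro x _ y _ hxy
    simp only [Prod.mk.injEq] at hxy
    exact Rat.ext hxy.1 (by exact_mod_cast hxy.2)
  rw [← hinj]
  apply hC X hX b hb
  intro y hy
  obtain ⟨x, hx, rfl⟩ := Finset.mem_image.mp hy
  obtain ⟨h1, h2, i, hi⟩ := hXs x hx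
  rw [ht_eq] at h1
  exact ⟨(le_max_left _ _).trans h1, (le_max_right _ _).trans h1, i, L_ne_zero h2 i, hi⟩

theorem int_main {θ θ' : Fin 3 → ℤ} (hθ : Function.Injective θ) (hθ' : Function.Injective θ')
    (h0 : θ 0 + θ 1 + θ 2 = 0) (h0' : θ' 0 + θ' 1 + θ' 2 = 0) :
    ∃ C : ℝ, 0 ≤ C ∧ ∀ B : ℝ, 1 ≤ B → ∀ s : Finset (ℚ × ℚ × ℚ), (∀ p ∈ s, Good θ θ' B p ∧
      ¬ OnGraph (fun k => (θ k : ℚ)) (fun k => (θ' k : ℚ)) p.1 p.2.1) →
      (s.card : ℝ) ≤ C * B ^ (199 / 200 : ℝ) := by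
  classical
  obtain ⟨Cf, hCf0, hCf⟩ := fib_count hθ hθ' h0 h0' (1 / 4000) (by norm_num)
  obtain ⟨Cg, hCg0, hCg⟩ := generic_count hθ hθ'
  obtain ⟨Cs, hCs0, hCs⟩ := sqful_rat hθ
  obtain ⟨Cs', hCs0', hCs'⟩ := sqful_rat hθ'
  refine ⟨9 * Cf + 9 * Cf + Cs * Cf + Cs' * Cf + Cg, by positivity, ?_⟩
  intro B hB s hs
  have hBp : 0 < B := by linarith
  set X : ℝ := B ^ (191 / 380 : ℝ) with hX
  set X0 : ℝ := B ^ (189 / 380 : ℝ) with hX0
  set b0 : ℕ := ⌈B ^ (1 / 95 : ℝ)⌉₊ with hb0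
  have hX1 : 1 ≤ X := Real.one_le_rpow hB (by norm_num)
  have hX01 : 1 ≤ X0 := Real.one_le_rpow hB (by norm_num)
  have hbge : B ^ (1 / 95 : ℝ) ≤ b0 := Nat.le_ceil _
  have hb1 : 1 ≤ B ^ (1 / 95 : ℝ) := Real.one_le_rpow hB (by norm_num)
  have hb01 : 1 ≤ b0 := by
    have : (1 : ℝ) ≤ b0 := hb1.trans hbge
    exact_mod_cast this
  have hXX : X * X0 = B := by
    rw [hX, hX0, ← Real.rpow_add hBp]
    norm_num
  have hgood : ∀ p ∈ s, Good θ θ' B p := fun p hp => (hs p hp).1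
  have hne : ∀ p ∈ s, fcub (fun k => (θ k : ℚ)) p.1 ≠ 0 ∧ fcub (fun k => (θ' k : ℚ)) p.2.1 ≠ 0 := by
    intro p hp
    obtain ⟨h1, h2, _⟩ := hgood p hp
    have h3 : fcub (fun k => (θ k : ℚ)) p.1 * fcub (fun k => (θ' k : ℚ)) p.2.1 ≠ 0 := by
      rw [← h1]; exact pow_ne_zero 2 h2
    exact ⟨left_ne_zero_of_mul h3, right_ne_zero_of_mul h3⟩
  have hP : (0 : ℝ) ≤ Cf * B ^ (1 / 4000 : ℝ) := by positivity
  -- counting by first coordinates
  have hcov1 : ∀ t ⊆ s, ∀ n : ℝ, ((t.image (fun p => p.1)).card : ℝ) ≤ n →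
      (t.card : ℝ) ≤ n * (Cf * B ^ (1 / 4000 : ℝ)) := by
    intro t ht n hn
    apply cover_count hP hn
    intro y
    apply hCf B hB
    · intro p hp
      exact hgood p (ht (Finset.mem_filter.mp hp).1)
    · left
      exact ⟨y, fun p hp => (Finset.mem_filter.mp hp).2⟩
  have hcov2 : ∀ t ⊆ s, ∀ n : ℝ, ((t.image (fun p => p.2.1)).card : ℝ) ≤ n →
      (t.card : ℝ) ≤ n * (Cf * B ^ (1 / 4000 : ℝ)) := by
    intro t ht n hn
    apply cover_count hP hn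
    intro y
    apply hCf B hB
    · intro p hp
      exact hgood p (ht (Finset.mem_filter.mp hp).1)
    · right
      exact ⟨y, fun p hp => (Finset.mem_filter.mp hp).2⟩
  set s1 := s.filter (fun p => mulHeight₁ p.1 < X0) with hs1
  set s2 := s.filter (fun p => mulHeight₁ p.2.1 < X0) with hs2
  set s3 := s.filter (fun p => mulHeight₁ p.1 ≤ X ∧
    ∃ i, b0 ≤ sq ((formsOf θ hθ).L i p.1.num p.1.den).natAbs) with hs3
  set s4 := s.filter (fun p => mulHeight₁ p.2.1 ≤ X ∧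
    ∃ i, b0 ≤ sq ((formsOf θ' hθ').L i p.2.1.num p.2.1.den).natAbs) with hs4
  set s5 := s.filter (fun p => X0 ≤ mulHeight₁ p.1 ∧ mulHeight₁ p.1 ≤ X ∧ mulHeight₁ p.2.1 ≤ X ∧
    (∀ i, sq ((formsOf θ hθ).L i p.1.num p.1.den).natAbs ≤ b0) ∧
    (∀ i, sq ((formsOf θ' hθ').L i p.2.1.num p.2.1.den).natAbs ≤ b0)) with hs5
  have hcover : s ⊆ s1 ∪ s2 ∪ s3 ∪ s4 ∪ s5 := by
    intro p hp
    by_contra hno
    simp only [Finset.mem_union, not_or] at hno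
    obtain ⟨⟨⟨⟨n1, n2⟩, n3⟩, n4⟩, n5⟩ := hno
    rw [hs1, Finset.mem_filter, not_and, not_lt] at n1
    rw [hs2, Finset.mem_filter, not_and, not_lt] at n2
    rw [hs3, Finset.mem_filter, not_and] at n3
    rw [hs4, Finset.mem_filter, not_and] at n4
    rw [hs5, Finset.mem_filter, not_and] at n5
    have m1 := n1 hp
    have m2 := n2 hp
    have m3 := n3 hp
    have m4 := n4 hp
    have hHH := (hgood p hp).2.2
    have hX0p : 0 < X0 := by linarith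
    have hx : mulHeight₁ p.1 ≤ X := by
      have h1 : mulHeight₁ p.1 * X0 ≤ X * X0 := by
        rw [hXX]
        have h2 := one_le_mulHeight₁ p.1
        nlinarith
      exact le_of_mul_le_mul_right h1 hX0p
    have hz : mulHeight₁ p.2.1 ≤ X := by
      have h1 : mulHeight₁ p.2.1 * X0 ≤ X * X0 := by
        rw [hXX]
        have h2 := one_le_mulHeight₁ p.2.1
        nlinarith
      exact le_of_mul_le_mul_right h1 hX0p
    apply n5 hp
    refine ⟨m1, hx, hz, ?_, ?_⟩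
    · intro i
      by_contra hlt
      push Not at hlt
      exact m3 ⟨hx, i, hlt.le⟩
    · intro i
      by_contra hlt
      push Not at hlt
      exact m4 ⟨hz, i, hlt.le⟩
  have c1' := hcov1 s1 (Finset.filter_subset _ _) (9 * X0 ^ 2) (card_le_of_ht hX01 _ (by
    intro x hx
    obtain ⟨p, hp, rfl⟩ := Finset.mem_image.mp hx
    exact (Finset.mem_filter.mp hp).2.le))
  have c2' := hcov2 s2 (Finset.filter_subset _ _) (9 * X0 ^ 2) (card_le_of_ht hX01 _ (by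
    intro x hx
    obtain ⟨p, hp, rfl⟩ := Finset.mem_image.mp hx
    exact (Finset.mem_filter.mp hp).2.le))
  have c3' := hcov1 s3 (Finset.filter_subset _ _) (Cs * X ^ 2 / b0) (hCs X hX1 b0 hb01 _ (by
    intro x hx
    obtain ⟨p, hp, rfl⟩ := Finset.mem_image.mp hx
    obtain ⟨h1, h2, h3⟩ := Finset.mem_filter.mp hp
    exact ⟨h2, (hne p h1).1, h3⟩))
  have c4' := hcov2 s4 (Finset.filter_subset _ _) (Cs' * X ^ 2 / b0) (hCs' X hX1 b0 hb01 _ (by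
    intro x hx
    obtain ⟨p, hp, rfl⟩ := Finset.mem_image.mp hx
    obtain ⟨h1, h2, h3⟩ := Finset.mem_filter.mp hp
    exact ⟨h2, (hne p h1).2, h3⟩))
  have c5' := hCg B hB s5 (by
    intro p hp
    obtain ⟨h1, h2⟩ := Finset.mem_filter.mp hp
    exact ⟨hgood p h1, (hs p h1).2, h2⟩)
  have hu := Finset.card_le_card hcover
  have hu2 : ((s1 ∪ s2 ∪ s3 ∪ s4 ∪ s5).card : ℝ) ≤
      (s1.card : ℝ) + s2.card + s3.card + s4.card + s5.card := by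
    have g1 := Finset.card_union_le (s1 ∪ s2 ∪ s3 ∪ s4) s5
    have g2 := Finset.card_union_le (s1 ∪ s2 ∪ s3) s4
    have g3 := Finset.card_union_le (s1 ∪ s2) s3
    have g4 := Finset.card_union_le s1 s2
    have : (s1 ∪ s2 ∪ s3 ∪ s4 ∪ s5).card ≤ s1.card + s2.card + s3.card + s4.card + s5.card := by
      omega
    exact_mod_cast this
  have hX02 : X0 ^ 2 * B ^ (1 / 4000 : ℝ) ≤ B ^ (199 / 200 : ℝ) := by
    rw [hX0, ← Real.rpow_natCast, ← Real.rpow_mul hBp.le, ← Real.rpow_add hBp]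
    apply Real.rpow_le_rpow_of_exponent_le hB
    norm_num
  have hX2b : X ^ 2 / b0 * B ^ (1 / 4000 : ℝ) ≤ B ^ (199 / 200 : ℝ) := by
    have e1 : X ^ 2 / b0 ≤ X ^ 2 / B ^ (1 / 95 : ℝ) :=
      div_le_div_of_nonneg_left (by positivity) (by positivity) hbge
    calc X ^ 2 / b0 * B ^ (1 / 4000 : ℝ) ≤ X ^ 2 / B ^ (1 / 95 : ℝ) * B ^ (1 / 4000 : ℝ) := by
          gcongr
      _ ≤ _ := by
        rw [hX, ← Real.rpow_natCast, ← Real.rpow_mul hBp.le, ← Real.rpow_sub hBp,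
          ← Real.rpow_add hBp]
        apply Real.rpow_le_rpow_of_exponent_le hB
        norm_num
  have k1 : (9 * X0 ^ 2) * (Cf * B ^ (1 / 4000 : ℝ)) ≤ 9 * Cf * B ^ (199 / 200 : ℝ) := by
    calc _ = 9 * Cf * (X0 ^ 2 * B ^ (1 / 4000 : ℝ)) := by ring
      _ ≤ _ := by gcongr
  have k3 : (Cs * X ^ 2 / b0) * (Cf * B ^ (1 / 4000 : ℝ)) ≤ Cs * Cf * B ^ (199 / 200 : ℝ) := by
    calc _ = Cs * Cf * (X ^ 2 / b0 * B ^ (1 / 4000 : ℝ)) := by ring
      _ ≤ _ := by gcongr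
  have k4 : (Cs' * X ^ 2 / b0) * (Cf * B ^ (1 / 4000 : ℝ)) ≤ Cs' * Cf * B ^ (199 / 200 : ℝ) := by
    calc _ = Cs' * Cf * (X ^ 2 / b0 * B ^ (1 / 4000 : ℝ)) := by ring
      _ ≤ _ := by gcongr
  have hu' : (s.card : ℝ) ≤ ((s1 ∪ s2 ∪ s3 ∪ s4 ∪ s5).card : ℝ) := by exact_mod_cast hu
  calc (s.card : ℝ) ≤ _ := hu'.trans hu2
    _ ≤ 9 * Cf * B ^ (199 / 200 : ℝ) + 9 * Cf * B ^ (199 / 200 : ℝ) +
        Cs * Cf * B ^ (199 / 200 : ℝ) + Cs' * Cf * B ^ (199 / 200 : ℝ) +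
        Cg * B ^ (199 / 200 : ℝ) := by
        linarith
    _ = _ := by ring

end Pool.Agent.K3N
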