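import Pool.Agent.K3N.Fin3

/-!
The bound for rational branch points.
-/

namespace Pool.Agent.K3N

open Finset Height

lemma ht_div_le {a b : ℤ} (hb : b ≠ 0) : mulHeight₁ ((a : ℚ) / b) ≤ max |(a : ℝ)| |(b : ℝ)| := by
  rw [ht_eq, ← Rat.divInt_eq_div]
  apply max_le_max
  · by_cases ha : a = 0
    · subst ha
      rw [Rat.zero_divInt]
      simp
    · have h1 := Int.le_of_dvd (abs_pos.mpr ha) ((abs_dvd_abs _ _).mpr (Rat.num_dvd a hb))
      exact_mod_cast h1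
  · have h1 := Int.le_of_dvd (abs_pos.mpr hb) ((abs_dvd_abs _ _).mpr (Rat.den_dvd a b))
    exact_mod_cast h1

/-- Heights and Moebius maps. -/
lemma ht_moebius (α β γ δ : ℚ) : ∃ C : ℝ, 1 ≤ C ∧ ∀ x : ℚ, γ * x + δ ≠ 0 →
    mulHeight₁ ((α * x + β) / (γ * x + δ)) ≤ C * mulHeight₁ x := by
  -- common denominator
  obtain ⟨N, hN0, a, b, c, d, ha, hb, hc, hd⟩ : ∃ N : ℤ, N ≠ 0 ∧ ∃ a b c d : ℤ, N * α = a ∧
      N * β = b ∧ N * γ = c ∧ N * δ = d := by
    refine ⟨α.den * β.den * γ.den * δ.den, ?_, α.num * β.den * γ.den * δ.den,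
      α.den * β.num * γ.den * δ.den, α.den * β.den * γ.num * δ.den,
      α.den * β.den * γ.den * δ.num, ?_, ?_, ?_, ?_⟩
    · have := α.den_nz
      have := β.den_nz
      have := γ.den_nz
      have := δ.den_nz
      positivity
    · push_cast; rw [← Rat.mul_den_eq_num α]; ring
    · push_cast; rw [← Rat.mul_den_eq_num β]; ring
    · push_cast; rw [← Rat.mul_den_eq_num γ]; ring
    · push_cast; rw [← Rat.mul_den_eq_num δ]; ring
  set C : ℝ := 1 + |(a : ℝ)| + |(b : ℝ)| + |(c : ℝ)| + |(d : ℝ)| with hC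
  have ha0 := abs_nonneg (a : ℝ)
  have hb0 := abs_nonneg (b : ℝ)
  have hc0 := abs_nonneg (c : ℝ)
  have hd0 := abs_nonneg (d : ℝ)
  refine ⟨C, by linarith, ?_⟩
  intro x hx
  have hNQ : (N : ℚ) ≠ 0 := by exact_mod_cast hN0
  have hden : (x.den : ℚ) ≠ 0 := by exact_mod_cast x.den_nz
  have hxe : x * x.den = x.num := Rat.mul_den_eq_num x
  have e1 : ((c * x.num + d * x.den : ℤ) : ℚ) = N * x.den * (γ * x + δ) := by
    push_cast
    rw [← hc, ← hd, ← hxe]
    ring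
  have e2 : ((a * x.num + b * x.den : ℤ) : ℚ) = N * x.den * (α * x + β) := by
    push_cast
    rw [← ha, ← hb, ← hxe]
    ring
  have hne : (c * x.num + d * x.den : ℤ) ≠ 0 := by
    have : ((c * x.num + d * x.den : ℤ) : ℚ) ≠ 0 := by
      rw [e1]
      exact mul_ne_zero (mul_ne_zero hNQ hden) hx
    exact_mod_cast this
  have e3 : (α * x + β) / (γ * x + δ) =
      ((a * x.num + b * x.den : ℤ) : ℚ) / ((c * x.num + d * x.den : ℤ) : ℚ) := by
    rw [e1, e2]
    field_simp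
  rw [e3]
  refine (ht_div_le hne).trans ?_
  rw [ht_eq]
  set H := max |(x.num : ℝ)| |((x.den : ℤ) : ℝ)| with hH
  have h1 : |(x.num : ℝ)| ≤ H := le_max_left _ _
  have h2 : |((x.den : ℤ) : ℝ)| ≤ H := le_max_right _ _
  have hH0 : 0 ≤ H := (abs_nonneg _).trans h1
  have key : ∀ p q : ℤ, |((p * x.num + q * x.den : ℤ) : ℝ)| ≤ (|(p : ℝ)| + |(q : ℝ)|) * H := by
    intro p q
    rw [Int.cast_add, Int.cast_mul, Int.cast_mul]
    refine (abs_add_le _ _).trans ?_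
    rw [abs_mul, abs_mul]
    calc |(p : ℝ)| * |(x.num : ℝ)| + |(q : ℝ)| * |((x.den : ℤ) : ℝ)| ≤
          |(p : ℝ)| * H + |(q : ℝ)| * H := by gcongr
      _ = _ := by ring
  apply max_le
  · refine (key a b).trans (mul_le_mul_of_nonneg_right ?_ hH0)
    linarith
  · refine (key c d).trans (mul_le_mul_of_nonneg_right ?_ hH0)
    linarith

lemma ht_affine (α β : ℚ) : ∃ C : ℝ, 1 ≤ C ∧ ∀ x : ℚ,
    mulHeight₁ (α * x + β) ≤ C * mulHeight₁ x := by
  obtain ⟨C, hC, h⟩ := ht_moebius α β 0 1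
  refine ⟨C, hC, fun x => ?_⟩
  have := h x (by simp)
  simpa using this

/-- Integral scaling. -/
lemma exists_integral (θ : Fin 3 → ℚ) (hθ : Function.Injective θ) : ∃ (u t : ℚ)
    (φ : Fin 3 → ℤ), u ≠ 0 ∧ Function.Injective φ ∧ φ 0 + φ 1 + φ 2 = 0 ∧
      ∀ k, (φ k : ℚ) = u ^ 2 * θ k + t := by
  set N : ℤ := (θ 0).den * (θ 1).den * (θ 2).den with hN
  have hN0 : (N : ℚ) ≠ 0 := by
    have := (θ 0).den_nz
    have := (θ 1).den_nz
    have := (θ 2).den_nz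
    rw [hN]
    positivity
  obtain ⟨n, hn⟩ : ∃ n : Fin 3 → ℤ, ∀ k, (n k : ℚ) = N * θ k := by
    refine ⟨![(θ 0).num * (θ 1).den * (θ 2).den, (θ 0).den * (θ 1).num * (θ 2).den,
      (θ 0).den * (θ 1).den * (θ 2).num], ?_⟩
    intro k
    fin_cases k
    · simp only [Fin.zero_eta, Matrix.cons_val_zero, hN]
      push_cast
      rw [← Rat.mul_den_eq_num (θ 0)]; ring
    · simp only [Fin.mk_one, Matrix.cons_val_one, Matrix.cons_val_zero, hN]
      push_cast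
      rw [← Rat.mul_den_eq_num (θ 1)]; ring
    · simp only [Fin.reduceFinMk, Matrix.cons_val, hN]
      push_cast
      rw [← Rat.mul_den_eq_num (θ 2)]; ring
  have hu : (3 * N : ℚ) ≠ 0 := mul_ne_zero (by norm_num) hN0
  refine ⟨3 * N, -(3 * N * (n 0 + n 1 + n 2)), fun k => 9 * N * n k - 3 * N * (n 0 + n 1 + n 2),
    hu, ?_, by ring, ?_⟩
  · intro i j hij
    apply hθ
    have h1 : (9 * N * n i - 3 * N * (n 0 + n 1 + n 2) : ℤ) =
      9 * N * n j - 3 * N * (n 0 + n 1 + n 2) := hij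
    have h2 : (9 * N * n i : ℚ) = 9 * N * n j := by
      have : 9 * N * n i = 9 * N * n j := by linarith
      exact_mod_cast this
    rw [hn, hn] at h2
    have h3 : (9 * N * N : ℚ) * θ i = 9 * N * N * θ j := by linear_combination h2
    exact mul_left_cancel₀ (mul_ne_zero (mul_ne_zero (by norm_num) hN0) hN0) h3
  · intro k
    push_cast
    rw [hn k]
    ring

/-- The bound for all rational branch points. -/
theorem rat_main (θ θ' : Fin 3 → ℚ) (hθ : Function.Injective θ) (hθ' : Function.Injective θ') :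
    ∃ C : ℝ, 0 ≤ C ∧ ∀ B : ℝ, 1 ≤ B → ∀ s : Finset (ℚ × ℚ × ℚ), (∀ p ∈ s,
      p.2.2 ^ 2 = fcub θ p.1 * fcub θ' p.2.1 ∧ p.2.2 ≠ 0 ∧
      mulHeight₁ p.1 * mulHeight₁ p.2.1 ≤ B ∧ ¬ OnGraph θ θ' p.1 p.2.1) →
      (s.card : ℝ) ≤ C * B ^ (199 / 200 : ℝ) := by
  classical
  obtain ⟨u, t, φ, hu, hφ, hφ0, hφe⟩ := exists_integral θ hθ
  obtain ⟨u', t', φ', hu', hφ', hφ0', hφe'⟩ := exists_integral θ' hθ'
  obtain ⟨C, hC0, hC⟩ := int_main hφ hφ' hφ0 hφ0'
  obtain ⟨H1, hH1, h1⟩ := ht_affine (u ^ 2) t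
  obtain ⟨H2, hH2, h2⟩ := ht_affine (u' ^ 2) t'
  refine ⟨C * (H1 * H2) ^ (199 / 200 : ℝ), by positivity, ?_⟩
  intro B hB s hs
  let f : ℚ × ℚ × ℚ → ℚ × ℚ × ℚ := fun p =>
    (u ^ 2 * p.1 + t, u' ^ 2 * p.2.1 + t', u ^ 3 * u' ^ 3 * p.2.2)
  have hinj : Function.Injective f := by
    intro p q h
    simp only [f, Prod.mk.injEq] at h
    obtain ⟨e1, e2, e3⟩ := h
    refine Prod.ext ?_ (Prod.ext ?_ ?_)
    · exact mul_left_cancel₀ (pow_ne_zero 2 hu) (by linarith)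
    · exact mul_left_cancel₀ (pow_ne_zero 2 hu') (by linarith)
    · exact mul_left_cancel₀ (mul_ne_zero (pow_ne_zero 3 hu) (pow_ne_zero 3 hu')) e3
  have hfc : ∀ x, fcub (fun k => (φ k : ℚ)) (u ^ 2 * x + t) = u ^ 6 * fcub θ x := by
    intro x
    simp only [fcub, hφe]
    ring
  have hfc' : ∀ x, fcub (fun k => (φ' k : ℚ)) (u' ^ 2 * x + t') = u' ^ 6 * fcub θ' x := by
    intro x
    simp only [fcub, hφe']
    ring
  have hq : ∀ X Y, quart (fun k => (φ k : ℚ)) (u ^ 2 * X + t * Y) Y = u ^ 6 * quart θ X Y := by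
    intro X Y
    simp only [quart, hφe]
    ring
  have hq' : ∀ X Y, quart (fun k => (φ' k : ℚ)) (u' ^ 2 * X + t' * Y) Y =
      u' ^ 6 * quart θ' X Y := by
    intro X Y
    simp only [quart, hφe']
    ring
  rw [← Finset.card_image_of_injective s hinj]
  have hHH : 1 ≤ H1 * H2 := by nlinarith
  have hmain := hC (H1 * H2 * B) (by nlinarith) (s.image f) (by
    intro q hq'q
    obtain ⟨p, hp, rfl⟩ := Finset.mem_image.mp hq'q
    obtain ⟨g1, g2, g3, g4⟩ := hs p hp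
    refine ⟨⟨?_, ?_, ?_⟩, ?_⟩
    · simp only [f]
      rw [hfc, hfc']
      linear_combination (u ^ 6 * u' ^ 6) * g1
    · exact mul_ne_zero (mul_ne_zero (pow_ne_zero 3 hu) (pow_ne_zero 3 hu')) g2
    · simp only [f]
      have a1 := h1 p.1
      have a2 := h2 p.2.1
      have b1 := one_le_mulHeight₁ p.1
      have b2 := one_le_mulHeight₁ p.2.1
      calc mulHeight₁ (u ^ 2 * p.1 + t) * mulHeight₁ (u' ^ 2 * p.2.1 + t') ≤
            (H1 * mulHeight₁ p.1) * (H2 * mulHeight₁ p.2.1) := by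
            gcongr
        _ = H1 * H2 * (mulHeight₁ p.1 * mulHeight₁ p.2.1) := by ring
        _ ≤ H1 * H2 * B := by gcongr
    · intro hG
      apply g4
      obtain ⟨α, β, γ, δ, c, hc, hG, hz⟩ := hG
      simp only [f] at hz
      refine ⟨(α * u ^ 2 - t' * (γ * u ^ 2)) / u' ^ 2,
        ((α * t + β) - t' * (γ * t + δ)) / u' ^ 2, γ * u ^ 2, γ * t + δ, c * u ^ 3 / u' ^ 3,
        div_ne_zero (mul_ne_zero hc (pow_ne_zero 3 hu)) (pow_ne_zero 3 hu'), ?_, ?_⟩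
      · intro X Y
        have k1 := hG (u ^ 2 * X + t * Y) Y
        rw [hq] at k1
        have k2 := hq' ((α * u ^ 2 - t' * (γ * u ^ 2)) / u' ^ 2 * X +
          ((α * t + β) - t' * (γ * t + δ)) / u' ^ 2 * Y) (γ * u ^ 2 * X + (γ * t + δ) * Y)
        have k3 : u' ^ 2 * ((α * u ^ 2 - t' * (γ * u ^ 2)) / u' ^ 2 * X +
            ((α * t + β) - t' * (γ * t + δ)) / u' ^ 2 * Y) +
            t' * (γ * u ^ 2 * X + (γ * t + δ) * Y) =
            α * (u ^ 2 * X + t * Y) + β * Y := by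
          field_simp
          ring
        have k4 : γ * u ^ 2 * X + (γ * t + δ) * Y = γ * (u ^ 2 * X + t * Y) + δ * Y := by ring
        rw [k3, k4] at k2
        rw [k2] at k1
        rw [k4]
        have k5 : u' ^ 6 * quart θ' ((α * u ^ 2 - t' * (γ * u ^ 2)) / u' ^ 2 * X +
            ((α * t + β) - t' * (γ * t + δ)) / u' ^ 2 * Y)
            (γ * (u ^ 2 * X + t * Y) + δ * Y) =
            u' ^ 6 * ((c * u ^ 3 / u' ^ 3) ^ 2 * quart θ X Y) := by
          rw [k1]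
          field_simp
        exact mul_left_cancel₀ (pow_ne_zero 6 hu') k5
      · field_simp
        linear_combination hz)
  refine hmain.trans ?_
  rw [Real.mul_rpow (by positivity) (by positivity)]
  exact le_of_eq (by ring)

end Pool.Agent.K3N
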