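import Mathlib.Data.Nat.Squarefree
import Mathlib.Data.Nat.Factorization.Basic
import Mathlib.Tactic

/-!
Squarefree parts of four pairwise almost coprime numbers.
-/

namespace Pool.Agent.K3N

open Finset

/-- The square part. -/
noncomputable def sq (n : ℕ) : ℕ := (Nat.sq_mul_squarefree n).choose_spec.choose

/-- The squarefree part. -/
noncomputable def sf (n : ℕ) : ℕ := (Nat.sq_mul_squarefree n).choose

lemma sq_sf (n : ℕ) : sq n ^ 2 * sf n = n :=
  (Nat.sq_mul_squarefree n).choose_spec.choose_spec.1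

lemma squarefree_sf (n : ℕ) : Squarefree (sf n) :=
  (Nat.sq_mul_squarefree n).choose_spec.choose_spec.2

lemma sf_ne_zero (n : ℕ) : sf n ≠ 0 := (squarefree_sf n).ne_zero

lemma sf_pos (n : ℕ) : 0 < sf n := Nat.pos_of_ne_zero (sf_ne_zero n)

lemma sq_ne_zero {n : ℕ} (hn : n ≠ 0) : sq n ≠ 0 := by
  intro h
  apply hn
  rw [← sq_sf n, h]
  simp

lemma sf_dvd (n : ℕ) : sf n ∣ n := ⟨sq n ^ 2, by rw [mul_comm, sq_sf]⟩

lemma sf_fac_le (n p : ℕ) : (sf n).factorization p ≤ 1 :=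
  (squarefree_sf n).natFactorization_le_one p

lemma fac_eq {n : ℕ} (hn : n ≠ 0) (p : ℕ) :
    n.factorization p = 2 * (sq n).factorization p + (sf n).factorization p := by
  conv_lhs => rw [← sq_sf n]
  rw [Nat.factorization_mul (pow_ne_zero 2 (sq_ne_zero hn)) (sf_ne_zero n), Nat.factorization_pow]
  simp

lemma sqf_dvd {n m : ℕ} (hn : Squarefree n) (h : ∀ p : ℕ, p.Prime → p ∣ n → p ∣ m) : n ∣ m := by
  rw [← Nat.prod_primeFactors_of_squarefree hn]
  apply Finset.prod_primes_dvd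
  · intro p hp
    exact (Nat.prime_of_mem_primeFactors hp).prime
  · intro p hp
    exact h p (Nat.prime_of_mem_primeFactors hp) (Nat.dvd_of_mem_primeFactors hp)

lemma sqf_eq_of_mul {a b c : ℕ} (ha : Squarefree a) (hb : Squarefree b) (h : a * b = c ^ 2) :
    a = b := by
  apply Nat.eq_of_factorization_eq ha.ne_zero hb.ne_zero
  intro p
  have h1 := congrArg (fun n => n.factorization p) h
  simp only [Nat.factorization_mul ha.ne_zero hb.ne_zero, Nat.factorization_pow] at h1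
  have h2 := ha.natFactorization_le_one p
  have h3 := hb.natFactorization_le_one p
  simp at h1
  omega

section Four

variable {l l' : Fin 4 → ℕ} {Δ Δ' y : ℕ}

lemma sf_dvd_prod (hl : ∀ i, l i ≠ 0) (hl' : ∀ i, l' i ≠ 0)
    (hg : ∀ i j, i ≠ j → Nat.gcd (l i) (l j) ∣ Δ)
    (hy : (∏ i, l i) * (∏ j, l' j) = y ^ 2) (i : Fin 4) :
    sf (l i) ∣ Δ * ∏ j, sf (l' j) := by
  apply sqf_dvd (squarefree_sf _)
  intro p hp hpd
  by_cases hΔ : p ∣ Δ
  · exact hΔ.mul_right _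
  apply Dvd.dvd.mul_left
  have hpl : p ∣ l i := hpd.trans (sf_dvd _)
  have h0 : ∀ i', i' ≠ i → (l i').factorization p = 0 := by
    intro i' hi'
    apply Nat.factorization_eq_zero_of_not_dvd
    intro hd
    exact hΔ ((Nat.dvd_gcd hpl hd).trans (hg i i' hi'.symm))
  have h1 : (∏ i, l i).factorization p = (l i).factorization p := by
    rw [Nat.factorization_prod (fun i _ => hl i)]
    simp only [Finsupp.coe_finsetSum, Finset.sum_apply]
    rw [Finset.sum_eq_single i (fun i' _ hi' => h0 i' hi') (by simp)]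
  have h2 : (sf (l i)).factorization p = 1 := by
    have := sf_fac_le (l i) p
    have h3 := (hp.dvd_iff_one_le_factorization (sf_ne_zero _)).mp hpd
    omega
  have h3 := fac_eq (hl i) p
  have h4 : ((∏ i, l i) * (∏ j, l' j)).factorization p =
      (∏ i, l i).factorization p + (∏ j, l' j).factorization p := by
    rw [Nat.factorization_mul (Finset.prod_ne_zero_iff.mpr (fun i _ => hl i))
      (Finset.prod_ne_zero_iff.mpr (fun i _ => hl' i))]
    simp
  have h5 : (y ^ 2).factorization p = 2 * y.factorization p := by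
    rw [Nat.factorization_pow]; simp
  have h6 : (∏ j, l' j).factorization p = ∑ j, (l' j).factorization p := by
    rw [Nat.factorization_prod (fun i _ => hl' i)]
    simp only [Finsupp.coe_finsetSum, Finset.sum_apply]
  by_contra hno
  have h7 : ∀ j, (l' j).factorization p = 2 * (sq (l' j)).factorization p := by
    intro j
    rw [fac_eq (hl' j) p]
    have : (sf (l' j)).factorization p = 0 := by
      apply Nat.factorization_eq_zero_of_not_dvd
      intro hd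
      exact hno (hd.trans (Finset.dvd_prod_of_mem _ (Finset.mem_univ j)))
    omega
  rw [hy, h5, h1, h3, h2, h6] at h4
  simp only [h7] at h4
  rw [← Finset.mul_sum] at h4
  omega

lemma sq_prod_dvd (hg : ∀ i j, i ≠ j → Nat.gcd (l i) (l j) ∣ Δ)
    (hΔ0 : Δ ≠ 0) : sq (∏ i, sf (l i)) ∣ Δ ^ 2 := by
  have hW : (∏ i, sf (l i)) ≠ 0 := Finset.prod_ne_zero_iff.mpr (fun i _ => sf_ne_zero _)
  rw [← Nat.factorization_prime_le_iff_dvd (sq_ne_zero hW) (pow_ne_zero 2 hΔ0)]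
  intro p hp
  have h1 := fac_eq hW p
  have h2 : (∏ i, sf (l i)).factorization p = ∑ i, (sf (l i)).factorization p := by
    rw [Nat.factorization_prod (fun i _ => sf_ne_zero _)]
    simp only [Finsupp.coe_finsetSum, Finset.sum_apply]
  have h3 : ∑ i, (sf (l i)).factorization p ≤ 4 := by
    calc _ ≤ ∑ i : Fin 4, 1 := Finset.sum_le_sum (fun i _ => sf_fac_le _ _)
      _ = 4 := by simp
  have h4 : (Δ ^ 2).factorization p = 2 * Δ.factorization p := by
    rw [Nat.factorization_pow]; simp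
  rw [h4]
  by_cases hpΔ : p ∣ Δ
  · have h5 := (hp.dvd_iff_one_le_factorization hΔ0).mp hpΔ
    omega
  · have h5 : ∑ i, (sf (l i)).factorization p ≤ 1 := by
      by_cases hex : ∃ i, p ∣ sf (l i)
      · obtain ⟨i, hi⟩ := hex
        rw [Finset.sum_eq_single i]
        · exact sf_fac_le _ _
        · intro j _ hj
          apply Nat.factorization_eq_zero_of_not_dvd
          intro hd
          exact hpΔ ((Nat.dvd_gcd (hi.trans (sf_dvd _)) (hd.trans (sf_dvd _))).trans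
            (hg i j hj.symm))
        · simp
      · push Not at hex
        rw [Finset.sum_eq_zero]
        · omega
        · intro i _
          exact Nat.factorization_eq_zero_of_not_dvd (hex i)
    omega

lemma sf_prod_eq (hl : ∀ i, l i ≠ 0) (hl' : ∀ i, l' i ≠ 0)
    (hy : (∏ i, l i) * (∏ j, l' j) = y ^ 2) :
    sf (∏ i, sf (l i)) = sf (∏ j, sf (l' j)) := by
  set A := ∏ i, sq (l i) with hA
  set A' := ∏ i, sq (l' i) with hA'
  set W := ∏ i, sf (l i) with hW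
  set W' := ∏ i, sf (l' i) with hW'
  have hA0 : A ≠ 0 := Finset.prod_ne_zero_iff.mpr (fun i _ => sq_ne_zero (hl i))
  have hA'0 : A' ≠ 0 := Finset.prod_ne_zero_iff.mpr (fun i _ => sq_ne_zero (hl' i))
  have h1 : ∏ i, l i = A ^ 2 * W := by
    rw [hA, hW, ← Finset.prod_pow, ← Finset.prod_mul_distrib]
    exact Finset.prod_congr rfl (fun i _ => (sq_sf _).symm)
  have h2 : ∏ i, l' i = A' ^ 2 * W' := by
    rw [hA', hW', ← Finset.prod_pow, ← Finset.prod_mul_distrib]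
    exact Finset.prod_congr rfl (fun i _ => (sq_sf _).symm)
  have hd : (A * A') ^ 2 ∣ y ^ 2 := ⟨W * W', by rw [← hy, h1, h2]; ring⟩
  obtain ⟨c, hc⟩ := (Nat.pow_dvd_pow_iff (by norm_num)).mp hd
  have h3 : W * W' = c ^ 2 := by
    have : (A * A') ^ 2 * (W * W') = (A * A') ^ 2 * c ^ 2 := by
      rw [← mul_pow, ← hc, ← hy, h1, h2]; ring
    exact Nat.eq_of_mul_eq_mul_left (by positivity) this
  have hd2 : (sq W * sq W') ^ 2 ∣ c ^ 2 := ⟨sf W * sf W', by
    rw [← h3]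
    conv_lhs => rw [← sq_sf W, ← sq_sf W']
    ring⟩
  obtain ⟨e, he⟩ := (Nat.pow_dvd_pow_iff (by norm_num)).mp hd2
  have hW0 : W ≠ 0 := Finset.prod_ne_zero_iff.mpr (fun i _ => sf_ne_zero _)
  have hW'0 : W' ≠ 0 := Finset.prod_ne_zero_iff.mpr (fun i _ => sf_ne_zero _)
  have hs0 : sq W ≠ 0 := sq_ne_zero hW0
  have hs0' : sq W' ≠ 0 := sq_ne_zero hW'0
  apply sqf_eq_of_mul (squarefree_sf _) (squarefree_sf _) (c := e)
  have : (sq W * sq W') ^ 2 * (sf W * sf W') = (sq W * sq W') ^ 2 * e ^ 2 := by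
    rw [← mul_pow, ← he, ← h3]
    conv_rhs => rw [← sq_sf W, ← sq_sf W']
    ring
  exact Nat.eq_of_mul_eq_mul_left (by positivity) this

/-- The relation between the two products. -/
lemma sf_relation (hl : ∀ i, l i ≠ 0) (hl' : ∀ i, l' i ≠ 0)
    (hy : (∏ i, l i) * (∏ j, l' j) = y ^ 2) :
    (sq (∏ i, sf (l' i)) * ∏ i, sq (l' i)) ^ 2 * ∏ i, l i =
      (sq (∏ i, sf (l i)) * ∏ i, sq (l i)) ^ 2 * ∏ i, l' i := by
  have h := sf_prod_eq hl hl' hy
  have h1 : ∏ i, l i = (∏ i, sq (l i)) ^ 2 * ∏ i, sf (l i) := by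
    rw [← Finset.prod_pow, ← Finset.prod_mul_distrib]
    exact Finset.prod_congr rfl (fun i _ => (sq_sf _).symm)
  have h2 : ∏ i, l' i = (∏ i, sq (l' i)) ^ 2 * ∏ i, sf (l' i) := by
    rw [← Finset.prod_pow, ← Finset.prod_mul_distrib]
    exact Finset.prod_congr rfl (fun i _ => (sq_sf _).symm)
  rw [h1, h2]
  have h3 := sq_sf (∏ i, sf (l i))
  have h4 := sq_sf (∏ i, sf (l' i))
  rw [h] at h3
  generalize sq (∏ i, sf (l i)) = b at *
  generalize sq (∏ i, sf (l' i)) = b' at *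
  generalize sf (∏ i, sf (l' i)) = c at *
  rw [← h3, ← h4]
  ring

lemma dvd_gcd_prod {d N : ℕ} (f : Fin 4 → ℕ) (h : d ∣ N * ∏ j, f j) :
    d ∣ N * ∏ j, Nat.gcd d (f j) := by
  rw [Fin.prod_univ_four] at h ⊢
  have h1 : Nat.gcd d (N * (f 0 * f 1 * f 2 * f 3)) = d := Nat.gcd_eq_left h
  have h2 := Nat.gcd_mul_right_dvd_mul_gcd d N (f 0 * f 1 * f 2 * f 3)
  have h3 := Nat.gcd_mul_right_dvd_mul_gcd d (f 0 * f 1 * f 2) (f 3)
  have h4 := Nat.gcd_mul_right_dvd_mul_gcd d (f 0 * f 1) (f 2)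
  have h5 := Nat.gcd_mul_right_dvd_mul_gcd d (f 0) (f 1)
  rw [h1] at h2
  have h6 : Nat.gcd d N ∣ N := Nat.gcd_dvd_right _ _
  have h7 : Nat.gcd d (f 0 * f 1 * f 2) ∣ Nat.gcd d (f 0) * Nat.gcd d (f 1) * Nat.gcd d (f 2) :=
    h4.trans (Nat.mul_dvd_mul_right h5 _)
  have h8 : Nat.gcd d (f 0 * f 1 * f 2 * f 3) ∣
      Nat.gcd d (f 0) * Nat.gcd d (f 1) * Nat.gcd d (f 2) * Nat.gcd d (f 3) :=
    h3.trans (Nat.mul_dvd_mul_right h7 _)
  exact h2.trans (Nat.mul_dvd_mul h6 h8)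

lemma exists_big_gcd (hΔ0 : Δ ≠ 0) {d : ℕ} (hd0 : d ≠ 0) (f : Fin 4 → ℕ)
    (h : d ∣ Δ * ∏ j, f j) : ∃ j, d ≤ Δ * Nat.gcd d (f j) ^ 4 := by
  have hgp : ∀ j, 0 < Nat.gcd d (f j) := fun j => Nat.gcd_pos_of_pos_left _
    (Nat.pos_of_ne_zero hd0)
  have h1 := Nat.le_of_dvd (Nat.mul_pos (Nat.pos_of_ne_zero hΔ0)
    (Finset.prod_pos (fun j _ => hgp j))) (dvd_gcd_prod f h)
  obtain ⟨j, _, hj⟩ := Finset.exists_max_image (Finset.univ : Finset (Fin 4))
    (fun j => Nat.gcd d (f j)) ⟨0, Finset.mem_univ _⟩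
  refine ⟨j, h1.trans (Nat.mul_le_mul_left _ ?_)⟩
  calc ∏ i, Nat.gcd d (f i) ≤ ∏ i : Fin 4, Nat.gcd d (f j) :=
        Finset.prod_le_prod' (fun i _ => hj i (Finset.mem_univ i))
    _ = _ := by simp

end Four

/-- Three numbers with small pairwise gcds dividing `N`. -/
lemma three_dvd {a b c N Δ : ℕ} (ha : a ∣ N) (hb : b ∣ N) (hc : c ∣ N) (hab : Nat.gcd a b ∣ Δ)
    (hac : Nat.gcd a c ∣ Δ) (hbc : Nat.gcd b c ∣ Δ) : a * b * c ∣ N * Δ ^ 3 := by
  have h1 : Nat.lcm a b ∣ N := Nat.lcm_dvd ha hb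
  have h2 : Nat.gcd (Nat.lcm a b) c ∣ Δ ^ 2 := by
    have h3 : Nat.gcd c (Nat.lcm a b) ∣ Nat.gcd c (a * b) :=
      Nat.gcd_dvd_gcd_of_dvd_right _ (Nat.lcm_dvd_mul a b)
    have h4 := Nat.gcd_mul_right_dvd_mul_gcd c a b
    rw [Nat.gcd_comm c a, Nat.gcd_comm c b] at h4
    rw [Nat.gcd_comm]
    exact (h3.trans h4).trans (by rw [pow_two]; exact Nat.mul_dvd_mul hac hbc)
  have h5 : Nat.lcm (Nat.lcm a b) c ∣ N := Nat.lcm_dvd h1 hc
  have h6 : Nat.lcm a b * c ∣ Δ ^ 2 * N := by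
    rw [← Nat.gcd_mul_lcm (Nat.lcm a b) c]
    exact Nat.mul_dvd_mul h2 h5
  have h7 : a * b = Nat.gcd a b * Nat.lcm a b := (Nat.gcd_mul_lcm a b).symm
  rw [h7, mul_assoc]
  have := Nat.mul_dvd_mul hab h6
  refine this.trans (dvd_of_eq (by ring))

end Pool.Agent.K3N
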