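import Pool.Agent.K3N.Curve
import Pool.Agent.K3N.Sqf

/-!
Four linear forms on `ℤ^2`; points in one data class lie on a plane cubic.
-/

namespace Pool.Agent.K3N

open Polynomial

/-- Four pairwise independent primitive integral linear forms `p i * r + q i * s`. -/
structure Forms where
  p : Fin 4 → ℤ
  q : Fin 4 → ℤ
  Δ : ℕ
  κ : ℕ
  cop : ∀ i, IsCoprime (p i) (q i)
  nz : ∀ i j, i ≠ j → p i * q j - p j * q i ≠ 0
  dvd : ∀ i j, i ≠ j → (p i * q j - p j * q i) ∣ (Δ : ℤ)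
  pos : 0 < Δ
  bd : ∀ i, |p i| + |q i| ≤ κ

namespace Forms

variable (F : Forms)

/-- The value of the `i`-th form. -/
def L (i : Fin 4) (r s : ℤ) : ℤ := F.p i * r + F.q i * s

/-- The quartic form over `ℚ`. -/
def G (X Y : ℚ) : ℚ := ∏ i, ((F.p i : ℚ) * X + F.q i * Y)

lemma κ_pos : 1 ≤ F.κ := by
  have h := F.bd 0
  have h1 : ¬ (F.p 0 = 0 ∧ F.q 0 = 0) := by
    rintro ⟨h1, h2⟩
    exact F.nz 0 1 (by decide) (by rw [h1, h2]; ring)
  by_contra hk
  have hk : (F.κ : ℤ) = 0 := by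
    have : F.κ = 0 := by omega
    exact_mod_cast this
  rw [hk] at h
  have h2 := abs_nonneg (F.p 0)
  have h3 := abs_nonneg (F.q 0)
  exact h1 ⟨abs_eq_zero.mp (by linarith), abs_eq_zero.mp (by linarith)⟩

lemma dvd_Δ {g : ℤ} {i j : Fin 4} (hij : i ≠ j) {r s : ℤ} (hrs : IsCoprime r s)
    (hi : g ∣ F.L i r s) (hj : g ∣ F.L j r s) : g ∣ (F.Δ : ℤ) := by
  refine dvd_trans ?_ (F.dvd i j hij)
  obtain ⟨a, b, hab⟩ := hrs
  have h1 : g ∣ (F.p i * F.q j - F.p j * F.q i) * r := by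
    have : (F.p i * F.q j - F.p j * F.q i) * r = F.q j * F.L i r s - F.q i * F.L j r s := by
      unfold L; ring
    rw [this]
    exact dvd_sub (hi.mul_left _) (hj.mul_left _)
  have h2 : g ∣ (F.p i * F.q j - F.p j * F.q i) * s := by
    have : (F.p i * F.q j - F.p j * F.q i) * s = F.p i * F.L j r s - F.p j * F.L i r s := by
      unfold L; ring
    rw [this]
    exact dvd_sub (hj.mul_left _) (hi.mul_left _)
  have : F.p i * F.q j - F.p j * F.q i = a * ((F.p i * F.q j - F.p j * F.q i) * r) +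
      b * ((F.p i * F.q j - F.p j * F.q i) * s) := by
    linear_combination (-(F.p i * F.q j - F.p j * F.q i)) * hab
  rw [this]
  exact dvd_add (h1.mul_left _) (h2.mul_left _)

lemma gcd_dvd {i j : Fin 4} (hij : i ≠ j) {r s : ℤ} (hrs : IsCoprime r s) :
    Nat.gcd (F.L i r s).natAbs (F.L j r s).natAbs ∣ F.Δ := by
  rw [← Int.natCast_dvd_natCast]
  apply F.dvd_Δ hij hrs
  · rw [Int.natCast_dvd]
    exact Nat.gcd_dvd_left _ _
  · rw [Int.natCast_dvd]
    exact Nat.gcd_dvd_right _ _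

lemma L_le {X : ℝ} {r s : ℤ} (hr : |(r : ℝ)| ≤ X) (hs : |(s : ℝ)| ≤ X) (i : Fin 4) :
    |((F.L i r s : ℤ) : ℝ)| ≤ F.κ * X := by
  have h := F.bd i
  have h1 : |(F.p i : ℝ)| + |(F.q i : ℝ)| ≤ F.κ := by exact_mod_cast h
  have hX : 0 ≤ X := (abs_nonneg _).trans hr
  unfold L
  push_cast
  calc |(F.p i : ℝ) * r + F.q i * s| ≤ |(F.p i : ℝ) * r| + |(F.q i : ℝ) * s| := abs_add_le _ _
    _ = |(F.p i : ℝ)| * |(r : ℝ)| + |(F.q i : ℝ)| * |(s : ℝ)| := by rw [abs_mul, abs_mul]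
    _ ≤ |(F.p i : ℝ)| * X + |(F.q i : ℝ)| * X := by gcongr
    _ = (|(F.p i : ℝ)| + |(F.q i : ℝ)|) * X := by ring
    _ ≤ F.κ * X := by gcongr

lemma large_form (r s : ℤ) : ∃ i : Fin 4, max |(r : ℝ)| |(s : ℝ)| ≤
    2 * F.κ * |((F.L i r s : ℤ) : ℝ)| := by
  have hnz := F.nz 0 1 (by decide)
  have hD : (1 : ℝ) ≤ |((F.p 0 * F.q 1 - F.p 1 * F.q 0 : ℤ) : ℝ)| := by
    rw [← Int.cast_abs]
    exact_mod_cast Int.one_le_abs hnz
  set m := max |((F.L 0 r s : ℤ) : ℝ)| |((F.L 1 r s : ℤ) : ℝ)| with hm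
  have hb0 : |(F.p 0 : ℝ)| + |(F.q 0 : ℝ)| ≤ F.κ := by exact_mod_cast F.bd 0
  have hb1 : |(F.p 1 : ℝ)| + |(F.q 1 : ℝ)| ≤ F.κ := by exact_mod_cast F.bd 1
  have hm0 : |((F.L 0 r s : ℤ) : ℝ)| ≤ m := le_max_left _ _
  have hm1 : |((F.L 1 r s : ℤ) : ℝ)| ≤ m := le_max_right _ _
  have hmn : 0 ≤ m := (abs_nonneg _).trans hm0
  have hp0 := abs_nonneg (F.p 0 : ℝ)
  have hp1 := abs_nonneg (F.p 1 : ℝ)
  have hq0 := abs_nonneg (F.q 0 : ℝ)
  have hq1 := abs_nonneg (F.q 1 : ℝ)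
  have key : ∀ x a b : ℝ, ((F.p 0 * F.q 1 - F.p 1 * F.q 0 : ℤ) : ℝ) * x =
      a * ((F.L 0 r s : ℤ) : ℝ) - b * ((F.L 1 r s : ℤ) : ℝ) → |a| ≤ F.κ → |b| ≤ F.κ →
      |x| ≤ 2 * F.κ * m := by
    intro x a b hx ha hb
    have h1 : |x| ≤ |((F.p 0 * F.q 1 - F.p 1 * F.q 0 : ℤ) : ℝ)| * |x| := by
      nlinarith [abs_nonneg x]
    rw [← abs_mul, hx] at h1
    refine h1.trans ((abs_sub _ _).trans ?_)
    rw [abs_mul, abs_mul]
    have e1 := mul_le_mul ha hm0 (abs_nonneg _) ((abs_nonneg a).trans ha)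
    have e2 := mul_le_mul hb hm1 (abs_nonneg _) ((abs_nonneg b).trans hb)
    linarith
  have hr : |(r : ℝ)| ≤ 2 * F.κ * m := by
    apply key r (F.q 1) (F.q 0)
    · unfold L; push_cast; ring
    · linarith
    · linarith
  have hs : |(s : ℝ)| ≤ 2 * F.κ * m := by
    apply key s (-(F.p 1)) (-(F.p 0))
    · unfold L; push_cast; ring
    · rw [abs_neg]; linarith
    · rw [abs_neg]; linarith
  rcases max_choice |((F.L 0 r s : ℤ) : ℝ)| |((F.L 1 r s : ℤ) : ℝ)| with h | h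
  · refine ⟨0, ?_⟩
    rw [← h]
    exact max_le hr hs
  · refine ⟨1, ?_⟩
    rw [← h]
    exact max_le hr hs

/-- Two points with the same value of the `i`-th form. -/
lemma line_diff (i : Fin 4) {a b : ℤ} (hab : a * F.p i + b * F.q i = 1) {x y : ℤ}
    (h : F.L i x y = 0) : x = (b * x - a * y) * F.q i ∧ y = -((b * x - a * y) * F.p i) := by
  unfold L at h
  constructor
  · linear_combination (-x) * hab + a * h
  · linear_combination (-y) * hab + b * h

lemma L_add (i : Fin 4) (r s x y : ℤ) : F.L i (r + x) (s + y) = F.L i r s + F.L i x y := by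
  unfold L; ring

lemma L_sub (i : Fin 4) (r s x y : ℤ) : F.L i (r - x) (s - y) = F.L i r s - F.L i x y := by
  unfold L; ring

end Forms

/-- The point `((r : s), (u : v))` lies on the graph of a Moebius transformation that carries
the zeros of the first quartic form to the zeros of the second one, with a square constant. -/
def OnGr (F F' : Forms) (r s u v : ℤ) : Prop :=
  ∃ α β γ δ c : ℚ, c ≠ 0 ∧ (∀ X Y : ℚ, F'.G (α * X + β * Y) (γ * X + δ * Y) = c ^ 2 * F.G X Y) ∧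
    (u : ℚ) * (γ * r + δ * s) = v * (α * r + β * s)

/-- The cubic `c ∏ (α k + β k X)`. -/
noncomputable def cub3 (c : ℤ) (α β : Fin 3 → ℤ) : ℤ[X] :=
  C c * ∏ k, (C (β k) * X + C (α k))

lemma cub3_eval (c : ℤ) (α β : Fin 3 → ℤ) (t : ℤ) :
    (cub3 c α β).eval t = c * ∏ k, (β k * t + α k) := by
  unfold cub3
  rw [eval_mul, eval_C, eval_prod]
  simp

lemma cub3_natDegree {c : ℤ} (hc : c ≠ 0) {α β : Fin 3 → ℤ} (hβ : ∀ k, β k ≠ 0) :
    (cub3 c α β).natDegree = 3 := by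
  unfold cub3
  rw [natDegree_C_mul hc, natDegree_prod _ _ (fun k _ => by
    intro h
    have := natDegree_linear (a := β k) (b := α k) (hβ k)
    rw [h, natDegree_zero] at this
    omega)]
  rw [Finset.sum_congr rfl (fun k _ => natDegree_linear (hβ k))]
  simp

lemma cub3_deriv (c : ℤ) (α β : Fin 3 → ℤ) (t : ℤ) :
    (derivative (cub3 c α β)).eval t = c * (β 0 * ((β 1 * t + α 1) * (β 2 * t + α 2)) +
      β 1 * ((β 0 * t + α 0) * (β 2 * t + α 2)) + β 2 * ((β 0 * t + α 0) * (β 1 * t + α 1))) := by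
  unfold cub3
  rw [Fin.prod_univ_three]
  simp only [derivative_mul, derivative_C, derivative_add, derivative_X, zero_mul, zero_add,
    mul_one, eval_mul, eval_add, eval_C, eval_X, add_zero]
  ring

/-- Homogeneous form of the identity expressing that a line lies on the cubic curve. -/
lemma hom_identity {c c' : ℤ} {α β α' β' : Fin 3 → ℤ} {l e : ℚ}
    (h : (cub3 c α β).map (Int.castRingHom ℚ) =
      ((cub3 c' α' β').map (Int.castRingHom ℚ)).comp (C l * X + C e)) (S T : ℚ) :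
    (c : ℚ) * ∏ k, ((β k : ℚ) * T + α k * S) =
      c' * ∏ k, ((β' k : ℚ) * (l * T + e * S) + α' k * S) := by
  have hx : ∀ x : ℚ, (c : ℚ) * ∏ k, ((β k : ℚ) * x + α k) =
      c' * ∏ k, ((β' k : ℚ) * (l * x + e) + α' k) := by
    intro x
    have h1 := congrArg (fun R => R.eval x) h
    simp only [cub3, Polynomial.map_mul, Polynomial.map_prod, Polynomial.map_add, map_C, map_X,
      eval_comp, eval_mul, eval_C, eval_prod, eval_add, eval_X] at h1
    simpa only [eq_intCast] using h1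
  simp only [Fin.prod_univ_three] at hx ⊢
  have h0 := hx 0
  have h1 := hx 1
  have h2 := hx (-1)
  have h3 := hx 2
  -- difference of the two cubics, coefficients from four values
  have c0 : (c : ℚ) * (α 0 * α 1 * α 2) = c' * ((β' 0 * e + α' 0) * (β' 1 * e + α' 1) *
      (β' 2 * e + α' 2)) := by linear_combination h0
  have c2 : (c : ℚ) * (β 0 * β 1 * α 2 + β 0 * α 1 * β 2 + α 0 * β 1 * β 2) =
      c' * (β' 0 * l * (β' 1 * l) * (β' 2 * e + α' 2) + β' 0 * l * (β' 1 * e + α' 1) * (β' 2 * l) +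
        (β' 0 * e + α' 0) * (β' 1 * l) * (β' 2 * l)) := by
    linear_combination (1 / 2) * h1 + (1 / 2) * h2 - h0
  have c3 : (c : ℚ) * (β 0 * β 1 * β 2) = c' * (β' 0 * l * (β' 1 * l) * (β' 2 * l)) := by
    linear_combination (1 / 6) * h3 - (1 / 2) * h1 - (1 / 6) * h2 + (1 / 2) * h0
  have c1 : (c : ℚ) * (β 0 * α 1 * α 2 + α 0 * β 1 * α 2 + α 0 * α 1 * β 2) =
      c' * (β' 0 * l * (β' 1 * e + α' 1) * (β' 2 * e + α' 2) +
        (β' 0 * e + α' 0) * (β' 1 * l) * (β' 2 * e + α' 2) +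
        (β' 0 * e + α' 0) * (β' 1 * e + α' 1) * (β' 2 * l)) := by
    linear_combination h1 - c0 - c2 - c3
  linear_combination S ^ 3 * c0 + S ^ 2 * T * c1 + S * T ^ 2 * c2 + T ^ 3 * c3

end Pool.Agent.K3N
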