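import Pool.Agent.K3N.Dat

/-!
Summation over the data.
-/

namespace Pool.Agent.K3N

open Finset

/-- Basic properties of the points to be counted. -/
def Base (F F' : Forms) (X X0 : ℝ) (p : Pt) : Prop :=
  IsCoprime p.1.1 p.1.2 ∧ IsCoprime p.2.1 p.2.2 ∧ (∀ j, F'.L j p.2.1 p.2.2 ≠ 0) ∧
    (|(p.1.1 : ℝ)| ≤ X ∧ |(p.1.2 : ℝ)| ≤ X) ∧ (|(p.2.1 : ℝ)| ≤ X ∧ |(p.2.2 : ℝ)| ≤ X) ∧
    X0 ≤ max |(p.1.1 : ℝ)| |(p.1.2 : ℝ)| ∧ ¬ OnGr F F' p.1.1 p.1.2 p.2.1 p.2.2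

/-- The constant of the curve count. -/
noncomputable def Cr (r : ℕ) : ℝ := 9 * ((r + 1) * 2 ^ (r + 1)) + 9

lemma Cr_pos (r : ℕ) : 0 < Cr r := by unfold Cr; positivity

lemma cube_root_cube {V : ℝ} (hV : 0 ≤ V) : (V ^ (1 / 3 : ℝ)) ^ 3 = V := by
  rw [← Real.rpow_natCast, ← Real.rpow_mul hV]
  norm_num

lemma lev6 (F F' : Forms) (r : ℕ) {X X0 R0 : ℝ} (hX : 1 ≤ X) (hR0 : 1 ≤ R0) {b0 : ℕ}
    (hR : 3 * ((F.Δ : ℝ) ^ 2 * b0 ^ 4) ^ 2 * F'.Δ * (F'.κ * X) ^ 6 ≤ R0 ^ r)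
    {i₀ j₀ : Fin 4} {sg sg' : ℤ} (hsg : sg ∈ ({1, -1} : Finset ℤ))
    (hsg' : sg' ∈ ({1, -1} : Finset ℤ)) {b b' : ℕ} (hb : b ∈ (F.Δ ^ 2).divisors)
    (hb' : b' ∈ (F'.Δ ^ 2).divisors) {a a' : Fin 4 → ℕ} (ha : ∀ i, a i ≠ 0 ∧ a i ≤ b0)
    (ha' : ∀ i, a' i ≠ 0 ∧ a' i ≤ b0) {δ m m' : ℕ} (hδ : δ ≠ 0) (hm : m ≠ 0) (hm' : m' ≠ 0)
    {E E' : Fin 3 → ℕ} (hE : ∀ k, E k ≠ 0) (hE' : ∀ k, E' k ≠ 0) (s : Finset Pt)
    (hs : ∀ p ∈ s, Base F F' X X0 p ∧ Rel F F' i₀ j₀ sg sg' b b' a a' δ m m' E E' p) :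
    (s.card : ℝ) ≤ Cr r * ((8 * (F.Δ : ℝ) ^ 5 * (F'.Δ : ℝ) ^ 5 * X ^ 2 /
      (m * m' * (∏ k, (a (i₀.succAbove k) : ℝ) ^ 2) * ∏ k, (a' (j₀.succAbove k) : ℝ) ^ 2))
        ^ (1 / 3 : ℝ) + 2 * R0) := by
  classical
  rcases s.eq_empty_or_nonempty with rfl | ⟨p₀, hp₀⟩
  · rw [Finset.card_empty]
    have := (Cr_pos r).le
    push_cast
    positivity
  have hrel0 := (hs p₀ hp₀).2
  set P : ℝ := ∏ k, (a (i₀.succAbove k) : ℝ) ^ 2 with hP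
  set P' : ℝ := ∏ k, (a' (j₀.succAbove k) : ℝ) ^ 2 with hP'
  have hP0 : 0 < P := Finset.prod_pos (fun k _ => by
    have := (ha (i₀.succAbove k)).1
    positivity)
  have hP0' : 0 < P' := Finset.prod_pos (fun k _ => by
    have := (ha' (j₀.succAbove k)).1
    positivity)
  have hmR : (0 : ℝ) < m := by exact_mod_cast Nat.pos_of_ne_zero hm
  have hmR' : (0 : ℝ) < m' := by exact_mod_cast Nat.pos_of_ne_zero hm'
  have hΔR : (0 : ℝ) < F.Δ := by exact_mod_cast F.pos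
  have hΔR' : (0 : ℝ) < F'.Δ := by exact_mod_cast F'.pos
  set V : ℝ := 8 * (F.Δ : ℝ) ^ 5 * (F'.Δ : ℝ) ^ 5 * X ^ 2 / (m * m' * P * P') with hV
  have hV0 : 0 ≤ V := by positivity
  set w : ℝ := V ^ (1 / 3 : ℝ) with hw
  have hw0 : 0 ≤ w := by positivity
  have hw3 : w ^ 3 = V := cube_root_cube hV0
  set N : ℕ := ⌈w + R0⌉₊ with hN
  have hNge : w + R0 ≤ N := Nat.le_ceil _
  have hNlt : (N : ℝ) < w + R0 + 1 := Nat.ceil_lt_add_one (by positivity)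
  have hN1 : 1 ≤ N := by
    have : (0 : ℝ) < N := by linarith
    exact_mod_cast this
  have hb1 : b ≤ F.Δ ^ 2 := Nat.le_of_dvd (pow_pos F.pos 2) (Nat.dvd_of_mem_divisors hb)
  have hb0 : b ≠ 0 := fun h => by
    have := Nat.pos_of_mem_divisors hb
    omega
  have hb0' : b' ≠ 0 := fun h => by
    have := Nat.pos_of_mem_divisors hb'
    omega
  have hsz : sg ≠ 0 := by
    simp only [Finset.mem_insert, Finset.mem_singleton] at hsg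
    rcases hsg with rfl | rfl <;> norm_num
  have hsz' : sg' ≠ 0 := by
    simp only [Finset.mem_insert, Finset.mem_singleton] at hsg'
    rcases hsg' with rfl | rfl <;> norm_num
  have hprod : ∏ i, a i ≤ b0 ^ 4 := by
    calc ∏ i, a i ≤ ∏ i : Fin 4, b0 := Finset.prod_le_prod' (fun i _ => (ha i).2)
      _ = _ := by simp
  have key := class_count F F' i₀ j₀ r N hN1
    (n := sg * ((a i₀ ^ 2 * (δ * m) : ℕ) : ℤ)) (n' := sg' * ((a' j₀ ^ 2 * (δ * m') : ℕ) : ℤ))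
    (A := ((b' * ∏ j, a' j : ℕ) : ℤ)) (B := ((b * ∏ i, a i : ℕ) : ℤ))
    (mul_ne_zero hsz (by
      have := (ha i₀).1
      exact_mod_cast Nat.mul_ne_zero (pow_ne_zero 2 this) (Nat.mul_ne_zero hδ hm)))
    (mul_ne_zero hsz' (by
      have := (ha' j₀).1
      exact_mod_cast Nat.mul_ne_zero (pow_ne_zero 2 this) (Nat.mul_ne_zero hδ hm')))
    (by
      exact_mod_cast Nat.mul_ne_zero hb0' (Finset.prod_ne_zero_iff.mpr (fun i _ => (ha' i).1)))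
    (by
      exact_mod_cast Nat.mul_ne_zero hb0 (Finset.prod_ne_zero_iff.mpr (fun i _ => (ha i).1)))
    (G := fun k => E k * a (i₀.succAbove k) ^ 2) (G' := fun k => E' k * a' (j₀.succAbove k) ^ 2)
    (fun k => Nat.mul_ne_zero (hE k) (pow_ne_zero 2 (ha _).1))
    (fun k => Nat.mul_ne_zero (hE' k) (pow_ne_zero 2 (ha' _).1))
    (X := X) (Y := X) s
    (fun p hp => ⟨(hs p hp).1.1, (hs p hp).1.2.1⟩)
    (fun p hp => ⟨(hs p hp).2.1, (hs p hp).2.2.1⟩)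
    (fun p hp k => ⟨(hs p hp).2.2.2.1 k, (hs p hp).2.2.2.2.1 k⟩)
    (fun p hp => (hs p hp).2.2.2.2.2.1)
    (fun p hp => (hs p hp).1.2.2.1)
    (fun p hp => (hs p hp).1.2.2.2.1)
    (fun p hp => (hs p hp).1.2.2.2.2.1)
    (by
      have e1 : (m' : ℝ) ≤ F'.Δ * ∏ k, (E k : ℝ) := by exact_mod_cast hrel0.2.2.2.2.2.1
      have e2 : (m : ℝ) ≤ F.Δ * ∏ k, (E' k : ℝ) := by exact_mod_cast hrel0.2.2.2.2.2.2.1
      have e3 : ∏ k, ((E k * a (i₀.succAbove k) ^ 2 : ℕ) : ℝ) = (∏ k, (E k : ℝ)) * P := by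
        rw [hP, ← Finset.prod_mul_distrib]
        exact Finset.prod_congr rfl (fun k _ => by push_cast; ring)
      have e4 : ∏ k, ((E' k * a' (j₀.succAbove k) ^ 2 : ℕ) : ℝ) = (∏ k, (E' k : ℝ)) * P' := by
        rw [hP', ← Finset.prod_mul_distrib]
        exact Finset.prod_congr rfl (fun k _ => by push_cast; ring)
      rw [e3, e4]
      have hEp : 0 < ∏ k, (E k : ℝ) := Finset.prod_pos (fun k _ => by
        have := hE k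
        positivity)
      have hEp' : 0 < ∏ k, (E' k : ℝ) := Finset.prod_pos (fun k _ => by
        have := hE' k
        positivity)
      have e5 : V ≤ (N : ℝ) ^ 3 := by
        rw [← hw3]
        exact pow_le_pow_left₀ hw0 (by linarith) 3
      have e6 : 8 * (F.Δ : ℝ) ^ 5 * (F'.Δ : ℝ) ^ 5 * X ^ 2 = V * (m * m' * P * P') := by
        rw [hV]; field_simp
      have e7 : (m : ℝ) * m' ≤ (F.Δ * ∏ k, (E' k : ℝ)) * (F'.Δ * ∏ k, (E k : ℝ)) :=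
        mul_le_mul e2 e1 hmR'.le (by positivity)
      have e8 : V * (m * m' * P * P') ≤ (N : ℝ) ^ 3 *
          (((F.Δ * ∏ k, (E' k : ℝ)) * (F'.Δ * ∏ k, (E k : ℝ))) * P * P') := by
        gcongr
      rw [← e6] at e8
      have e9 : (F.Δ * F'.Δ : ℝ) * (8 * (F.Δ : ℝ) ^ 4 * (F'.Δ : ℝ) ^ 4 * X * X) ≤
          (F.Δ * F'.Δ : ℝ) * ((N : ℝ) ^ 3 * ((∏ k, (E k : ℝ)) * P) * ((∏ k, (E' k : ℝ)) * P')) := by
        calc _ = 8 * (F.Δ : ℝ) ^ 5 * (F'.Δ : ℝ) ^ 5 * X ^ 2 := by ring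
          _ ≤ _ := e8
          _ = _ := by ring
      exact le_of_mul_le_mul_left e9 (by positivity))
    (by
      have h1 : (((b * ∏ i, a i : ℕ) : ℤ) : ℝ) ≤ (F.Δ : ℝ) ^ 2 * b0 ^ 4 := by
        have : b * ∏ i, a i ≤ F.Δ ^ 2 * b0 ^ 4 := Nat.mul_le_mul hb1 hprod
        exact_mod_cast this
      calc _ ≤ 3 * ((F.Δ : ℝ) ^ 2 * b0 ^ 4) ^ 2 * F'.Δ * (F'.κ * X) ^ 6 := by
            gcongr
        _ ≤ R0 ^ r := hR
        _ ≤ (N : ℝ) ^ r := pow_le_pow_left₀ (by positivity) (by linarith) r)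
    (fun p hp => (hs p hp).1.2.2.2.2.2.2)
  have h1 : (s.card : ℝ) ≤ 9 * ((r + 1) * (2 ^ (r + 1) * N)) + 9 := by exact_mod_cast key
  have hN1R : (1 : ℝ) ≤ N := by exact_mod_cast hN1
  calc (s.card : ℝ) ≤ 9 * ((r + 1) * (2 ^ (r + 1) * N)) + 9 := h1
    _ ≤ 9 * ((r + 1) * (2 ^ (r + 1) * N)) + 9 * N := by linarith
    _ = Cr r * N := by unfold Cr; ring
    _ ≤ Cr r * (w + 2 * R0) := by
        apply mul_le_mul_of_nonneg_left _ (Cr_pos r).le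
        linarith

lemma lev5 (F F' : Forms) (r : ℕ) {X X0 R0 T : ℝ} (hX : 1 ≤ X) (hR0 : 1 ≤ R0) {b0 : ℕ}
    (hR : 3 * ((F.Δ : ℝ) ^ 2 * b0 ^ 4) ^ 2 * F'.Δ * (F'.κ * X) ^ 6 ≤ R0 ^ r)
    {i₀ j₀ : Fin 4} {sg sg' : ℤ} (hsg : sg ∈ ({1, -1} : Finset ℤ))
    (hsg' : sg' ∈ ({1, -1} : Finset ℤ)) {b b' : ℕ} (hb : b ∈ (F.Δ ^ 2).divisors)
    (hb' : b' ∈ (F'.Δ ^ 2).divisors) {a a' : Fin 4 → ℕ} (ha : ∀ i, a i ≠ 0 ∧ a i ≤ b0)
    (ha' : ∀ i, a' i ≠ 0 ∧ a' i ≤ b0) {δ m m' : ℕ} (hδ : δ ≠ 0) (hm : m ≠ 0) (hm' : m' ≠ 0)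
    (hT : ((δ * m).divisors.card : ℝ) ≤ T) (hT' : ((δ * m').divisors.card : ℝ) ≤ T)
    (s : Finset Pt)
    (hs : ∀ p ∈ s, Base F F' X X0 p ∧ ∃ E E' : Fin 3 → ℕ, (∀ k, E k ≠ 0) ∧ (∀ k, E' k ≠ 0) ∧
      Rel F F' i₀ j₀ sg sg' b b' a a' δ m m' E E' p) :
    (s.card : ℝ) ≤ T ^ 6 * (Cr r * ((8 * (F.Δ : ℝ) ^ 5 * (F'.Δ : ℝ) ^ 5 * X ^ 2 /
      (m * m' * (∏ k, (a (i₀.succAbove k) : ℝ) ^ 2) * ∏ k, (a' (j₀.succAbove k) : ℝ) ^ 2))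
        ^ (1 / 3 : ℝ) + 2 * R0)) := by
  classical
  set W : ℝ := Cr r * ((8 * (F.Δ : ℝ) ^ 5 * (F'.Δ : ℝ) ^ 5 * X ^ 2 /
      (m * m' * (∏ k, (a (i₀.succAbove k) : ℝ) ^ 2) * ∏ k, (a' (j₀.succAbove k) : ℝ) ^ 2))
        ^ (1 / 3 : ℝ) + 2 * R0) with hW
  have hW0 : 0 ≤ W := by
    have := (Cr_pos r).le
    positivity
  have h1 := card_le_sum_of_exists s
    (Fintype.piFinset (fun _ : Fin 3 => (δ * m').divisors) ×ˢ
      Fintype.piFinset (fun _ : Fin 3 => (δ * m).divisors))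
    (fun e p => (∀ k, e.1 k ≠ 0) ∧ (∀ k, e.2 k ≠ 0) ∧
      Rel F F' i₀ j₀ sg sg' b b' a a' δ m m' e.1 e.2 p)
    (by
      intro p hp
      obtain ⟨_, E, E', hE, hE', hrel⟩ := hs p hp
      refine ⟨(E, E'), ?_, hE, hE', hrel⟩
      rw [Finset.mem_product, Fintype.mem_piFinset, Fintype.mem_piFinset]
      refine ⟨fun k => ?_, fun k => ?_⟩
      · exact Nat.mem_divisors.mpr ⟨hrel.2.2.2.2.2.2.2.1 k, Nat.mul_ne_zero hδ hm'⟩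
      · exact Nat.mem_divisors.mpr ⟨hrel.2.2.2.2.2.2.2.2.1 k, Nat.mul_ne_zero hδ hm⟩)
    (fun _ => W)
    (by
      intro e _
      rcases (s.filter (fun p => (∀ k, e.1 k ≠ 0) ∧ (∀ k, e.2 k ≠ 0) ∧
        Rel F F' i₀ j₀ sg sg' b b' a a' δ m m' e.1 e.2 p)).eq_empty_or_nonempty with h | ⟨q, hq⟩
      · rw [h, Finset.card_empty]
        exact_mod_cast hW0
      · obtain ⟨_, hE, hE', _⟩ := Finset.mem_filter.mp hq
        apply lev6 F F' r hX hR0 hR hsg hsg' hb hb' ha ha' hδ hm hm' hE hE'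
        intro p hp
        obtain ⟨hp1, _, _, hp2⟩ := Finset.mem_filter.mp hp
        exact ⟨(hs p hp1).1, hp2⟩)
  rw [Finset.sum_const, nsmul_eq_mul, Finset.card_product, Fintype.card_piFinset,
    Fintype.card_piFinset] at h1
  simp only [Finset.prod_const, Finset.card_univ, Fintype.card_fin] at h1
  push_cast at h1
  refine h1.trans ?_
  apply mul_le_mul_of_nonneg_right _ hW0
  have hT0 : 0 ≤ T := (Nat.cast_nonneg _).trans hT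
  calc ((δ * m').divisors.card : ℝ) ^ 3 * ((δ * m).divisors.card : ℝ) ^ 3 ≤ T ^ 3 * T ^ 3 := by
        gcongr
    _ = T ^ 6 := by ring

end Pool.Agent.K3N
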