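import Pool.Agent.K3N.Sum

/-!
Summation over the remaining data.
-/

namespace Pool.Agent.K3N

open Finset

lemma floor_sum_le {Z : ℝ} (hZ : 0 ≤ Z) :
    ∑ m ∈ Finset.Icc 1 ⌊Z⌋₊, (m : ℝ) ^ (-(1 / 3) : ℝ) ≤ 3 / 2 * Z ^ (2 / 3 : ℝ) := by
  have h1 := sum_rpow_le (2 / 3) (by norm_num) (by norm_num) ⌊Z⌋₊
  have e : (2 / 3 : ℝ) - 1 = -(1 / 3) := by norm_num
  rw [e] at h1
  refine h1.trans ?_
  have h2 : ((⌊Z⌋₊ : ℕ) : ℝ) ^ (2 / 3 : ℝ) ≤ Z ^ (2 / 3 : ℝ) :=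
    Real.rpow_le_rpow (by positivity) (Nat.floor_le hZ) (by norm_num)
  linarith

lemma prod_succAbove_rpow (a : Fin 4 → ℕ) (ha : ∀ i, a i ≠ 0) (i₀ : Fin 4) :
    ((∏ k, (a (i₀.succAbove k) : ℝ) ^ 2)⁻¹) ^ (1 / 3 : ℝ) *
      (((a i₀ : ℝ) ^ 2)⁻¹) ^ (2 / 3 : ℝ) ≤ ∏ i, (a i : ℝ) ^ (-(2 / 3) : ℝ) := by
  have hpos : ∀ i, (0 : ℝ) < a i := fun i => by exact_mod_cast Nat.pos_of_ne_zero (ha i)
  have h1 : ((∏ k, (a (i₀.succAbove k) : ℝ) ^ 2)⁻¹) ^ (1 / 3 : ℝ) =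
      ∏ k, (a (i₀.succAbove k) : ℝ) ^ (-(2 / 3) : ℝ) := by
    rw [← Finset.prod_inv_distrib, ← Real.finsetProd_rpow _ _ (fun k _ => by positivity)]
    apply Finset.prod_congr rfl
    intro k _
    rw [← Real.rpow_natCast, ← Real.rpow_neg (hpos _).le, ← Real.rpow_mul (hpos _).le]
    norm_num
  have h2 : (((a i₀ : ℝ) ^ 2)⁻¹) ^ (2 / 3 : ℝ) ≤ (a i₀ : ℝ) ^ (-(2 / 3) : ℝ) := by
    rw [← Real.rpow_natCast, ← Real.rpow_neg (hpos _).le, ← Real.rpow_mul (hpos _).le]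
    apply Real.rpow_le_rpow_of_exponent_le
    · exact_mod_cast Nat.one_le_iff_ne_zero.mpr (ha i₀)
    · norm_num
  rw [h1, Fin.prod_univ_succAbove _ i₀, mul_comm]
  apply mul_le_mul_of_nonneg_right h2
  exact Finset.prod_nonneg (fun k _ => by positivity)

lemma alg1 {c x p p' k1 k2 u u' d s1 s2 W W' : ℝ} (hc : 0 ≤ c) (hx : 0 ≤ x) (hp : 0 ≤ p)
    (hp' : 0 ≤ p') (hk1 : 0 ≤ k1) (hk2 : 0 ≤ k2) (hu : 0 ≤ u) (hu' : 0 ≤ u') (hd : 0 ≤ d)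
    (hs2 : 0 ≤ s2) (h1 : s1 ≤ 3 / 2 * (k1 * x * (u * d)))
    (h2 : s2 ≤ 3 / 2 * (k2 * x * (u' * d))) (g1 : p * u ≤ W) (g2 : p' * u' ≤ W') :
    c * x * (p * p') * (s1 * s2) ≤
      (x * x * x) * ((9 / 4 * c * (k1 * k2)) * (d * d) * (W * W')) := by
  have e1 : s1 * s2 ≤ (3 / 2 * (k1 * x * (u * d))) * (3 / 2 * (k2 * x * (u' * d))) :=
    mul_le_mul h1 h2 hs2 (by positivity)
  have e2 : (p * u) * (p' * u') ≤ W * W' :=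
    mul_le_mul g1 g2 (by positivity) ((mul_nonneg hp hu).trans g1)
  calc c * x * (p * p') * (s1 * s2) ≤
        c * x * (p * p') * ((3 / 2 * (k1 * x * (u * d))) * (3 / 2 * (k2 * x * (u' * d)))) :=
        mul_le_mul_of_nonneg_left e1 (by positivity)
    _ = (x * x * x) * ((9 / 4 * c * (k1 * k2)) * (d * d) * ((p * u) * (p' * u'))) := by ring
    _ ≤ _ := mul_le_mul_of_nonneg_left (mul_le_mul_of_nonneg_left e2 (by positivity))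
        (by positivity)

lemma lev4 (F F' : Forms) (r : ℕ) {X X0 R0 T : ℝ} (hX : 1 ≤ X) (hR0 : 1 ≤ R0) {b0 : ℕ}
    (hR : 3 * ((F.Δ : ℝ) ^ 2 * b0 ^ 4) ^ 2 * F'.Δ * (F'.κ * X) ^ 6 ≤ R0 ^ r)
    {i₀ j₀ : Fin 4} {sg sg' : ℤ} (hsg : sg ∈ ({1, -1} : Finset ℤ))
    (hsg' : sg' ∈ ({1, -1} : Finset ℤ)) {b b' : ℕ} (hb : b ∈ (F.Δ ^ 2).divisors)
    (hb' : b' ∈ (F'.Δ ^ 2).divisors) {a a' : Fin 4 → ℕ} (ha : ∀ i, a i ≠ 0 ∧ a i ≤ b0)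
    (ha' : ∀ i, a' i ≠ 0 ∧ a' i ≤ b0) {δ : ℕ} (hδ : δ ≠ 0)
    (hT : ∀ n : ℕ, n ≠ 0 → ((n : ℝ) ≤ F.κ * X ∨ (n : ℝ) ≤ F'.κ * X) → (n.divisors.card : ℝ) ≤ T)
    (s : Finset Pt)
    (hs : ∀ p ∈ s, Base F F' X X0 p ∧ ∃ m m' : ℕ, m ≠ 0 ∧ m' ≠ 0 ∧ ∃ E E' : Fin 3 → ℕ,
      (∀ k, E k ≠ 0) ∧ (∀ k, E' k ≠ 0) ∧
      Rel F F' i₀ j₀ sg sg' b b' a a' δ m m' E E' p) :
    (s.card : ℝ) ≤ T ^ 6 * Cr r * X ^ 2 *
      ((9 / 4 * (8 * (F.Δ : ℝ) ^ 5 * (F'.Δ : ℝ) ^ 5) ^ (1 / 3 : ℝ) *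
        (F.κ * F'.κ : ℝ) ^ (2 / 3 : ℝ)) * (δ : ℝ) ^ (-(4 / 3) : ℝ) *
        ((∏ i, (a i : ℝ) ^ (-(2 / 3) : ℝ)) * ∏ i, (a' i : ℝ) ^ (-(2 / 3) : ℝ)) +
        2 * R0 * (F.κ * F'.κ) * (δ : ℝ) ^ (-2 : ℝ)) := by
  classical
  rcases s.eq_empty_or_nonempty with rfl | ⟨p₀, hp₀⟩
  · rw [Finset.card_empty]
    have := (Cr_pos r).le
    have h2 : 0 ≤ T ^ 6 := by positivity
    push_cast
    positivity
  have hδR : (0 : ℝ) < δ := by exact_mod_cast Nat.pos_of_ne_zero hδ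
  have haR : (1 : ℝ) ≤ (a i₀ : ℝ) ^ 2 := by
    have : 1 ≤ a i₀ := Nat.one_le_iff_ne_zero.mpr (ha i₀).1
    have h2 : (1 : ℝ) ≤ a i₀ := by exact_mod_cast this
    nlinarith
  have haR' : (1 : ℝ) ≤ (a' j₀ : ℝ) ^ 2 := by
    have : 1 ≤ a' j₀ := Nat.one_le_iff_ne_zero.mpr (ha' j₀).1
    have h2 : (1 : ℝ) ≤ a' j₀ := by exact_mod_cast this
    nlinarith
  have hκ : (1 : ℝ) ≤ F.κ := by exact_mod_cast F.κ_pos
  have hκ' : (1 : ℝ) ≤ F'.κ := by exact_mod_cast F'.κ_pos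
  have hΔR : (0 : ℝ) < F.Δ := by exact_mod_cast F.pos
  have hΔR' : (0 : ℝ) < F'.Δ := by exact_mod_cast F'.pos
  set Z : ℝ := F.κ * X / ((a i₀ : ℝ) ^ 2 * δ) with hZ
  set Z' : ℝ := F'.κ * X / ((a' j₀ : ℝ) ^ 2 * δ) with hZ'
  have hZ0 : 0 ≤ Z := by positivity
  have hZ0' : 0 ≤ Z' := by positivity
  set P : ℝ := ∏ k, (a (i₀.succAbove k) : ℝ) ^ 2 with hP
  set P' : ℝ := ∏ k, (a' (j₀.succAbove k) : ℝ) ^ 2 with hP'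
  have hP0 : 0 < P := Finset.prod_pos (fun k _ => by
    have := (ha (i₀.succAbove k)).1
    positivity)
  have hP0' : 0 < P' := Finset.prod_pos (fun k _ => by
    have := (ha' (j₀.succAbove k)).1
    positivity)
  -- values of the large forms
  have habs : ∀ p ∈ s, ∀ m m' : ℕ, ∀ E E' : Fin 3 → ℕ,
      Rel F F' i₀ j₀ sg sg' b b' a a' δ m m' E E' p →
      (a i₀ : ℝ) ^ 2 * (δ * m) ≤ F.κ * X ∧ (a' j₀ : ℝ) ^ 2 * (δ * m') ≤ F'.κ * X := by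
    intro p hp m m' E E' hrel
    obtain ⟨hb1, _⟩ := hs p hp
    have g1 := F.L_le hb1.2.2.2.1.1 hb1.2.2.2.1.2 i₀
    have g2 := F'.L_le hb1.2.2.2.2.1.1 hb1.2.2.2.2.1.2 j₀
    rw [hrel.1] at g1
    rw [hrel.2.1] at g2
    have hs1 : |(sg : ℝ)| = 1 := by
      simp only [Finset.mem_insert, Finset.mem_singleton] at hsg
      rcases hsg with rfl | rfl <;> norm_num
    have hs1' : |(sg' : ℝ)| = 1 := by
      simp only [Finset.mem_insert, Finset.mem_singleton] at hsg'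
      rcases hsg' with rfl | rfl <;> norm_num
    push_cast at g1 g2
    rw [abs_mul, hs1, one_mul, abs_of_nonneg (by positivity)] at g1
    rw [abs_mul, hs1', one_mul, abs_of_nonneg (by positivity)] at g2
    exact ⟨g1, g2⟩
  set w0 : ℝ := (8 * (F.Δ : ℝ) ^ 5 * (F'.Δ : ℝ) ^ 5 * X ^ 2 * (P⁻¹ * P'⁻¹)) ^ (1 / 3 : ℝ) with hw0
  have h1 := card_le_sum_of_exists s (Finset.Icc 1 ⌊Z⌋₊ ×ˢ Finset.Icc 1 ⌊Z'⌋₊)
    (fun e p => ∃ E E' : Fin 3 → ℕ, (∀ k, E k ≠ 0) ∧ (∀ k, E' k ≠ 0) ∧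
      Rel F F' i₀ j₀ sg sg' b b' a a' δ e.1 e.2 E E' p)
    (by
      intro p hp
      obtain ⟨_, m, m', hm, hm', E, E', hE, hE', hrel⟩ := hs p hp
      obtain ⟨g1, g2⟩ := habs p hp m m' E E' hrel
      refine ⟨(m, m'), ?_, E, E', hE, hE', hrel⟩
      rw [Finset.mem_product, Finset.mem_Icc, Finset.mem_Icc]
      refine ⟨⟨Nat.one_le_iff_ne_zero.mpr hm, ?_⟩, ⟨Nat.one_le_iff_ne_zero.mpr hm', ?_⟩⟩
      · apply Nat.le_floor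
        rw [hZ, le_div_iff₀ (by positivity)]
        calc (m : ℝ) * ((a i₀ : ℝ) ^ 2 * δ) = (a i₀ : ℝ) ^ 2 * (δ * m) := by ring
          _ ≤ _ := g1
      · apply Nat.le_floor
        rw [hZ', le_div_iff₀ (by positivity)]
        calc (m' : ℝ) * ((a' j₀ : ℝ) ^ 2 * δ) = (a' j₀ : ℝ) ^ 2 * (δ * m') := by ring
          _ ≤ _ := g2)
    (fun e => T ^ 6 * (Cr r * (w0 * ((e.1 : ℝ) ^ (-(1 / 3) : ℝ) * (e.2 : ℝ) ^ (-(1 / 3) : ℝ)) +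
      2 * R0)))
    (by
      intro e he
      rw [Finset.mem_product, Finset.mem_Icc, Finset.mem_Icc] at he
      have he1 : e.1 ≠ 0 := by omega
      have he2 : e.2 ≠ 0 := by omega
      have he1R : (0 : ℝ) < e.1 := by exact_mod_cast Nat.pos_of_ne_zero he1
      have he2R : (0 : ℝ) < e.2 := by exact_mod_cast Nat.pos_of_ne_zero he2
      have hτ1 : ((δ * e.1).divisors.card : ℝ) ≤ T := by
        apply hT _ (Nat.mul_ne_zero hδ he1)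
        left
        have h2 : (e.1 : ℝ) ≤ Z := (Nat.le_floor_iff hZ0).mp he.1.2
        rw [hZ, le_div_iff₀ (by positivity)] at h2
        push_cast
        nlinarith [mul_pos hδR he1R]
      have hτ2 : ((δ * e.2).divisors.card : ℝ) ≤ T := by
        apply hT _ (Nat.mul_ne_zero hδ he2)
        right
        have h2 : (e.2 : ℝ) ≤ Z' := (Nat.le_floor_iff hZ0').mp he.2.2
        rw [hZ', le_div_iff₀ (by positivity)] at h2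
        push_cast
        nlinarith [mul_pos hδR he2R]
      have h2 := lev5 F F' r (X0 := X0) hX hR0 hR hsg hsg' hb hb' ha ha' hδ he1 he2 hτ1 hτ2
        (s.filter (fun p => ∃ E E' : Fin 3 → ℕ, (∀ k, E k ≠ 0) ∧ (∀ k, E' k ≠ 0) ∧
          Rel F F' i₀ j₀ sg sg' b b' a a' δ e.1 e.2 E E' p))
        (fun p hp => ⟨(hs p (Finset.mem_filter.mp hp).1).1, (Finset.mem_filter.mp hp).2⟩)
      refine h2.trans (le_of_eq ?_)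
      congr 3
      rw [← hP, ← hP', hw0]
      rw [Real.rpow_neg he1R.le, Real.rpow_neg he2R.le, ← Real.inv_rpow he1R.le,
        ← Real.inv_rpow he2R.le, ← Real.mul_rpow (by positivity) (by positivity),
        ← Real.mul_rpow (by positivity) (by positivity)]
      congr 1
      field_simp)
  have hT0 : 0 ≤ T := by
    have := hT 1 one_ne_zero (Or.inl (by push_cast; nlinarith))
    exact (Nat.cast_nonneg _).trans this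
  have hCr := (Cr_pos r).le
  have hw0n : 0 ≤ w0 := by positivity
  -- evaluate the sum
  have h2 : ∑ e ∈ Finset.Icc 1 ⌊Z⌋₊ ×ˢ Finset.Icc 1 ⌊Z'⌋₊,
      T ^ 6 * (Cr r * (w0 * ((e.1 : ℝ) ^ (-(1 / 3) : ℝ) * (e.2 : ℝ) ^ (-(1 / 3) : ℝ)) + 2 * R0)) =
      T ^ 6 * Cr r * (w0 * ((∑ m ∈ Finset.Icc 1 ⌊Z⌋₊, (m : ℝ) ^ (-(1 / 3) : ℝ)) *
        (∑ m ∈ Finset.Icc 1 ⌊Z'⌋₊, (m : ℝ) ^ (-(1 / 3) : ℝ))) +
        2 * R0 * (((⌊Z⌋₊ : ℕ) : ℝ) * ((⌊Z'⌋₊ : ℕ) : ℝ))) := by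
    rw [Finset.sum_mul_sum, ← Finset.sum_product']
    have e1 : (((⌊Z⌋₊ : ℕ) : ℝ) * ((⌊Z'⌋₊ : ℕ) : ℝ)) =
        ∑ e ∈ Finset.Icc 1 ⌊Z⌋₊ ×ˢ Finset.Icc 1 ⌊Z'⌋₊, (1 : ℝ) := by
      rw [Finset.sum_const, Finset.card_product, Nat.card_Icc, Nat.card_Icc, nsmul_eq_mul]
      push_cast
      simp
    rw [e1, Finset.mul_sum, Finset.mul_sum, ← Finset.sum_add_distrib, Finset.mul_sum]
    apply Finset.sum_congr rfl
    intro e _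
    ring
  rw [h2] at h1
  refine h1.trans ?_
  have hf1 := floor_sum_le hZ0
  have hf2 := floor_sum_le hZ0'
  have hs1 : 0 ≤ ∑ m ∈ Finset.Icc 1 ⌊Z'⌋₊, (m : ℝ) ^ (-(1 / 3) : ℝ) :=
    Finset.sum_nonneg (fun m _ => by positivity)
  clear_value P P' Z Z' w0
  have hbound1 : w0 * ((∑ m ∈ Finset.Icc 1 ⌊Z⌋₊, (m : ℝ) ^ (-(1 / 3) : ℝ)) *
        (∑ m ∈ Finset.Icc 1 ⌊Z'⌋₊, (m : ℝ) ^ (-(1 / 3) : ℝ))) ≤
      X ^ 2 * ((9 / 4 * (8 * (F.Δ : ℝ) ^ 5 * (F'.Δ : ℝ) ^ 5) ^ (1 / 3 : ℝ) *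
        (F.κ * F'.κ : ℝ) ^ (2 / 3 : ℝ)) * (δ : ℝ) ^ (-(4 / 3) : ℝ) *
        ((∏ i, (a i : ℝ) ^ (-(2 / 3) : ℝ)) * ∏ i, (a' i : ℝ) ^ (-(2 / 3) : ℝ))) := by
    have g1 := prod_succAbove_rpow a (fun i => (ha i).1) i₀
    have g2 := prod_succAbove_rpow a' (fun i => (ha' i).1) j₀
    rw [← hP] at g1
    rw [← hP'] at g2
    have e1 : w0 = (8 * (F.Δ : ℝ) ^ 5 * (F'.Δ : ℝ) ^ 5) ^ (1 / 3 : ℝ) * X ^ (2 / 3 : ℝ) *
        ((P⁻¹) ^ (1 / 3 : ℝ) * (P'⁻¹) ^ (1 / 3 : ℝ)) := by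
      rw [hw0, Real.mul_rpow (by positivity) (by positivity),
        Real.mul_rpow (by positivity) (by positivity),
        Real.mul_rpow (x := P⁻¹) (by positivity) (by positivity)]
      congr 2
      rw [← Real.rpow_natCast, ← Real.rpow_mul (by positivity)]
      norm_num
    have e2 : Z ^ (2 / 3 : ℝ) = (F.κ : ℝ) ^ (2 / 3 : ℝ) * X ^ (2 / 3 : ℝ) *
        ((((a i₀ : ℝ) ^ 2)⁻¹) ^ (2 / 3 : ℝ) * (δ : ℝ) ^ (-(2 / 3) : ℝ)) := by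
      rw [hZ, Real.rpow_neg hδR.le, ← Real.inv_rpow hδR.le,
        ← Real.mul_rpow (by positivity) (by positivity),
        ← Real.mul_rpow (by positivity) (by positivity),
        ← Real.mul_rpow (by positivity) (by positivity)]
      congr 1
      field_simp
    have e3 : Z' ^ (2 / 3 : ℝ) = (F'.κ : ℝ) ^ (2 / 3 : ℝ) * X ^ (2 / 3 : ℝ) *
        ((((a' j₀ : ℝ) ^ 2)⁻¹) ^ (2 / 3 : ℝ) * (δ : ℝ) ^ (-(2 / 3) : ℝ)) := by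
      rw [hZ', Real.rpow_neg hδR.le, ← Real.inv_rpow hδR.le,
        ← Real.mul_rpow (by positivity) (by positivity),
        ← Real.mul_rpow (by positivity) (by positivity),
        ← Real.mul_rpow (by positivity) (by positivity)]
      congr 1
      field_simp
    have e4 : (F.κ * F'.κ : ℝ) ^ (2 / 3 : ℝ) = (F.κ : ℝ) ^ (2 / 3 : ℝ) * (F'.κ : ℝ) ^ (2 / 3 : ℝ) :=
      Real.mul_rpow (by positivity) (by positivity)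
    have e5 : X ^ 2 = X ^ (2 / 3 : ℝ) * X ^ (2 / 3 : ℝ) * X ^ (2 / 3 : ℝ) := by
      rw [← Real.rpow_add (by linarith), ← Real.rpow_add (by linarith), ← Real.rpow_natCast]
      norm_num
    have e6 : (δ : ℝ) ^ (-(4 / 3) : ℝ) = (δ : ℝ) ^ (-(2 / 3) : ℝ) * (δ : ℝ) ^ (-(2 / 3) : ℝ) := by
      rw [← Real.rpow_add hδR]
      norm_num
    rw [e2] at hf1
    rw [e3] at hf2
    rw [e1, e4, e5, e6]
    exact alg1 (by positivity) (by positivity) (by positivity) (by positivity) (by positivity)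
      (by positivity) (by positivity) (by positivity) (by positivity) hs1 hf1 hf2 g1 g2
  have hbound2 : ((⌊Z⌋₊ : ℕ) : ℝ) * ((⌊Z'⌋₊ : ℕ) : ℝ) ≤
      X ^ 2 * ((F.κ * F'.κ) * (δ : ℝ) ^ (-2 : ℝ)) := by
    have k1 : ((⌊Z⌋₊ : ℕ) : ℝ) ≤ F.κ * X / δ := by
      refine (Nat.floor_le hZ0).trans ?_
      rw [hZ]
      apply div_le_div_of_nonneg_left (by positivity) hδR
      nlinarith
    have k2 : ((⌊Z'⌋₊ : ℕ) : ℝ) ≤ F'.κ * X / δ := by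
      refine (Nat.floor_le hZ0').trans ?_
      rw [hZ']
      apply div_le_div_of_nonneg_left (by positivity) hδR
      nlinarith
    calc _ ≤ (F.κ * X / δ) * (F'.κ * X / δ) := by gcongr
      _ = _ := by
        rw [Real.rpow_neg hδR.le]
        norm_num
        field_simp
  calc T ^ 6 * Cr r * (w0 * ((∑ m ∈ Finset.Icc 1 ⌊Z⌋₊, (m : ℝ) ^ (-(1 / 3) : ℝ)) *
        (∑ m ∈ Finset.Icc 1 ⌊Z'⌋₊, (m : ℝ) ^ (-(1 / 3) : ℝ))) +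
        2 * R0 * (((⌊Z⌋₊ : ℕ) : ℝ) * ((⌊Z'⌋₊ : ℕ) : ℝ))) ≤
      T ^ 6 * Cr r * (X ^ 2 * ((9 / 4 * (8 * (F.Δ : ℝ) ^ 5 * (F'.Δ : ℝ) ^ 5) ^ (1 / 3 : ℝ) *
        (F.κ * F'.κ : ℝ) ^ (2 / 3 : ℝ)) * (δ : ℝ) ^ (-(4 / 3) : ℝ) *
        ((∏ i, (a i : ℝ) ^ (-(2 / 3) : ℝ)) * ∏ i, (a' i : ℝ) ^ (-(2 / 3) : ℝ))) +
        2 * R0 * (X ^ 2 * ((F.κ * F'.κ) * (δ : ℝ) ^ (-2 : ℝ)))) := by
        gcongr
    _ = _ := by ring

end Pool.Agent.K3N
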