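import Pool.Agent.K3N.Sum2

/-!
Summation over the remaining data, final form.
-/

namespace Pool.Agent.K3N

open Finset

lemma rel_abs {F F' : Forms} {X X0 : ℝ} {i₀ j₀ : Fin 4} {sg sg' : ℤ}
    (hsg : sg ∈ ({1, -1} : Finset ℤ)) {b b' : ℕ} {a a' : Fin 4 → ℕ} {δ m m' : ℕ}
    {E E' : Fin 3 → ℕ} {p : Pt} (hB : Base F F' X X0 p)
    (hrel : Rel F F' i₀ j₀ sg sg' b b' a a' δ m m' E E' p) :
    (a i₀ : ℝ) ^ 2 * (δ * m) ≤ F.κ * X ∧ X0 ≤ 2 * F.κ * ((a i₀ : ℝ) ^ 2 * (δ * m)) := by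
  have g1 := F.L_le hB.2.2.2.1.1 hB.2.2.2.1.2 i₀
  have g2 := hrel.2.2.2.2.2.2.2.2.2.2
  have g3 := hB.2.2.2.2.2.1
  rw [hrel.1] at g1 g2
  have hs1 : |(sg : ℝ)| = 1 := by
    simp only [Finset.mem_insert, Finset.mem_singleton] at hsg
    rcases hsg with rfl | rfl <;> norm_num
  have e : |(sg : ℝ) * ((a i₀ : ℝ) ^ 2 * (δ * m))| = (a i₀ : ℝ) ^ 2 * (δ * m) := by
    rw [abs_mul, hs1, one_mul, abs_of_nonneg (by positivity)]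
  push_cast at g1 g2
  rw [e] at g1 g2
  exact ⟨g1, g3.trans g2⟩

/-- The constant of the main term. -/
noncomputable def c1 (F F' : Forms) : ℝ := 9 / 4 * (8 * (F.Δ : ℝ) ^ 5 * (F'.Δ : ℝ) ^ 5) ^ (1 / 3 : ℝ) *
        (F.κ * F'.κ : ℝ) ^ (2 / 3 : ℝ)

lemma c1_nonneg (F F' : Forms) : 0 ≤ c1 F F' := by unfold c1; positivity

lemma lev2 (F F' : Forms) (r : ℕ) {X X0 R0 T δ0 ε : ℝ} (hX : 1 ≤ X) (hR0 : 1 ≤ R0) {b0 : ℕ}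
    (hR : 3 * ((F.Δ : ℝ) ^ 2 * b0 ^ 4) ^ 2 * F'.Δ * (F'.κ * X) ^ 6 ≤ R0 ^ r)
    (hδ0 : 0 < δ0) (hδX : 2 * F.κ * F.Δ * b0 ^ 2 * δ0 ^ 4 ≤ X0) (hε : 0 < ε) (hε1 : ε ≤ 1)
    {i₀ j₀ : Fin 4} {sg sg' : ℤ} (hsg : sg ∈ ({1, -1} : Finset ℤ))
    (hsg' : sg' ∈ ({1, -1} : Finset ℤ)) {b b' : ℕ} (hb : b ∈ (F.Δ ^ 2).divisors)
    (hb' : b' ∈ (F'.Δ ^ 2).divisors) {a a' : Fin 4 → ℕ} (ha : ∀ i, a i ≠ 0 ∧ a i ≤ b0)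
    (ha' : ∀ i, a' i ≠ 0 ∧ a' i ≤ b0)
    (hT : ∀ n : ℕ, n ≠ 0 → ((n : ℝ) ≤ F.κ * X ∨ (n : ℝ) ≤ F'.κ * X) → (n.divisors.card : ℝ) ≤ T)
    (s : Finset Pt)
    (hs : ∀ p ∈ s, Base F F' X X0 p ∧ ∃ δ m m' : ℕ, δ ≠ 0 ∧ m ≠ 0 ∧ m' ≠ 0 ∧
      ∃ E E' : Fin 3 → ℕ, (∀ k, E k ≠ 0) ∧ (∀ k, E' k ≠ 0) ∧
      Rel F F' i₀ j₀ sg sg' b b' a a' δ m m' E E' p) :
    (s.card : ℝ) ≤ T ^ 6 * Cr r * X ^ 2 * ((F.κ * X) ^ ε / ε) *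
      (c1 F F' * δ0 ^ (-(1 / 3) : ℝ) *
        ((∏ i, (a i : ℝ) ^ (-(2 / 3) : ℝ)) * ∏ i, (a' i : ℝ) ^ (-(2 / 3) : ℝ)) +
        2 * R0 * (F.κ * F'.κ) * δ0 ^ (-1 : ℝ)) := by
  classical
  have hκ : (1 : ℝ) ≤ F.κ := by exact_mod_cast F.κ_pos
  have hΔR : (0 : ℝ) < F.Δ := by exact_mod_cast F.pos
  have hCr := (Cr_pos r).le
  have hc1 := c1_nonneg F F'
  obtain ⟨W, hW⟩ : ∃ W : ℝ, W = (∏ i, (a i : ℝ) ^ (-(2 / 3) : ℝ)) *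
      ∏ i, (a' i : ℝ) ^ (-(2 / 3) : ℝ) := ⟨_, rfl⟩
  have hW0 : 0 ≤ W := by
    rw [hW]
    exact mul_nonneg (Finset.prod_nonneg (fun k _ => by positivity))
      (Finset.prod_nonneg (fun k _ => by positivity))
  rw [← hW]
  have h1 := card_le_sum_of_exists s ((Finset.Icc 1 ⌊F.κ * X⌋₊).filter (fun d : ℕ => δ0 ≤ d))
    (fun δ p => δ ≠ 0 ∧ ∃ m m' : ℕ, m ≠ 0 ∧ m' ≠ 0 ∧
      ∃ E E' : Fin 3 → ℕ, (∀ k, E k ≠ 0) ∧ (∀ k, E' k ≠ 0) ∧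
      Rel F F' i₀ j₀ sg sg' b b' a a' δ m m' E E' p)
    (by
      intro p hp
      obtain ⟨hB, δ, m, m', hδ, hm, hm', E, E', hE, hE', hrel⟩ := hs p hp
      refine ⟨δ, ?_, hδ, m, m', hm, hm', E, E', hE, hE', hrel⟩
      obtain ⟨g1, g2⟩ := rel_abs hsg hB hrel
      have hδR : (0 : ℝ) < δ := by exact_mod_cast Nat.pos_of_ne_zero hδ
      have hmR : (1 : ℝ) ≤ m := by exact_mod_cast Nat.one_le_iff_ne_zero.mpr hm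
      have haR : (1 : ℝ) ≤ a i₀ := by exact_mod_cast Nat.one_le_iff_ne_zero.mpr (ha i₀).1
      have haR2 : (a i₀ : ℝ) ≤ b0 := by exact_mod_cast (ha i₀).2
      have hmΔ : (m : ℝ) ≤ F.Δ * (δ : ℝ) ^ 3 := by exact_mod_cast hrel.2.2.2.2.2.2.2.2.2.1
      rw [Finset.mem_filter, Finset.mem_Icc]
      refine ⟨⟨Nat.one_le_iff_ne_zero.mpr hδ, ?_⟩, ?_⟩
      · apply Nat.le_floor
        have h2 : (δ : ℝ) ≤ δ * m := by nlinarith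
        have h3 : (δ : ℝ) * m ≤ (a i₀ : ℝ) ^ 2 * (δ * m) := by
          have : (1 : ℝ) ≤ (a i₀ : ℝ) ^ 2 := by nlinarith
          nlinarith [mul_pos hδR (by linarith : (0 : ℝ) < m)]
        linarith
      · have h2 : X0 ≤ 2 * F.κ * ((b0 : ℝ) ^ 2 * (δ * (F.Δ * (δ : ℝ) ^ 3))) := by
          refine g2.trans ?_
          gcongr
        have h3 : (2 * F.κ * F.Δ * (b0 : ℝ) ^ 2) * δ0 ^ 4 ≤
            (2 * F.κ * F.Δ * (b0 : ℝ) ^ 2) * (δ : ℝ) ^ 4 := by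
          refine hδX.trans (h2.trans (le_of_eq ?_))
          ring
        have hb0 : (0 : ℝ) < b0 := by linarith
        have h4 : δ0 ^ 4 ≤ (δ : ℝ) ^ 4 := le_of_mul_le_mul_left h3 (by positivity)
        exact le_of_pow_le_pow_left₀ (by norm_num) hδR.le h4)
    (fun δ => T ^ 6 * Cr r * X ^ 2 * ((c1 F F' * δ0 ^ (-(1 / 3) : ℝ) * W +
        2 * R0 * (F.κ * F'.κ) * δ0 ^ (-1 : ℝ)) * (δ : ℝ) ^ (ε - 1)))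
    (by
      intro δ hδ
      obtain ⟨hδ1, hδ2⟩ := Finset.mem_filter.mp hδ
      have hδ3 : 1 ≤ δ := (Finset.mem_Icc.mp hδ1).1
      have hδ1R : (1 : ℝ) ≤ δ := by exact_mod_cast hδ3
      have hδR : (0 : ℝ) < δ := by linarith
      refine (lev4 F F' r (X0 := X0) hX hR0 hR hsg hsg' hb hb' ha ha' (δ := δ) (by omega) hT _
        (fun p hp => ⟨(hs p (Finset.mem_filter.mp hp).1).1, (Finset.mem_filter.mp hp).2.2⟩)).trans ?_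
      rw [← hW]
      change T ^ 6 * Cr r * X ^ 2 * (c1 F F' * (δ : ℝ) ^ (-(4 / 3) : ℝ) * W +
        2 * R0 * (F.κ * F'.κ) * (δ : ℝ) ^ (-2 : ℝ)) ≤ _
      have hinv : (δ : ℝ) ^ (-1 : ℝ) ≤ (δ : ℝ) ^ (ε - 1) :=
        Real.rpow_le_rpow_of_exponent_le hδ1R (by linarith)
      have e1 : (δ : ℝ) ^ (-(4 / 3) : ℝ) ≤ δ0 ^ (-(1 / 3) : ℝ) * (δ : ℝ) ^ (ε - 1) := by
        have : (δ : ℝ) ^ (-(4 / 3) : ℝ) = (δ : ℝ) ^ (-(1 / 3) : ℝ) * (δ : ℝ) ^ (-1 : ℝ) := by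
          rw [← Real.rpow_add hδR]; norm_num
        rw [this]
        have h2 : (δ : ℝ) ^ (-(1 / 3) : ℝ) ≤ δ0 ^ (-(1 / 3) : ℝ) :=
          Real.rpow_le_rpow_of_nonpos hδ0 hδ2 (by norm_num)
        exact mul_le_mul h2 hinv (by positivity) (by positivity)
      have e2 : (δ : ℝ) ^ (-2 : ℝ) ≤ δ0 ^ (-1 : ℝ) * (δ : ℝ) ^ (ε - 1) := by
        have : (δ : ℝ) ^ (-2 : ℝ) = (δ : ℝ) ^ (-1 : ℝ) * (δ : ℝ) ^ (-1 : ℝ) := by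
          rw [← Real.rpow_add hδR]; norm_num
        rw [this]
        have h2 : (δ : ℝ) ^ (-1 : ℝ) ≤ δ0 ^ (-1 : ℝ) :=
          Real.rpow_le_rpow_of_nonpos hδ0 hδ2 (by norm_num)
        exact mul_le_mul h2 hinv (by positivity) (by positivity)
      apply mul_le_mul_of_nonneg_left _ (by positivity)
      have h5 : 0 ≤ 2 * R0 * (F.κ * F'.κ : ℝ) := by positivity
      calc c1 F F' * (δ : ℝ) ^ (-(4 / 3) : ℝ) * W + 2 * R0 * (F.κ * F'.κ) * (δ : ℝ) ^ (-2 : ℝ) ≤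
            c1 F F' * (δ0 ^ (-(1 / 3) : ℝ) * (δ : ℝ) ^ (ε - 1)) * W +
            2 * R0 * (F.κ * F'.κ) * (δ0 ^ (-1 : ℝ) * (δ : ℝ) ^ (ε - 1)) := by
            gcongr
        _ = _ := by ring)
  have hsum : ∑ δ ∈ (Finset.Icc 1 ⌊F.κ * X⌋₊).filter (fun d : ℕ => δ0 ≤ d),
      (δ : ℝ) ^ (ε - 1) ≤ (F.κ * X) ^ ε / ε := by
    calc _ ≤ ∑ δ ∈ Finset.Icc 1 ⌊F.κ * X⌋₊, (δ : ℝ) ^ (ε - 1) :=
          Finset.sum_le_sum_of_subset_of_nonneg (Finset.filter_subset _ _)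
            (fun _ _ _ => by positivity)
      _ ≤ ((⌊F.κ * X⌋₊ : ℕ) : ℝ) ^ ε / ε := sum_rpow_le ε hε hε1 _
      _ ≤ _ := by
          gcongr
          exact Nat.floor_le (by positivity)
  rw [← Finset.mul_sum, ← Finset.mul_sum] at h1
  refine h1.trans ?_
  calc T ^ 6 * Cr r * X ^ 2 * ((c1 F F' * δ0 ^ (-(1 / 3) : ℝ) * W +
        2 * R0 * (F.κ * F'.κ) * δ0 ^ (-1 : ℝ)) *
        ∑ δ ∈ (Finset.Icc 1 ⌊F.κ * X⌋₊).filter (fun d : ℕ => δ0 ≤ d), (δ : ℝ) ^ (ε - 1)) ≤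
      T ^ 6 * Cr r * X ^ 2 * ((c1 F F' * δ0 ^ (-(1 / 3) : ℝ) * W +
        2 * R0 * (F.κ * F'.κ) * δ0 ^ (-1 : ℝ)) * ((F.κ * X) ^ ε / ε)) := by
        gcongr
    _ = _ := by ring

lemma sum_W (b0 : ℕ) : ∑ a ∈ Fintype.piFinset (fun _ : Fin 4 => Finset.Icc 1 b0),
    (∏ i, (a i : ℝ) ^ (-(2 / 3) : ℝ)) ≤ 81 * (b0 : ℝ) ^ (4 / 3 : ℝ) := by
  rw [← Finset.prod_univ_sum (fun _ : Fin 4 => Finset.Icc 1 b0)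
    (fun _ n => (n : ℝ) ^ (-(2 / 3) : ℝ)), Finset.prod_const, Finset.card_univ, Fintype.card_fin]
  have h1 := sum_rpow_le (1 / 3) (by norm_num) (by norm_num) b0
  have e : (1 / 3 : ℝ) - 1 = -(2 / 3) := by norm_num
  rw [e] at h1
  have h2 : 0 ≤ ∑ n ∈ Finset.Icc 1 b0, (n : ℝ) ^ (-(2 / 3) : ℝ) :=
    Finset.sum_nonneg (fun _ _ => by positivity)
  calc _ ≤ ((b0 : ℝ) ^ (1 / 3 : ℝ) / (1 / 3)) ^ 4 := pow_le_pow_left₀ h2 h1 4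
    _ = 81 * ((b0 : ℝ) ^ (1 / 3 : ℝ)) ^ 4 := by ring
    _ = _ := by
      congr 1
      rw [← Real.rpow_natCast, ← Real.rpow_mul (by positivity)]
      norm_num

lemma lev1 (F F' : Forms) (r : ℕ) {X X0 R0 T δ0 ε : ℝ} (hX : 1 ≤ X) (hR0 : 1 ≤ R0) {b0 : ℕ}
    (hR : 3 * ((F.Δ : ℝ) ^ 2 * b0 ^ 4) ^ 2 * F'.Δ * (F'.κ * X) ^ 6 ≤ R0 ^ r)
    (hδ0 : 0 < δ0) (hδX : 2 * F.κ * F.Δ * b0 ^ 2 * δ0 ^ 4 ≤ X0) (hε : 0 < ε) (hε1 : ε ≤ 1)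
    {i₀ j₀ : Fin 4} {sg sg' : ℤ} (hsg : sg ∈ ({1, -1} : Finset ℤ))
    (hsg' : sg' ∈ ({1, -1} : Finset ℤ)) {b b' : ℕ} (hb : b ∈ (F.Δ ^ 2).divisors)
    (hb' : b' ∈ (F'.Δ ^ 2).divisors)
    (hT : ∀ n : ℕ, n ≠ 0 → ((n : ℝ) ≤ F.κ * X ∨ (n : ℝ) ≤ F'.κ * X) → (n.divisors.card : ℝ) ≤ T)
    (s : Finset Pt)
    (hs : ∀ p ∈ s, Base F F' X X0 p ∧ ∃ a a' : Fin 4 → ℕ, (∀ i, a i ≠ 0 ∧ a i ≤ b0) ∧
      (∀ i, a' i ≠ 0 ∧ a' i ≤ b0) ∧ ∃ δ m m' : ℕ, δ ≠ 0 ∧ m ≠ 0 ∧ m' ≠ 0 ∧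
      ∃ E E' : Fin 3 → ℕ, (∀ k, E k ≠ 0) ∧ (∀ k, E' k ≠ 0) ∧
      Rel F F' i₀ j₀ sg sg' b b' a a' δ m m' E E' p) :
    (s.card : ℝ) ≤ T ^ 6 * Cr r * X ^ 2 * ((F.κ * X) ^ ε / ε) *
      (c1 F F' * δ0 ^ (-(1 / 3) : ℝ) * (6561 * (b0 : ℝ) ^ (8 / 3 : ℝ)) +
        2 * R0 * (F.κ * F'.κ) * δ0 ^ (-1 : ℝ) * (b0 : ℝ) ^ 8) := by
  classical
  have hκ : (1 : ℝ) ≤ F.κ := by exact_mod_cast F.κ_pos
  have hCr := (Cr_pos r).le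
  have hc1 := c1_nonneg F F'
  have hT0 : 0 ≤ T := by
    have := hT 1 one_ne_zero (Or.inl (by push_cast; nlinarith))
    exact (Nat.cast_nonneg _).trans this
  set A : Finset (Fin 4 → ℕ) := Fintype.piFinset (fun _ : Fin 4 => Finset.Icc 1 b0) with hA
  have hAm : ∀ a : Fin 4 → ℕ, a ∈ A ↔ ∀ i, a i ≠ 0 ∧ a i ≤ b0 := by
    intro a
    rw [hA, Fintype.mem_piFinset]
    simp only [Finset.mem_Icc, Nat.one_le_iff_ne_zero]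
  have h1 := card_le_sum_of_exists s (A ×ˢ A)
    (fun e p => ∃ δ m m' : ℕ, δ ≠ 0 ∧ m ≠ 0 ∧ m' ≠ 0 ∧
      ∃ E E' : Fin 3 → ℕ, (∀ k, E k ≠ 0) ∧ (∀ k, E' k ≠ 0) ∧
      Rel F F' i₀ j₀ sg sg' b b' e.1 e.2 δ m m' E E' p)
    (by
      intro p hp
      obtain ⟨hB, a, a', ha, ha', hrest⟩ := hs p hp
      exact ⟨(a, a'), Finset.mem_product.mpr ⟨(hAm a).mpr ha, (hAm a').mpr ha'⟩, hrest⟩)
    (fun e => T ^ 6 * Cr r * X ^ 2 * ((F.κ * X) ^ ε / ε) *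
      (c1 F F' * δ0 ^ (-(1 / 3) : ℝ) *
        ((∏ i, (e.1 i : ℝ) ^ (-(2 / 3) : ℝ)) * ∏ i, (e.2 i : ℝ) ^ (-(2 / 3) : ℝ)) +
        2 * R0 * (F.κ * F'.κ) * δ0 ^ (-1 : ℝ)))
    (by
      intro e he
      obtain ⟨he1, he2⟩ := Finset.mem_product.mp he
      exact lev2 F F' r (X0 := X0) hX hR0 hR hδ0 hδX hε hε1 hsg hsg' hb hb' ((hAm _).mp he1)
        ((hAm _).mp he2) hT _ (fun p hp => ⟨(hs p (Finset.mem_filter.mp hp).1).1,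
          (Finset.mem_filter.mp hp).2⟩))
  refine h1.trans ?_
  rw [← Finset.mul_sum, Finset.sum_add_distrib, ← Finset.mul_sum, Finset.sum_const,
    Finset.card_product, nsmul_eq_mul]
  have e1 : ∑ e ∈ A ×ˢ A, ((∏ i, (e.1 i : ℝ) ^ (-(2 / 3) : ℝ)) *
      ∏ i, (e.2 i : ℝ) ^ (-(2 / 3) : ℝ)) ≤ 6561 * (b0 : ℝ) ^ (8 / 3 : ℝ) := by
    rw [Finset.sum_product]
    simp only
    rw [← Finset.sum_mul_sum]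
    have h2 := sum_W b0
    rw [← hA] at h2
    have h3 : 0 ≤ ∑ a ∈ A, (∏ i, (a i : ℝ) ^ (-(2 / 3) : ℝ)) :=
      Finset.sum_nonneg (fun a _ => Finset.prod_nonneg (fun i _ => by positivity))
    calc _ ≤ (81 * (b0 : ℝ) ^ (4 / 3 : ℝ)) * (81 * (b0 : ℝ) ^ (4 / 3 : ℝ)) :=
          mul_le_mul h2 h2 h3 (by positivity)
      _ = 6561 * ((b0 : ℝ) ^ (4 / 3 : ℝ)) ^ 2 := by ring
      _ = _ := by
        congr 1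
        rw [← Real.rpow_natCast, ← Real.rpow_mul (by positivity)]
        norm_num
  have e2 : (((A.card * A.card : ℕ) : ℕ) : ℝ) = (b0 : ℝ) ^ 8 := by
    have : A.card = b0 ^ 4 := by
      rw [hA, Fintype.card_piFinset]
      simp
    rw [this]
    push_cast
    ring
  rw [e2]
  apply mul_le_mul_of_nonneg_left _ (by positivity)
  have e3 : (b0 : ℝ) ^ 8 * (2 * R0 * (F.κ * F'.κ) * δ0 ^ (-1 : ℝ)) =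
      2 * R0 * (F.κ * F'.κ) * δ0 ^ (-1 : ℝ) * (b0 : ℝ) ^ 8 := by ring
  rw [e3]
  have h4 : 0 ≤ c1 F F' * δ0 ^ (-(1 / 3) : ℝ) := by positivity
  gcongr

/-- The main count. -/
theorem main_sum (F F' : Forms) (r : ℕ) (ε : ℝ) (hε : 0 < ε) (hε1 : ε ≤ 1) :
    ∃ C : ℝ, 0 ≤ C ∧ ∀ (X X0 R0 T δ0 : ℝ) (b0 : ℕ), 1 ≤ X → 1 ≤ R0 → 0 < δ0 →
      3 * ((F.Δ : ℝ) ^ 2 * b0 ^ 4) ^ 2 * F'.Δ * (F'.κ * X) ^ 6 ≤ R0 ^ r →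
      2 * F.κ * F.Δ * b0 ^ 2 * δ0 ^ 4 ≤ X0 →
      (∀ n : ℕ, n ≠ 0 → ((n : ℝ) ≤ F.κ * X ∨ (n : ℝ) ≤ F'.κ * X) →
        (n.divisors.card : ℝ) ≤ T) →
      ∀ s : Finset Pt, (∀ p ∈ s, Base F F' X X0 p ∧
        (∀ i, F.L i p.1.1 p.1.2 ≠ 0 ∧ sq (F.L i p.1.1 p.1.2).natAbs ≤ b0) ∧
        (∀ j, sq (F'.L j p.2.1 p.2.2).natAbs ≤ b0) ∧
        ∃ y : ℤ, (∏ i, F.L i p.1.1 p.1.2) * ∏ j, F'.L j p.2.1 p.2.2 = y ^ 2) →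
      (s.card : ℝ) ≤ C * T ^ 6 * X ^ 2 * X ^ ε *
        (δ0 ^ (-(1 / 3) : ℝ) * (b0 : ℝ) ^ (8 / 3 : ℝ) + R0 * δ0 ^ (-1 : ℝ) * (b0 : ℝ) ^ 8) := by
  classical
  have hc1 := c1_nonneg F F'
  have hCr := (Cr_pos r).le
  set n0 : ℝ := (64 * (((F.Δ ^ 2).divisors.card : ℝ) * ((F'.Δ ^ 2).divisors.card : ℝ))) with hn0
  set C0 : ℝ := Cr r * ((F.κ : ℝ) ^ ε / ε) * (6561 * c1 F F' + 2 * (F.κ * F'.κ)) with hC0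
  refine ⟨n0 * C0, by positivity, ?_⟩
  intro X X0 R0 T δ0 b0 hX hR0 hδ0 hR hδX hT s hs
  set g : ℝ := T ^ 6 * Cr r * X ^ 2 * ((F.κ * X) ^ ε / ε) *
      (c1 F F' * δ0 ^ (-(1 / 3) : ℝ) * (6561 * (b0 : ℝ) ^ (8 / 3 : ℝ)) +
        2 * R0 * (F.κ * F'.κ) * δ0 ^ (-1 : ℝ) * (b0 : ℝ) ^ 8) with hg
  have h1 := card_le_sum_of_exists s
    ((((Finset.univ : Finset (Fin 4)) ×ˢ (Finset.univ : Finset (Fin 4))) ×ˢ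
      ((({1, -1} : Finset ℤ)) ×ˢ (({1, -1} : Finset ℤ)))) ×ˢ
      ((F.Δ ^ 2).divisors ×ˢ (F'.Δ ^ 2).divisors))
    (fun e p => ∃ a a' : Fin 4 → ℕ, (∀ i, a i ≠ 0 ∧ a i ≤ b0) ∧
      (∀ i, a' i ≠ 0 ∧ a' i ≤ b0) ∧ ∃ δ m m' : ℕ, δ ≠ 0 ∧ m ≠ 0 ∧ m' ≠ 0 ∧
      ∃ E E' : Fin 3 → ℕ, (∀ k, E k ≠ 0) ∧ (∀ k, E' k ≠ 0) ∧
      Rel F F' e.1.1.1 e.1.1.2 e.1.2.1 e.1.2.2 e.2.1 e.2.2 a a' δ m m' E E' p)
    (by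
      intro p hp
      obtain ⟨hB, hL, hL', y, hy⟩ := hs p hp
      obtain ⟨i₀, j₀, sg, hsg, sg', hsg', b, hb, b', hb', δ, m, m', hδ, hm, hm', E, E', hE, hE',
        hrel⟩ := exists_data F F' hB.1 hB.2.1 (fun i => (hL i).1) hB.2.2.1 hy
      refine ⟨(((i₀, j₀), (sg, sg')), (b, b')), ?_, _, _, ?_, ?_, δ, m, m', hδ, hm, hm', E, E',
        hE, hE', hrel⟩
      · simp only [Finset.mem_product, Finset.mem_univ, true_and]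
        exact ⟨⟨hsg, hsg'⟩, hb, hb'⟩
      · intro i
        exact ⟨sq_ne_zero (Int.natAbs_ne_zero.mpr (hL i).1), (hL i).2⟩
      · intro i
        exact ⟨sq_ne_zero (Int.natAbs_ne_zero.mpr (hB.2.2.1 i)), hL' i⟩)
    (fun _ => g)
    (by
      intro e he
      simp only [Finset.mem_product] at he
      obtain ⟨⟨_, h2, h3⟩, h4, h5⟩ := he
      exact lev1 F F' r (X0 := X0) hX hR0 hR hδ0 hδX hε hε1 h2 h3 h4 h5 hT _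
        (fun p hp => ⟨(hs p (Finset.mem_filter.mp hp).1).1, (Finset.mem_filter.mp hp).2⟩))
  rw [Finset.sum_const, nsmul_eq_mul] at h1
  simp only [Finset.card_product, Finset.card_univ, Fintype.card_fin] at h1
  have hcard : ({1, -1} : Finset ℤ).card = 2 := by decide
  rw [hcard] at h1
  push_cast at h1
  rw [show (64 * (((F.Δ ^ 2).divisors.card : ℝ) * ((F'.Δ ^ 2).divisors.card : ℝ))) = n0 from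
    rfl] at h1
  have hn00 : 0 ≤ n0 := by rw [hn0]; positivity
  refine h1.trans ?_
  rw [mul_assoc n0, mul_assoc n0, mul_assoc n0, mul_assoc n0]
  apply mul_le_mul_of_nonneg_left _ hn00
  have hT6 : 0 ≤ T ^ 6 := by positivity
  have e1 : (F.κ * X : ℝ) ^ ε = (F.κ : ℝ) ^ ε * X ^ ε :=
    Real.mul_rpow (by positivity) (by positivity)
  set u : ℝ := δ0 ^ (-(1 / 3) : ℝ) * (b0 : ℝ) ^ (8 / 3 : ℝ) with hu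
  set v : ℝ := R0 * δ0 ^ (-1 : ℝ) * (b0 : ℝ) ^ 8 with hv
  have hu0 : 0 ≤ u := by positivity
  have hv0 : 0 ≤ v := by positivity
  have hk : 0 ≤ (F.κ * F'.κ : ℝ) := by positivity
  have e2 : c1 F F' * δ0 ^ (-(1 / 3) : ℝ) * (6561 * (b0 : ℝ) ^ (8 / 3 : ℝ)) +
        2 * R0 * (F.κ * F'.κ) * δ0 ^ (-1 : ℝ) * (b0 : ℝ) ^ 8 =
      6561 * c1 F F' * u + 2 * (F.κ * F'.κ) * v := by rw [hu, hv]; ring
  have e3 : 6561 * c1 F F' * u + 2 * (F.κ * F'.κ) * v ≤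
      (6561 * c1 F F' + 2 * (F.κ * F'.κ)) * (u + v) := by
    nlinarith [mul_nonneg hc1 hv0, mul_nonneg hk hu0]
  rw [hg, e2, e1, hC0]
  calc T ^ 6 * Cr r * X ^ 2 * ((F.κ : ℝ) ^ ε * X ^ ε / ε) *
        (6561 * c1 F F' * u + 2 * (F.κ * F'.κ) * v) ≤
      T ^ 6 * Cr r * X ^ 2 * ((F.κ : ℝ) ^ ε * X ^ ε / ε) *
        ((6561 * c1 F F' + 2 * (F.κ * F'.κ)) * (u + v)) := by
        apply mul_le_mul_of_nonneg_left e3 (by positivity)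
    _ = _ := by ring

end Pool.Agent.K3N
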